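import Mathlib

set_option autoImplicit false

/-! Optimisation over block sequences. -/

namespace Pool.Agent.H616R3.Opt

open Filter Topology

/-- local maximum of a product of two cubics at `0` -/
lemma poly_max (A0 A1 A2 A3 B0 B1 B2 B3 ε : ℝ) (hε : 0 < ε)
    (h : ∀ t : ℝ, |t| < ε → (A0 + A1 * t + A2 * t ^ 2 + A3 * t ^ 3) *
      (B0 + B1 * t + B2 * t ^ 2 + B3 * t ^ 3) ≤ A0 * B0) :
    A0 * B1 + A1 * B0 = 0 ∧ A0 * B2 + A1 * B1 + A2 * B0 ≤ 0 := by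
  set c1 := A0 * B1 + A1 * B0 with hc1
  set c2 := A0 * B2 + A1 * B1 + A2 * B0 with hc2
  set c3 := A0 * B3 + A1 * B2 + A2 * B1 + A3 * B0 with hc3
  set c4 := A1 * B3 + A2 * B2 + A3 * B1 with hc4
  set c5 := A2 * B3 + A3 * B2 with hc5
  set c6 := A3 * B3 with hc6
  have hp : ∀ t : ℝ, |t| < ε → t * (c1 + t * (c2 + t * (c3 + t * (c4 + t * (c5 + t * c6))))) ≤ 0 := by
    intro t ht
    have := h t ht
    have e : t * (c1 + t * (c2 + t * (c3 + t * (c4 + t * (c5 + t * c6))))) =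
      (A0 + A1 * t + A2 * t ^ 2 + A3 * t ^ 3) *
      (B0 + B1 * t + B2 * t ^ 2 + B3 * t ^ 3) - A0 * B0 := by
      rw [hc1, hc2, hc3, hc4, hc5, hc6]; ring
    rw [e]; linarith
  have key1 : c1 ≤ 0 := by
    have ht : Tendsto (fun t : ℝ => c1 + t * (c2 + t * (c3 + t * (c4 + t * (c5 + t * c6)))))
        (𝓝[>] 0) (𝓝 c1) := by
      have hc : Continuous (fun t : ℝ => c1 + t * (c2 + t * (c3 + t * (c4 + t * (c5 + t * c6))))) := by
        fun_prop
      have := hc.tendsto 0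
      simp only [zero_mul, add_zero] at this
      exact this.mono_left nhdsWithin_le_nhds
    refine le_of_tendsto ht ?_
    have hmem : Set.Ioo (0 : ℝ) ε ∈ 𝓝[>] (0 : ℝ) := Ioo_mem_nhdsGT hε
    filter_upwards [hmem] with t ht
    have := hp t (by rw [abs_of_pos ht.1]; exact ht.2)
    by_contra hcon
    push Not at hcon
    have := mul_pos ht.1 hcon
    linarith
  have key2 : 0 ≤ c1 := by
    have ht : Tendsto (fun t : ℝ => c1 + t * (c2 + t * (c3 + t * (c4 + t * (c5 + t * c6)))))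
        (𝓝[<] 0) (𝓝 c1) := by
      have hc : Continuous (fun t : ℝ => c1 + t * (c2 + t * (c3 + t * (c4 + t * (c5 + t * c6))))) := by
        fun_prop
      have := hc.tendsto 0
      simp only [zero_mul, add_zero] at this
      exact this.mono_left nhdsWithin_le_nhds
    refine ge_of_tendsto ht ?_
    have hmem : Set.Ioo (-ε) (0 : ℝ) ∈ 𝓝[<] (0 : ℝ) := Ioo_mem_nhdsLT (by linarith)
    filter_upwards [hmem] with t ht
    have := hp t (by rw [abs_of_neg ht.2]; linarith [ht.1])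
    by_contra hcon
    push Not at hcon
    have := mul_pos_of_neg_of_neg ht.2 hcon
    linarith
  have hc10 : c1 = 0 := le_antisymm key1 key2
  refine ⟨hc10, ?_⟩
  have ht : Tendsto (fun t : ℝ => (c2 + t * (c3 + t * (c4 + t * (c5 + t * c6)))))
      (𝓝[>] 0) (𝓝 c2) := by
    have hc : Continuous (fun t : ℝ => (c2 + t * (c3 + t * (c4 + t * (c5 + t * c6))))) := by
      fun_prop
    have := hc.tendsto 0
    simp only [zero_mul, add_zero] at this
    exact this.mono_left nhdsWithin_le_nhds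
  refine le_of_tendsto ht ?_
  have hmem : Set.Ioo (0 : ℝ) ε ∈ 𝓝[>] (0 : ℝ) := Ioo_mem_nhdsGT hε
  filter_upwards [hmem] with t ht
  have := hp t (by rw [abs_of_pos ht.1]; exact ht.2)
  rw [hc10, zero_add] at this
  by_contra hcon
  push Not at hcon
  have := mul_pos ht.1 (mul_pos ht.1 hcon)
  linarith

/-- red functional of the three first blocks -/
noncomputable def fA (ρ C u w z : ℝ) : ℝ := C + ρ * (u ^ 2 / 2 + (u + w) * z + z ^ 2 / 2) + u ^ 3 / 6 +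
  u ^ 2 / 2 * z + (u + w) * z ^ 2 / 2 + z ^ 3 / 6

/-- blue functional of the three first blocks -/
noncomputable def fB (σ C u w : ℝ) : ℝ := C + σ * (u * w + w ^ 2 / 2) + u * w ^ 2 / 2 + w ^ 3 / 6

lemma fA_expand (ρ C u w z η τ t : ℝ) :
    fA ρ C (u + (τ - η) * t) (w + η * t) (z - τ * t) =
      fA ρ C u w z + ((-u * (u + 2 * (ρ + z)) * η - 2 * w * (ρ + z) * τ) / 2) * t +
      ((w * τ ^ 2 - 2 * (ρ + z) * η * τ + (ρ + z + u) * η ^ 2) / 2) * t ^ 2 +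
      ((η * τ ^ 2 - η ^ 3 / 3) / 2) * t ^ 3 := by
  unfold fA; ring

lemma fB_expand (σ C u w η τ t : ℝ) :
    fB σ C (u + (τ - η) * t) (w + η * t) =
      fB σ C u w + ((τ * w * (w + 2 * σ) + 2 * u * (σ + w) * η) / 2) * t +
      (((u - (σ + w)) * η ^ 2 + 2 * (σ + w) * η * τ) / 2) * t ^ 2 +
      ((τ * η ^ 2 - 2 / 3 * η ^ 3) / 2) * t ^ 3 := by
  unfold fB; ring

lemma three (ρ σ C1 C2 X : ℝ) (hρ : 0 ≤ ρ) (hσ : 0 ≤ σ) (hC1 : 0 ≤ C1) (hC2 : 0 ≤ C2)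
    (u w z : ℝ) (hu : 0 ≤ u) (hw : 0 ≤ w) (hz : 0 ≤ z) (hX : u + w + z = X) :
    ∃ u' w' z' : ℝ, 0 ≤ u' ∧ 0 ≤ w' ∧ 0 ≤ z' ∧ u' + w' + z' = X ∧ (u' = 0 ∨ w' = 0 ∨ z' = 0) ∧
      fA ρ C1 u w z * fB σ C2 u w ≤ fA ρ C1 u' w' z' * fB σ C2 u' w' := by
  set D : Set (ℝ × ℝ) := {p | 0 ≤ p.1 ∧ 0 ≤ p.2 ∧ p.1 + p.2 ≤ X} with hD
  have hDc : IsCompact D := by
    have hclosed : IsClosed D := by
      have h1 : IsClosed {p : ℝ × ℝ | 0 ≤ p.1} := isClosed_le continuous_const continuous_fst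
      have h2 : IsClosed {p : ℝ × ℝ | 0 ≤ p.2} := isClosed_le continuous_const continuous_snd
      have h3 : IsClosed {p : ℝ × ℝ | p.1 + p.2 ≤ X} :=
        isClosed_le (continuous_fst.add continuous_snd) continuous_const
      exact h1.inter (h2.inter h3)
    apply IsCompact.of_isClosed_subset (isCompact_Icc (a := ((0 : ℝ), (0 : ℝ))) (b := (X, X))) hclosed
    intro p hp
    obtain ⟨h1, h2, h3⟩ := hp
    constructor
    · exact ⟨h1, h2⟩
    · exact ⟨by show p.1 ≤ X; linarith, by show p.2 ≤ X; linarith⟩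
  have hDne : D.Nonempty := ⟨(u, w), hu, hw, by simp only; linarith⟩
  have hcont : ContinuousOn (fun p : ℝ × ℝ => fA ρ C1 p.1 p.2 (X - p.1 - p.2) * fB σ C2 p.1 p.2) D := by
    apply Continuous.continuousOn
    unfold fA fB
    fun_prop
  obtain ⟨⟨u0, w0⟩, ⟨hu0, hw0, hs0⟩, hmax⟩ := hDc.exists_isMaxOn hDne hcont
  simp only at hu0 hw0 hs0
  have hle : fA ρ C1 u w z * fB σ C2 u w ≤
      fA ρ C1 u0 w0 (X - u0 - w0) * fB σ C2 u0 w0 := by
    have := hmax (show (u, w) ∈ D from ⟨hu, hw, by simp only; linarith⟩)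
    simp only [Set.mem_ofPred_eq] at this
    have hz' : X - u - w = z := by linarith
    rw [hz'] at this
    exact this
  refine ⟨u0, w0, X - u0 - w0, hu0, hw0, by linarith, by ring, ?_, hle⟩
  by_contra hcon
  push Not at hcon
  obtain ⟨hu1, hw1, hz1⟩ := hcon
  have hup : 0 < u0 := lt_of_le_of_ne hu0 (Ne.symm hu1)
  have hwp : 0 < w0 := lt_of_le_of_ne hw0 (Ne.symm hw1)
  have hzp : 0 < X - u0 - w0 := lt_of_le_of_ne (by linarith) (Ne.symm hz1)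
  set z0 := X - u0 - w0 with hz0
  have hdir : ∀ η τ : ℝ, ∃ ε > 0, ∀ t : ℝ, |t| < ε →
      fA ρ C1 (u0 + (τ - η) * t) (w0 + η * t) (z0 - τ * t) *
        fB σ C2 (u0 + (τ - η) * t) (w0 + η * t) ≤ fA ρ C1 u0 w0 z0 * fB σ C2 u0 w0 := by
    intro η τ
    have hM : 0 < |η| + |τ| + 1 := by positivity
    refine ⟨min u0 (min w0 z0) / (|η| + |τ| + 1), by positivity, ?_⟩
    intro t ht
    rw [lt_div_iff₀ hM] at ht
    have hb : ∀ s : ℝ, |s| ≤ |η| + |τ| + 1 → |s * t| ≤ min u0 (min w0 z0) := by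
      intro s hs
      rw [abs_mul]
      calc |s| * |t| ≤ (|η| + |τ| + 1) * |t| := by gcongr
        _ ≤ _ := by rw [mul_comm]; exact ht.le
    have h1 := hb (τ - η) (by
      calc |τ - η| ≤ |τ| + |η| := abs_sub _ _
        _ ≤ _ := by linarith)
    have h2 := hb η (by linarith [abs_nonneg τ])
    have h3 := hb τ (by linarith [abs_nonneg η])
    have m1 : min u0 (min w0 z0) ≤ u0 := min_le_left _ _
    have m2 : min u0 (min w0 z0) ≤ w0 := (min_le_right _ _).trans (min_le_left _ _)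
    have m3 : min u0 (min w0 z0) ≤ z0 := (min_le_right _ _).trans (min_le_right _ _)
    have a1 := (abs_le.1 h1).1
    have a2 := (abs_le.1 h2).1
    have a3 := (abs_le.1 h3).2
    have hmem : (u0 + (τ - η) * t, w0 + η * t) ∈ D := by
      refine ⟨by simp only; linarith, by simp only; linarith, ?_⟩
      simp only
      have : u0 + (τ - η) * t + (w0 + η * t) = X - z0 + τ * t := by rw [hz0]; ring
      rw [this]; linarith
    have := hmax hmem
    simp only [Set.mem_ofPred_eq] at this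
    have hz' : X - (u0 + (τ - η) * t) - (w0 + η * t) = z0 - τ * t := by rw [hz0]; ring
    rw [hz'] at this
    exact this
  have hpoly : ∀ η τ : ℝ,
      fA ρ C1 u0 w0 z0 * ((τ * w0 * (w0 + 2 * σ) + 2 * u0 * (σ + w0) * η) / 2) +
        ((-u0 * (u0 + 2 * (ρ + z0)) * η - 2 * w0 * (ρ + z0) * τ) / 2) * fB σ C2 u0 w0 = 0 ∧
      fA ρ C1 u0 w0 z0 * (((u0 - (σ + w0)) * η ^ 2 + 2 * (σ + w0) * η * τ) / 2) +
        ((-u0 * (u0 + 2 * (ρ + z0)) * η - 2 * w0 * (ρ + z0) * τ) / 2) *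
          ((τ * w0 * (w0 + 2 * σ) + 2 * u0 * (σ + w0) * η) / 2) +
        ((w0 * τ ^ 2 - 2 * (ρ + z0) * η * τ + (ρ + z0 + u0) * η ^ 2) / 2) * fB σ C2 u0 w0 ≤ 0 := by
    intro η τ
    obtain ⟨ε, hε, h⟩ := hdir η τ
    apply poly_max _ _ _ ((η * τ ^ 2 - η ^ 3 / 3) / 2) _ _ _ ((τ * η ^ 2 - 2 / 3 * η ^ 3) / 2) ε hε
    intro t ht
    rw [← fA_expand, ← fB_expand]
    exact h t ht
  have hA0 : 0 < fA ρ C1 u0 w0 z0 := by unfold fA; positivity
  have hB0 : 0 < fB σ C2 u0 w0 := by unfold fB; positivity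
  have e1 := (hpoly 1 0).1
  have e2 := (hpoly 0 1).1
  have e3 := (hpoly (-(w0 + 2 * σ)) (u0 + 2 * (ρ + z0))).2
  set A0 := fA ρ C1 u0 w0 z0 with hA0d
  set B0 := fB σ C2 u0 w0 with hB0d
  set R := ρ + z0 with hR
  have hRp : 0 < R := by rw [hR]; linarith
  have f1 : 2 * A0 * (σ + w0) = B0 * (u0 + 2 * R) := by
    have : u0 * (2 * A0 * (σ + w0) - B0 * (u0 + 2 * R)) = 0 := by linear_combination 2 * e1
    rcases mul_eq_zero.1 this with h | h
    · exact absurd h hup.ne'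
    · linarith
  have f2 : A0 * (w0 + 2 * σ) = 2 * B0 * R := by
    have : w0 * (A0 * (w0 + 2 * σ) - 2 * B0 * R) = 0 := by linear_combination 2 * e2
    rcases mul_eq_zero.1 this with h | h
    · exact absurd h hwp.ne'
    · linarith
  have f3 : 2 * R * w0 = u0 * (w0 + 2 * σ) := by
    have : B0 * (2 * R * w0 - u0 * (w0 + 2 * σ)) = 0 := by
      linear_combination (w0 + 2 * σ) * f1 - 2 * (σ + w0) * f2
    rcases mul_eq_zero.1 this with h | h
    · exact absurd h hB0.ne'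
    · linarith
  have hws : 0 < w0 + 2 * σ := by linarith
  have f4 : A0 * w0 = B0 * u0 := by
    have : (w0 + 2 * σ) * (A0 * w0 - B0 * u0) = 0 := by
      linear_combination w0 * f2 + B0 * f3
    rcases mul_eq_zero.1 this with h | h
    · exact absurd h hws.ne'
    · linarith
  have f5 : 0 < (u0 * w0 / 2 + u0 ^ 2) * (w0 + 2 * σ) ^ 2 - u0 * w0 * (w0 + 2 * σ) * (u0 + 2 * R) +
      w0 ^ 2 * (u0 + 2 * R) ^ 2 := by
    have : (u0 * w0 / 2 + u0 ^ 2) * (w0 + 2 * σ) ^ 2 - u0 * w0 * (w0 + 2 * σ) * (u0 + 2 * R) +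
      w0 ^ 2 * (u0 + 2 * R) ^ 2 = (u0 * w0 / 2 + 3 / 4 * u0 ^ 2) * (w0 + 2 * σ) ^ 2 +
      (w0 * (u0 + 2 * R) - u0 * (w0 + 2 * σ) / 2) ^ 2 := by ring
    rw [this]; positivity
  have f6 : w0 * (A0 * (((u0 - (σ + w0)) * (-(w0 + 2 * σ)) ^ 2 +
        2 * (σ + w0) * -(w0 + 2 * σ) * (u0 + 2 * R)) / 2) +
        ((-u0 * (u0 + 2 * R) * -(w0 + 2 * σ) - 2 * w0 * R * (u0 + 2 * R)) / 2) *
          (((u0 + 2 * R) * w0 * (w0 + 2 * σ) + 2 * u0 * (σ + w0) * -(w0 + 2 * σ)) / 2) +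
        ((w0 * (u0 + 2 * R) ^ 2 - 2 * R * -(w0 + 2 * σ) * (u0 + 2 * R) +
          (R + u0) * (-(w0 + 2 * σ)) ^ 2) / 2) * B0) =
      B0 / 2 * ((u0 * w0 / 2 + u0 ^ 2) * (w0 + 2 * σ) ^ 2 -
        u0 * w0 * (w0 + 2 * σ) * (u0 + 2 * R) + w0 ^ 2 * (u0 + 2 * R) ^ 2) := by
    have g1 : (-u0 * (u0 + 2 * R) * -(w0 + 2 * σ) - 2 * w0 * R * (u0 + 2 * R)) = 0 := by
      linear_combination -(u0 + 2 * R) * f3
    rw [g1]
    linear_combination ((u0 - (σ + w0)) * (w0 + 2 * σ) ^ 2 / 2 -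
      (σ + w0) * (w0 + 2 * σ) * (u0 + 2 * R)) * f4 + B0 * ((w0 + 2 * σ) * (u0 + 2 * R) / 2 +
        (w0 + 2 * σ) ^ 2 / 4) * f3
  have f7 : 0 < B0 / 2 * ((u0 * w0 / 2 + u0 ^ 2) * (w0 + 2 * σ) ^ 2 -
        u0 * w0 * (w0 + 2 * σ) * (u0 + 2 * R) + w0 ^ 2 * (u0 + 2 * R) ^ 2) := by positivity
  rw [← f6] at f7
  have := mul_nonneg hwp.le (neg_nonneg.2 e3)
  linarith

end Pool.Agent.H616R3.Opt
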