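import Mathlib
import Pool.Agent.H616R3.Opt

set_option autoImplicit false

/-! Block sequences and the reduction to two blocks. -/

namespace Pool.Agent.H616R3.Opt

lemma bool_eq_not {a b : Bool} (h : a ≠ b) : a = !b := by
  revert h; revert a b; decide

/-- state: total length, edge masses and triangle masses of the two colours -/
structure St where
  X : ℝ
  e : Bool → ℝ
  a : Bool → ℝ

/-- add a block of colour `b` and length `L` -/
noncomputable def St.step (s : St) (b : Bool) (L : ℝ) : St where
  X := s.X + L
  e := fun c => if c = b then s.e c + s.X * L + L ^ 2 / 2 else s.e c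
  a := fun c => if c = b then s.a c + s.e c * L + s.X * L ^ 2 / 2 + L ^ 3 / 6 else s.a c

/-- run through a list of blocks -/
noncomputable def run (s : St) (l : List (Bool × ℝ)) : St :=
  l.foldl (fun s p => s.step p.1 p.2) s

/-- empty state -/
def St.zero : St := ⟨0, fun _ => 0, fun _ => 0⟩

lemma run_cons (s : St) (p : Bool × ℝ) (l : List (Bool × ℝ)) :
    run s (p :: l) = run (s.step p.1 p.2) l := rfl

lemma step_zero (s : St) (b : Bool) : s.step b 0 = s := by
  unfold St.step
  cases s
  simp

lemma step_step (s : St) (b : Bool) (L M : ℝ) : (s.step b L).step b M = s.step b (L + M) := by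
  unfold St.step
  simp only [St.mk.injEq]
  refine ⟨by ring, ?_, ?_⟩
  · funext c
    by_cases h : c = b
    · simp only [h, if_true]; ring
    · simp only [h, if_false]
  · funext c
    by_cases h : c = b
    · simp only [h, if_true]; ring
    · simp only [h, if_false]

lemma run_X (s : St) (l : List (Bool × ℝ)) : (run s l).X = s.X + (l.map Prod.snd).sum := by
  induction l generalizing s with
  | nil => simp [run]
  | cons p l ih =>
    rw [run_cons, ih, List.map_cons, List.sum_cons]
    simp only [St.step]; ring

lemma run_affine (l : List (Bool × ℝ)) (hl : ∀ p ∈ l, 0 ≤ p.2) (c : Bool) (X : ℝ) (hX : 0 ≤ X) :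
    ∃ ρ C : ℝ, 0 ≤ ρ ∧ 0 ≤ C ∧ ∀ s : St, s.X = X → (run s l).a c = s.a c + ρ * s.e c + C := by
  induction l generalizing X with
  | nil => exact ⟨0, 0, le_rfl, le_rfl, fun s _ => by simp [run]⟩
  | cons p l ih =>
    have hp : 0 ≤ p.2 := hl p (by simp)
    obtain ⟨ρ, C, hρ, hC, h⟩ := ih (fun q hq => hl q (by simp [hq])) (X + p.2) (by linarith)
    by_cases hc : c = p.1
    · refine ⟨ρ + p.2, C + X * p.2 ^ 2 / 2 + p.2 ^ 3 / 6 + ρ * (X * p.2 + p.2 ^ 2 / 2),
        by linarith, by positivity, ?_⟩
      intro s hs
      rw [run_cons, h (s.step p.1 p.2) (by simp only [St.step]; rw [hs])]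
      simp only [St.step, hc, if_true, hs]
      ring
    · refine ⟨ρ, C, hρ, hC, ?_⟩
      intro s hs
      rw [run_cons, h (s.step p.1 p.2) (by simp only [St.step]; rw [hs])]
      simp only [St.step, hc, if_false]

/-- the constant of the problem -/
noncomputable def Γ : ℝ :=
  sSup ((fun α : ℝ => α ^ 3 * (1 - α) ^ 3 + 3 * α ^ 4 * (1 - α) ^ 2) '' Set.Icc (0 : ℝ) 1)

lemma Γ_ge (α : ℝ) (h0 : 0 ≤ α) (h1 : α ≤ 1) :
    α ^ 3 * (1 - α) ^ 3 + 3 * α ^ 4 * (1 - α) ^ 2 ≤ Γ := by
  apply le_csSup
  · apply IsCompact.bddAbove
    apply isCompact_Icc.image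
    fun_prop
  · exact ⟨α, ⟨h0, h1⟩, rfl⟩

lemma Γ_nonneg : 0 ≤ Γ := by
  have := Γ_ge 0 le_rfl zero_le_one
  simpa using this

lemma two_blocks (u w : ℝ) (hu : 0 ≤ u) (hw : 0 ≤ w) :
    u ^ 3 * w ^ 2 * (3 * u + w) ≤ Γ * (u + w) ^ 6 := by
  rcases eq_or_lt_of_le (add_nonneg hu hw) with h | h
  · have hu0 : u = 0 := by linarith
    have hw0 : w = 0 := by linarith
    subst hu0; subst hw0; simp
  · have h1 := Γ_ge (u / (u + w)) (by positivity) (by rw [div_le_one h]; linarith)
    have h2 : 1 - u / (u + w) = w / (u + w) := by field_simp; ring
    rw [h2] at h1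
    have h3 : (u / (u + w)) ^ 3 * (w / (u + w)) ^ 3 + 3 * (u / (u + w)) ^ 4 * (w / (u + w)) ^ 2 =
      (u ^ 3 * w ^ 2 * (3 * u + w)) / (u + w) ^ 6 := by
      field_simp; ring
    rw [h3, div_le_iff₀ (by positivity)] at h1
    exact h1

lemma three_step (u w z : ℝ) (b : Bool) (X : ℝ) (hX : u + w + z = X) :
    let s := ((St.zero.step b u).step (!b) w).step b z
    s.X = X ∧ (∀ ρ C, s.a b + ρ * s.e b + C = fA ρ C u w z) ∧
      (∀ σ C, s.a (!b) + σ * s.e (!b) + C = fB σ C u w) := by
  have hb : (!b) ≠ b := by cases b <;> simp
  have hb' : b ≠ (!b) := hb.symm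
  refine ⟨?_, ?_, ?_⟩
  · simp only [St.step, St.zero]; linarith
  · intro ρ C
    simp only [St.step, St.zero, hb', if_true, if_false, fA]
    ring
  · intro σ C
    simp only [St.step, St.zero, hb, if_true, if_false, fB]
    ring

/-- the optimisation theorem -/
theorem opt (n : ℕ) : ∀ l : List (Bool × ℝ), l.length = n → (∀ p ∈ l, 0 ≤ p.2) → ∀ b : Bool,
    36 * ((run St.zero l).a b * (run St.zero l).a (!b)) ≤ Γ * ((l.map Prod.snd).sum) ^ 6 := by
  induction n using Nat.strong_induction_on with
  | _ n ih =>
    intro l hn hl b
    match l, hn, hl with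
    | [], _, _ => simp [run, St.zero]
    | [p], _, hl =>
      have hp : 0 ≤ p.2 := hl p (by simp)
      have h0 : (run St.zero [p]).a b * (run St.zero [p]).a (!b) = 0 := by
        rw [run_cons]
        simp only [run, List.foldl_nil, St.step, St.zero]
        by_cases h : b = p.1
        · have : (!b) ≠ p.1 := by rw [← h]; cases b <;> simp
          simp [this]
        · simp [h]
      rw [h0]
      have := Γ_nonneg
      simp only [List.map_cons, List.map_nil, List.sum_cons, List.sum_nil, add_zero, mul_zero]
      positivity
    | [p, q], _, hl =>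
      have hp : 0 ≤ p.2 := hl p (by simp)
      have hq : 0 ≤ q.2 := hl q (by simp)
      have hΓ := Γ_nonneg
      simp only [List.map_cons, List.map_nil, List.sum_cons, List.sum_nil, add_zero]
      by_cases hpq : q.1 = p.1
      · have h0 : (run St.zero [p, q]).a b * (run St.zero [p, q]).a (!b) = 0 := by
          rw [run_cons, run_cons]
          simp only [run, List.foldl_nil, St.step, St.zero, hpq]
          by_cases h : b = p.1
          · have : (!b) ≠ p.1 := by rw [← h]; cases b <;> simp
            simp [this]
          · simp [h]
        rw [h0, mul_zero]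
        positivity
      · have hq1 : q.1 = !p.1 := bool_eq_not hpq
        have hprod : (run St.zero [p, q]).a b * (run St.zero [p, q]).a (!b) =
            (run St.zero [p, q]).a p.1 * (run St.zero [p, q]).a (!p.1) := by
          by_cases h : b = p.1
          · rw [h]
          · have : b = !p.1 := bool_eq_not h
            rw [this, Bool.not_not, mul_comm]
        rw [hprod]
        have hne : (!p.1) ≠ p.1 := by cases p.1 <;> simp
        have hne' : p.1 ≠ (!p.1) := hne.symm
        have e1 : (run St.zero [p, q]).a p.1 = p.2 ^ 3 / 6 := by
          rw [run_cons, run_cons]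
          simp only [run, List.foldl_nil, St.step, St.zero, hq1, hne', if_true, if_false]
          ring
        have e2 : (run St.zero [p, q]).a (!p.1) = p.2 * q.2 ^ 2 / 2 + q.2 ^ 3 / 6 := by
          rw [run_cons, run_cons]
          simp only [run, List.foldl_nil, St.step, St.zero, hq1, hne, if_true, if_false]
          ring
        rw [e1, e2]
        have := two_blocks p.2 q.2 hp hq
        calc _ = p.2 ^ 3 * q.2 ^ 2 * (3 * p.2 + q.2) := by ring
          _ ≤ _ := this
    | p :: q :: r :: rest, hn, hl =>
      have hp : 0 ≤ p.2 := hl p (by simp)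
      have hq : 0 ≤ q.2 := hl q (by simp)
      have hr : 0 ≤ r.2 := hl r (by simp)
      have hrest : ∀ x ∈ rest, 0 ≤ x.2 := fun x hx => hl x (by simp [hx])
      simp only [List.length_cons] at hn
      by_cases hpq : q.1 = p.1
      · have e : run St.zero (p :: q :: r :: rest) = run St.zero ((p.1, p.2 + q.2) :: r :: rest) := by
          rw [run_cons, run_cons, hpq, step_step, ← run_cons St.zero (p.1, p.2 + q.2)]
        rw [e]
        have := ih (rest.length + 2) (by omega) ((p.1, p.2 + q.2) :: r :: rest) (by simp) (by
          intro x hx
          simp only [List.mem_cons] at hx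
          rcases hx with rfl | rfl | hx
          · exact add_nonneg hp hq
          · exact hr
          · exact hrest x hx) b
        refine this.trans (le_of_eq ?_)
        simp only [List.map_cons, List.sum_cons]
        ring
      by_cases hqr : r.1 = q.1
      · have e : run St.zero (p :: q :: r :: rest) = run St.zero (p :: (q.1, q.2 + r.2) :: rest) := by
          rw [run_cons, run_cons, run_cons, hqr, step_step, run_cons, ← run_cons _ (q.1, q.2 + r.2)]
        rw [e]
        have := ih (rest.length + 2) (by omega) (p :: (q.1, q.2 + r.2) :: rest) (by simp) (by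
          intro x hx
          simp only [List.mem_cons] at hx
          rcases hx with rfl | rfl | hx
          · exact hp
          · exact add_nonneg hq hr
          · exact hrest x hx) b
        refine this.trans (le_of_eq ?_)
        simp only [List.map_cons, List.sum_cons]
        ring
      -- alternating
      have hq1 : q.1 = !p.1 := bool_eq_not hpq
      have hr1 : r.1 = p.1 := by
        have := bool_eq_not hqr
        rw [hq1, Bool.not_not] at this
        exact this
      set c := p.1 with hc
      have hprod : ∀ l' : List (Bool × ℝ), (run St.zero l').a b * (run St.zero l').a (!b) =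
          (run St.zero l').a c * (run St.zero l').a (!c) := by
        intro l'
        by_cases h : b = c
        · rw [h]
        · have : b = !c := bool_eq_not h
          rw [this, Bool.not_not, mul_comm]
      rw [hprod]
      obtain ⟨ρ, C1, hρ, hC1, h1⟩ := run_affine rest hrest c (p.2 + q.2 + r.2) (by positivity)
      obtain ⟨σ, C2, hσ, hC2, h2⟩ := run_affine rest hrest (!c) (p.2 + q.2 + r.2) (by positivity)
      have hval : ∀ u w z : ℝ, u + w + z = p.2 + q.2 + r.2 →
          (run St.zero ((c, u) :: (!c, w) :: (c, z) :: rest)).a c *
            (run St.zero ((c, u) :: (!c, w) :: (c, z) :: rest)).a (!c) =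
            fA ρ C1 u w z * fB σ C2 u w := by
        intro u w z hX
        obtain ⟨g1, g2, g3⟩ := three_step u w z c _ hX
        rw [run_cons, run_cons, run_cons]
        simp only
        rw [h1 _ g1, h2 _ g1, g2, g3]
      have hlist : p :: q :: r :: rest = (c, p.2) :: (!c, q.2) :: (c, r.2) :: rest := by
        calc p :: q :: r :: rest = (p.1, p.2) :: (q.1, q.2) :: (r.1, r.2) :: rest := rfl
          _ = _ := by rw [hq1, hr1]
      rw [hlist, hval p.2 q.2 r.2 rfl]
      obtain ⟨u', w', z', hu', hw', hz', hsum', hzero, hle⟩ :=
        three ρ σ C1 C2 _ hρ hσ hC1 hC2 p.2 q.2 r.2 hp hq hr rfl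
      have hmain : 36 * (fA ρ C1 u' w' z' * fB σ C2 u' w') ≤
          Γ * (u' + w' + z' + (rest.map Prod.snd).sum) ^ 6 := by
        rw [← hval u' w' z' hsum']
        rcases hzero with h0 | h0 | h0
        · subst h0
          have e : run St.zero ((c, 0) :: (!c, w') :: (c, z') :: rest) =
              run St.zero ((!c, w') :: (c, z') :: rest) := by
            rw [run_cons, step_zero]
          rw [e]
          have := ih (rest.length + 2) (by omega) ((!c, w') :: (c, z') :: rest) (by simp) (by
            intro x hx
            simp only [List.mem_cons] at hx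
            rcases hx with rfl | rfl | hx
            · exact hw'
            · exact hz'
            · exact hrest x hx) c
          refine this.trans (le_of_eq ?_)
          simp only [List.map_cons, List.sum_cons]
          ring
        · subst h0
          have e : run St.zero ((c, u') :: (!c, 0) :: (c, z') :: rest) =
              run St.zero ((c, u') :: (c, z') :: rest) := by
            rw [run_cons, run_cons, step_zero, ← run_cons St.zero (c, u')]
          rw [e]
          have := ih (rest.length + 2) (by omega) ((c, u') :: (c, z') :: rest) (by simp) (by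
            intro x hx
            simp only [List.mem_cons] at hx
            rcases hx with rfl | rfl | hx
            · exact hu'
            · exact hz'
            · exact hrest x hx) c
          refine this.trans (le_of_eq ?_)
          simp only [List.map_cons, List.sum_cons]
          ring
        · subst h0
          have e : run St.zero ((c, u') :: (!c, w') :: (c, 0) :: rest) =
              run St.zero ((c, u') :: (!c, w') :: rest) := by
            rw [run_cons, run_cons, run_cons, step_zero, run_cons, run_cons]
          rw [e]
          have := ih (rest.length + 2) (by omega) ((c, u') :: (!c, w') :: rest) (by simp) (by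
            intro x hx
            simp only [List.mem_cons] at hx
            rcases hx with rfl | rfl | hx
            · exact hu'
            · exact hw'
            · exact hrest x hx) c
          refine this.trans (le_of_eq ?_)
          simp only [List.map_cons, List.sum_cons]
          ring
      calc 36 * (fA ρ C1 p.2 q.2 r.2 * fB σ C2 p.2 q.2) ≤
          36 * (fA ρ C1 u' w' z' * fB σ C2 u' w') := by linarith
        _ ≤ _ := hmain
        _ = _ := by
          rw [hsum']
          simp only [List.map_cons, List.sum_cons]
          ring

end Pool.Agent.H616R3.Opt
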