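import Mathlib

set_option autoImplicit false
open Filter

namespace Pool.Agent.H616R3.Canon

/-- exactly two colours on a triple: some equality holds, but not all of them -/
def Two (p q r : Prop) : Prop := (p ∨ q ∨ r) ∧ ¬ (p ∧ q)

abbrev V := ℕ →₀ ℝ

/-- sum of squares of the coordinates -/
noncomputable def nsq (d : V) : ℝ := d.sum (fun _ x => x ^ 2)

lemma nsq_add_single (d : V) (n : ℕ) (a : ℝ) (h : n ∉ d.support) :
    nsq (d + Finsupp.single n a) = nsq d + a ^ 2 := by
  classical
  unfold nsq
  rw [Finsupp.sum_add_index_of_disjoint]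
  · rw [Finsupp.sum_single_index]; norm_num
  · rw [Finset.disjoint_left]
    intro m hm hm'
    have := Finsupp.support_single_subset hm'
    rw [Finset.mem_singleton] at this
    subst this
    exact h hm

lemma nsq_zero : nsq 0 = 0 := by simp [nsq]

/-- an equivalence relation in which every configuration `u, v, w` with `v` the midpoint of
`u, w` and `‖v - u‖² = κ` has exactly two classes -/
structure Good (κ : ℝ) (E : V → V → Prop) : Prop where
  refl : ∀ u, E u u
  symm : ∀ u v, E u v → E v u
  trans : ∀ u v w, E u v → E v w → E u w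
  two : ∀ u v w, u + w = v + v → nsq (v - u) = κ → Two (E u v) (E v w) (E u w)

/-- iterated ultrafilter limit: `x`, `y` are placed on generic fresh coordinates -/
def R (E : V → V → Prop) (U : Ultrafilter ℕ) : List ℝ → List ℝ → V → V → Prop
  | [], [], u, v => E u v
  | (a :: x), (b :: y), u, v =>
      ∀ᶠ n in (U : Filter ℕ), R E U x y (u + Finsupp.single n a) (v + Finsupp.single n b)
  | [], (_ :: _), _, _ => False
  | (_ :: _), [], _, _ => False

variable {κ : ℝ} {E : V → V → Prop} {U : Ultrafilter ℕ}

lemma R_refl (hE : Good κ E) : ∀ (x : List ℝ) (u : V), R E U x x u u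
  | [], u => hE.refl u
  | (a :: x), u => by
      simp only [R]
      exact Eventually.of_forall (fun n => R_refl hE x _)

lemma R_symm (hE : Good κ E) : ∀ (x y : List ℝ) (u v : V), R E U x y u v → R E U y x v u
  | [], [], u, v, h => hE.symm _ _ h
  | (a :: x), (b :: y), u, v, h => by
      simp only [R] at h ⊢
      exact h.mono (fun n hn => R_symm hE x y _ _ hn)
  | [], (_ :: _), _, _, h => by simp [R] at h
  | (_ :: _), [], _, _, h => by simp [R] at h

lemma R_trans (hE : Good κ E) : ∀ (x y z : List ℝ) (u v w : V),
    R E U x y u v → R E U y z v w → R E U x z u w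
  | [], [], [], u, v, w, h, h' => hE.trans _ _ _ h h'
  | (a :: x), (b :: y), (c :: z), u, v, w, h, h' => by
      simp only [R] at h h' ⊢
      exact (h.and h').mono (fun n hn => R_trans hE x y z _ _ _ hn.1 hn.2)
  | [], (_ :: _), _, _, _, _, h, _ => by simp [R] at h
  | (_ :: _), [], _, _, _, _, h, _ => by simp [R] at h
  | [], [], (_ :: _), _, _, _, _, h => by simp [R] at h
  | (_ :: _), (_ :: _), [], _, _, _, _, h => by simp [R] at h

lemma R_insert : ∀ (l m x y : List ℝ) (u v : V), l.length = m.length →
    (R E U (l ++ 0 :: x) (m ++ 0 :: y) u v ↔ R E U (l ++ x) (m ++ y) u v)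
  | [], [], x, y, u, v, _ => by
      simp [R]
  | (a :: l), (b :: m), x, y, u, v, h => by
      simp only [List.cons_append, R]
      have hl : l.length = m.length := by simpa using h
      exact eventually_congr (Eventually.of_forall (fun n => R_insert l m x y _ _ hl))
  | [], (_ :: _), _, _, _, _, h => by simp at h
  | (_ :: _), [], _, _, _, _, h => by simp at h

/-- `x, y, z` have the same length, `y` is the midpoint of `x, z`, and `‖y - x‖² = s` -/
def Mid : List ℝ → List ℝ → List ℝ → ℝ → Prop
  | [], [], [], s => s = 0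
  | (a :: x), (b :: y), (c :: z), s => a + c = b + b ∧ Mid x y z (s - (b - a) ^ 2)
  | _, _, _, _ => False

lemma Two_eventually {p q r : ℕ → Prop} (h : ∀ᶠ n in (U : Filter ℕ), Two (p n) (q n) (r n)) :
    Two (∀ᶠ n in (U : Filter ℕ), p n) (∀ᶠ n in (U : Filter ℕ), q n)
      (∀ᶠ n in (U : Filter ℕ), r n) := by
  constructor
  · have h1 : ∀ᶠ n in (U : Filter ℕ), (p n ∨ (q n ∨ r n)) := h.mono (fun n hn => hn.1)
    rw [Ultrafilter.eventually_or, Ultrafilter.eventually_or] at h1
    exact h1
  · rintro ⟨hp, hq⟩
    have h2 : ∀ᶠ n in (U : Filter ℕ), False :=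
      (h.and (hp.and hq)).mono (fun n hn => hn.1.2 hn.2)
    obtain ⟨_, h3⟩ := h2.exists
    exact h3

lemma R_two (hE : Good κ E) (hU : (U : Filter ℕ) ≤ cofinite) :
    ∀ (x y z : List ℝ) (s : ℝ) (u v w : V), Mid x y z s → u + w = v + v →
      nsq (v - u) + s = κ → Two (R E U x y u v) (R E U y z v w) (R E U x z u w)
  | [], [], [], s, u, v, w, hm, h1, h2 => by
      simp only [Mid] at hm
      subst hm
      simp only [R]
      exact hE.two u v w h1 (by simpa using h2)
  | (a :: x), (b :: y), (c :: z), s, u, v, w, hm, h1, h2 => by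
      simp only [Mid] at hm
      simp only [R]
      apply Two_eventually
      have hfin : ∀ᶠ n in (U : Filter ℕ), n ∉ (v - u).support := by
        apply hU
        rw [mem_cofinite]
        exact ((v - u).support.finite_toSet).subset (by intro n hn; simpa using hn)
      refine hfin.mono (fun n hn => ?_)
      refine R_two hE hU x y z (s - (b - a) ^ 2) _ _ _ hm.2 ?_ ?_
      · have : u + Finsupp.single n a + (w + Finsupp.single n c)
            = (u + w) + (Finsupp.single n (a + c)) := by
          rw [Finsupp.single_add]; abel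
        rw [this, h1, hm.1, Finsupp.single_add]; abel
      · have h3 : v + Finsupp.single n b - (u + Finsupp.single n a)
            = (v - u) + Finsupp.single n (b - a) := by
          rw [Finsupp.single_sub]; abel
        rw [h3, nsq_add_single _ _ _ hn]
        linarith
  | [], [], (_ :: _), _, _, _, _, hm, _, _ => by simp [Mid] at hm
  | [], (_ :: _), _, _, _, _, _, hm, _, _ => by simp [Mid] at hm
  | (_ :: _), [], _, _, _, _, _, hm, _, _ => by simp [Mid] at hm
  | (_ :: _), (_ :: _), [], _, _, _, _, hm, _, _ => by simp [Mid] at hm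

lemma Mid_append : ∀ (x y z x' y' z' : List ℝ) (s s' : ℝ), Mid x y z s → Mid x' y' z' s' →
    Mid (x ++ x') (y ++ y') (z ++ z') (s + s')
  | [], [], [], x', y', z', s, s', h, h' => by
      simp only [Mid] at h
      subst h
      simpa using h'
  | (a :: x), (b :: y), (c :: z), x', y', z', s, s', h, h' => by
      simp only [Mid, List.cons_append] at h ⊢
      refine ⟨h.1, ?_⟩
      have := Mid_append x y z x' y' z' _ s' h.2 h'
      have e : s - (b - a) ^ 2 + s' = s + s' - (b - a) ^ 2 := by ring
      rwa [e] at this
  | [], [], (_ :: _), _, _, _, _, _, h, _ => by simp [Mid] at h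
  | [], (_ :: _), _, _, _, _, _, _, h, _ => by simp [Mid] at h
  | (_ :: _), [], _, _, _, _, _, _, h, _ => by simp [Mid] at h
  | (_ :: _), (_ :: _), [], _, _, _, _, _, h, _ => by simp [Mid] at h

end Pool.Agent.H616R3.Canon
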