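import Mathlib
import Pool.Agent.H616R3.Canon1

set_option autoImplicit false
open Filter

namespace Pool.Agent.H616R3.Canon

/-- a list of cell states written out as coordinates: state `t` becomes `(1-t, t)` -/
def vec (z : List ℝ) : List ℝ := z.flatMap (fun t => [1 - t, t])

lemma vec_append (x y : List ℝ) : vec (x ++ y) = vec x ++ vec y := by
  simp [vec]

lemma vec_cons (t : ℝ) (y : List ℝ) : vec (t :: y) = (1 - t) :: t :: vec y := by
  simp [vec]

lemma vec_length (x : List ℝ) : (vec x).length = 2 * x.length := by
  induction x with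
  | nil => simp [vec]
  | cons a x ih => rw [vec_cons]; simp only [List.length_cons, ih]; ring

lemma Mid_vec : ∀ (x y z : List ℝ) (s : ℝ), Mid x y z s → Mid (vec x) (vec y) (vec z) (2 * s)
  | [], [], [], s, h => by
      simp only [Mid] at h
      subst h
      simp [vec, Mid]
  | (a :: x), (b :: y), (c :: z), s, h => by
      simp only [Mid] at h
      simp only [vec_cons, Mid]
      refine ⟨by linarith [h.1], h.1, ?_⟩
      have := Mid_vec x y z _ h.2
      have e : 2 * (s - (b - a) ^ 2) = 2 * s - (1 - b - (1 - a)) ^ 2 - (b - a) ^ 2 := by ring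
      rwa [e] at this
  | [], [], (_ :: _), _, h => by simp [Mid] at h
  | [], (_ :: _), _, _, h => by simp [Mid] at h
  | (_ :: _), [], _, _, h => by simp [Mid] at h
  | (_ :: _), (_ :: _), [], _, h => by simp [Mid] at h

section
variable (E : V → V → Prop) (U : Ultrafilter ℕ)

/-- the relation on lists of cell states -/
def F (z w : List ℝ) : Prop := R E U (vec z) (vec w) 0 0

variable {E U}
variable (hE : Good 12 E)
include hE

lemma F_refl (z : List ℝ) : F E U z z := R_refl hE _ _
lemma F_symm {z w : List ℝ} (h : F E U z w) : F E U w z := R_symm hE _ _ _ _ h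
lemma F_trans {z w v : List ℝ} (h : F E U z w) (h' : F E U w v) : F E U z v :=
  R_trans hE _ _ _ _ _ _ h h'

lemma F_two (hU : (U : Filter ℕ) ≤ cofinite) {x y z : List ℝ} (h : Mid x y z 6) :
    Two (F E U x y) (F E U y z) (F E U x z) := by
  refine R_two hE hU _ _ _ _ 0 0 0 (Mid_vec x y z 6 h) (by simp) ?_
  simp [nsq_zero]; norm_num

omit hE in
lemma F_flip {P Q P' Q' : List ℝ} (hl : P.length = P'.length) :
    F E U (P ++ 0 :: Q) (P' ++ 0 :: Q') ↔ F E U (P ++ 1 :: Q) (P' ++ 1 :: Q') := by
  unfold F
  simp only [vec_append, vec_cons, sub_zero, sub_self]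
  have h1 : (vec P).length = (vec P').length := by rw [vec_length, vec_length, hl]
  have e1 := R_insert (E := E) (U := U) (vec P ++ [1]) (vec P' ++ [1]) (vec Q) (vec Q') 0 0
    (by simp [h1])
  have e2 := R_insert (E := E) (U := U) (vec P) (vec P') (1 :: vec Q) (1 :: vec Q') 0 0 h1
  simp only [List.append_assoc, List.singleton_append] at e1
  rw [e1, e2]

lemma F_move01 {P Q P' Q' : List ℝ} (hl : P.length = P'.length)
    (h : F E U (P ++ 0 :: Q) (P' ++ 1 :: Q')) : F E U (P ++ 0 :: Q) (P ++ 1 :: Q) := by
  unfold F at h ⊢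
  simp only [vec_append, vec_cons, sub_zero, sub_self] at h ⊢
  have h1 : (vec P).length = (vec P').length := by rw [vec_length, vec_length, hl]
  -- insert a zero between
  have e1 := (R_insert (E := E) (U := U) (vec P ++ [1]) (vec P' ++ [0]) (0 :: vec Q)
    (1 :: vec Q') 0 0 (by simp [h1])).2 (by simpa using h)
  have e2 := (R_insert (E := E) (U := U) (vec P) (vec P') (1 :: 0 :: vec Q)
    (0 :: 1 :: vec Q') 0 0 h1).2 (by simpa using h)
  simp only [List.append_assoc, List.singleton_append] at e1 e2
  have e3 := R_trans hE _ _ _ _ _ _ e1 (R_symm hE _ _ _ _ e2)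
  have e4 := R_insert (E := E) (U := U) (vec P ++ [1, 0]) (vec P ++ [0, 1]) (vec Q) (vec Q) 0 0
    (by simp)
  simp only [List.append_assoc, List.cons_append, List.nil_append] at e4
  exact e4.1 e3

lemma F_move10 {P Q P' Q' : List ℝ} (hl : P.length = P'.length)
    (h : F E U (P ++ 1 :: Q) (P' ++ 0 :: Q')) : F E U (P ++ 0 :: Q) (P ++ 1 :: Q) := by
  unfold F at h ⊢
  simp only [vec_append, vec_cons, sub_zero, sub_self] at h ⊢
  have h1 : (vec P).length = (vec P').length := by rw [vec_length, vec_length, hl]
  have e1 := (R_insert (E := E) (U := U) (vec P ++ [0, 1]) (vec P' ++ [1, 0]) (vec Q)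
    (vec Q') 0 0 (by simp [h1])).2 (by simpa using h)
  have e2 := (R_insert (E := E) (U := U) (vec P ++ [0]) (vec P' ++ [1]) (1 :: vec Q)
    (0 :: vec Q') 0 0 (by simp [h1])).2 (by simpa using h)
  simp only [List.append_assoc, List.cons_append, List.nil_append] at e1 e2
  have e3 := R_trans hE _ _ _ _ _ _ e1 (R_symm hE _ _ _ _ e2)
  have e4 := (R_insert (E := E) (U := U) (vec P) (vec P) (1 :: 0 :: vec Q) (0 :: 1 :: vec Q) 0 0
    rfl).1 e3
  exact e4

end

/-- the first `N` cells of an infinite configuration -/
noncomputable def conf (N : ℕ) (z : ℕ → ℝ) : List ℝ := (List.range N).map z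

lemma conf_split (N c : ℕ) (hc : c < N) (z : ℕ → ℝ) :
    conf N z = (List.range c).map z ++ z c ::
      (List.range (N - c - 1)).map (fun i => z (c + 1 + i)) := by
  unfold conf
  have h : N = c + (1 + (N - c - 1)) := by omega
  conv_lhs => rw [h]
  rw [List.range_add, List.range_add]
  simp [List.map_append, List.map_map, Function.comp_def, add_assoc]

section
variable (E : V → V → Prop) (U : Ultrafilter ℕ)

def FN (N : ℕ) (z w : ℕ → ℝ) : Prop := F E U (conf N z) (conf N w)

variable {E U}
variable (hE : Good 12 E)
include hE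

omit hE in
lemma conf_update (N c : ℕ) (hc : c < N) (z : ℕ → ℝ) (t : ℝ) :
    conf N (Function.update z c t) = (List.range c).map z ++ t ::
      (List.range (N - c - 1)).map (fun i => z (c + 1 + i)) := by
  rw [conf_split N c hc]
  congr 1
  · apply List.map_congr_left
    intro a ha
    rw [List.mem_range] at ha
    rw [Function.update_of_ne (by omega)]
  · rw [Function.update_self]
    congr 1
    apply List.map_congr_left
    intro a _
    rw [Function.update_of_ne (by omega)]

omit hE in
lemma FN_flip {N c : ℕ} (hc : c < N) {z w : ℕ → ℝ} (hz : z c = 0) (hw : w c = 0) :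
    FN E U N z w ↔ FN E U N (Function.update z c 1) (Function.update w c 1) := by
  unfold FN
  rw [conf_update N c hc, conf_update N c hc, conf_split N c hc z, conf_split N c hc w, hz, hw]
  exact F_flip (by simp)

lemma FN_move01 {N c : ℕ} (hc : c < N) {z w : ℕ → ℝ} (hz : z c = 0) (hw : w c = 1)
    (h : FN E U N z w) : FN E U N z (Function.update z c 1) := by
  unfold FN at h ⊢
  rw [conf_split N c hc z, conf_split N c hc w, hz, hw] at h
  rw [conf_update N c hc, conf_split N c hc z, hz]
  exact F_move01 hE (by simp) h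

lemma FN_move10 {N c : ℕ} (hc : c < N) {z w : ℕ → ℝ} (hz : z c = 1) (hw : w c = 0)
    (h : FN E U N z w) : FN E U N (Function.update z c 0) z := by
  unfold FN at h ⊢
  rw [conf_split N c hc z, conf_split N c hc w, hz, hw] at h
  rw [conf_update N c hc, conf_split N c hc z, hz]
  exact F_move10 hE (by simp) h

omit hE in
lemma Mid_conf (N : ℕ) (x y z : ℕ → ℝ) (h : ∀ i < N, x i + z i = y i + y i) :
    Mid (conf N x) (conf N y) (conf N z) (∑ i ∈ Finset.range N, (y i - x i) ^ 2) := by
  induction N with
  | zero => simp [conf, Mid]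
  | succ N ih =>
    unfold conf at ih ⊢
    rw [List.range_succ, List.map_append, List.map_append, List.map_append,
      Finset.sum_range_succ]
    apply Mid_append
    · exact ih (fun i hi => h i (by omega))
    · simp only [List.map_cons, List.map_nil, Mid]
      exact ⟨h N (by omega), by ring⟩

lemma FN_two (hU : (U : Filter ℕ) ≤ cofinite) {N : ℕ} {x y z : ℕ → ℝ}
    (h : ∀ i < N, x i + z i = y i + y i)
    (h6 : ∑ i ∈ Finset.range N, (y i - x i) ^ 2 = 6) :
    Two (FN E U N x y) (FN E U N y z) (FN E U N x z) := by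
  have := Mid_conf N x y z h
  rw [h6] at this
  exact F_two hE hU this

/-- set the cells of `A` to `1` -/
noncomputable def flip (z : ℕ → ℝ) (A : Finset ℕ) : ℕ → ℝ := fun i => if i ∈ A then 1 else z i

omit hE in
lemma FN_flips {N : ℕ} (A : Finset ℕ) : (∀ i ∈ A, i < N) → ∀ (z w : ℕ → ℝ),
    (∀ i ∈ A, z i = 0) → (∀ i ∈ A, w i = 0) →
    (FN E U N z w ↔ FN E U N (flip z A) (flip w A)) := by
  classical
  induction A using Finset.induction_on with
  | empty =>
    intro _ z w _ _
    have e : ∀ z : ℕ → ℝ, flip z ∅ = z := by intro z; funext i; simp [flip]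
    rw [e, e]
  | insert a A ha ih =>
    intro hA z w hz hw
    rw [ih (fun i hi => hA i (Finset.mem_insert_of_mem hi)) z w
      (fun i hi => hz i (Finset.mem_insert_of_mem hi))
      (fun i hi => hw i (Finset.mem_insert_of_mem hi))]
    rw [FN_flip (hA a (Finset.mem_insert_self _ _))
      (by simp [flip, ha, hz a (Finset.mem_insert_self _ _)])
      (by simp [flip, ha, hw a (Finset.mem_insert_self _ _)])]
    have e : ∀ z : ℕ → ℝ, Function.update (flip z A) a 1 = flip z (insert a A) := by
      intro z
      funext i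
      by_cases hi : i = a
      · subst hi; simp [flip]
      · simp [flip, Function.update_of_ne hi, hi]
    rw [e z, e w]

/-- at most one bit cell of a configuration is visible -/
lemma one_visible (hU : (U : Filter ℕ) ≤ cofinite) {N : ℕ} {z : ℕ → ℝ} {M : Finset ℕ}
    (hM : ∀ i ∈ M, i < N) (hc24 : M.card = 24) (hz : ∀ i ∈ M, z i = 0) {c c' : ℕ}
    (hc : c ∈ M) (hc' : c' ∈ M) (hne : c ≠ c') :
    FN E U N z (Function.update z c 1) ∨ FN E U N z (Function.update z c' 1) := by
  classical
  by_contra hcon
  rw [not_or] at hcon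
  obtain ⟨hA, hB⟩ := hcon
  have hcN := hM c hc
  have hcN' := hM c' hc'
  set m : ℕ → ℝ := fun i => if i ∈ M then 1 / 2 else z i with hm
  set z11 := flip z M with hz11
  set z10 := flip z (M.erase c') with hz10
  set z01 := flip z {c'} with hz01
  -- update lemmas
  have inv : ∀ (d : ℕ) (A : Finset ℕ), d ∈ M → d ∉ A → A ⊆ M →
      FN E U N (flip z A) (flip z (insert d A)) → FN E U N z (Function.update z d 1) := by
    intro d A hd hdA hAM h
    have e : flip z (insert d A) = flip (Function.update z d 1) A := by
      funext i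
      by_cases hi : i = d
      · subst hi; simp [flip, hdA]
      · simp [flip, hi, Function.update_of_ne hi]
    rw [e] at h
    refine (FN_flips A (fun i hi => hM i (hAM hi)) z _ (fun i hi => hz i (hAM hi)) ?_).2 h
    intro i hi
    have : i ≠ d := fun h => hdA (h ▸ hi)
    rw [Function.update_of_ne this]
    exact hz i (hAM hi)
  have g1 : ∀ i < N, z i + z11 i = m i + m i := by
    intro i _
    simp only [hz11, hm, flip]
    by_cases hi : i ∈ M
    · simp only [hi, if_true, hz i hi]; norm_num
    · simp only [hi, if_false]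
  have hsum : ∀ f : ℕ → ℝ, (∀ i ∈ M, f i = 1 / 4) → (∀ i, i ∉ M → f i = 0) →
      ∑ i ∈ Finset.range N, f i = 6 := by
    intro f h1 h2
    rw [← Finset.sum_subset (s₁ := M) (fun i hi => Finset.mem_range.2 (hM i hi))
      (fun i _ hi => h2 i hi), Finset.sum_congr rfl h1, Finset.sum_const, hc24]
    norm_num
  have s1 : ∑ i ∈ Finset.range N, (m i - z i) ^ 2 = 6 := by
    apply hsum
    · intro i hi; simp only [hm, hi, if_true, hz i hi]; norm_num
    · intro i hi; simp only [hm, hi, if_false]; norm_num
  have g2 : ∀ i < N, z10 i + z01 i = m i + m i := by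
    intro i _
    simp only [hz10, hz01, hm, flip, Finset.mem_erase, Finset.mem_singleton]
    by_cases hi : i ∈ M
    · by_cases hic : i = c'
      · subst hic; simp [hi, hz i hi]; norm_num
      · simp [hi, hic, hz i hi]; norm_num
    · have : i ≠ c' := fun h => hi (h ▸ hc')
      simp [hi, this]
  have s2 : ∑ i ∈ Finset.range N, (m i - z10 i) ^ 2 = 6 := by
    apply hsum
    · intro i hi
      simp only [hm, hz10, flip, Finset.mem_erase, hi, if_true, and_true]
      by_cases hic : i = c'
      · subst hic; simp [hz i hi]; norm_num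
      · simp [hic]; norm_num
    · intro i hi; simp [hm, hz10, flip, hi]
  have t1 := FN_two hE hU g1 s1
  have t2 := FN_two hE hU g2 s2
  -- values
  have vc : z c = 0 := hz c hc
  have vc' : z c' = 0 := hz c' hc'
  have v11c : z11 c = 1 := by simp [hz11, flip, hc]
  have v11c' : z11 c' = 1 := by simp [hz11, flip, hc']
  have v10c : z10 c = 1 := by simp [hz10, flip, hc, hne]
  have v10c' : z10 c' = 0 := by simp [hz10, flip, vc']
  have v01c : z01 c = 0 := by simp [hz01, flip, hne, vc]
  have v01c' : z01 c' = 1 := by simp [hz01, flip]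
  -- update of flips
  have u11c' : Function.update z11 c' 0 = flip z (M.erase c') := by
    funext i
    by_cases hi : i = c'
    · subst hi; simp [flip, vc']
    · simp [hz11, flip, hi, Function.update_of_ne hi]
  have u11c : Function.update z11 c 0 = flip z (M.erase c) := by
    funext i
    by_cases hi : i = c
    · subst hi; simp [flip, vc]
    · simp [hz11, flip, hi, Function.update_of_ne hi]
  have u10c : Function.update z10 c 0 = flip z ((M.erase c').erase c) := by
    funext i
    by_cases hi : i = c
    · subst hi; simp [flip, vc]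
    · simp [hz10, flip, hi, Function.update_of_ne hi]
  have i11c' : insert c' (M.erase c') = M := Finset.insert_erase hc'
  have i11c : insert c (M.erase c) = M := Finset.insert_erase hc
  have i10c : insert c ((M.erase c').erase c) = M.erase c' :=
    Finset.insert_erase (Finset.mem_erase.2 ⟨hne, hc⟩)
  have n1 : ¬ FN E U N z z11 := fun h => hA (FN_move01 hE hcN vc v11c h)
  have n2 : ¬ FN E U N z10 z01 := by
    intro h
    have := FN_move10 hE hcN v10c v01c h
    rw [u10c] at this
    refine hA (inv c ((M.erase c').erase c) hc (by simp) ?_ ?_)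
    · intro i hi; simp only [Finset.mem_erase] at hi; exact hi.2.2
    · rw [i10c]; exact this
  have n3 : ¬ FN E U N z z10 := fun h => hA (FN_move01 hE hcN vc v10c h)
  have n4 : ¬ FN E U N z z01 := fun h => hB (FN_move01 hE hcN' vc' v01c' h)
  have n5 : ¬ FN E U N z11 z10 := by
    intro h
    have := FN_move10 hE hcN' v11c' v10c' h
    rw [u11c'] at this
    refine hB (inv c' (M.erase c') hc' (by simp) (Finset.erase_subset _ _) ?_)
    rw [i11c']; exact this
  have n6 : ¬ FN E U N z11 z01 := by
    intro h
    have := FN_move10 hE hcN v11c v01c h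
    rw [u11c] at this
    refine hA (inv c (M.erase c) hc (by simp) (Finset.erase_subset _ _) ?_)
    rw [i11c]; exact this
  have sy : ∀ {a b : ℕ → ℝ}, FN E U N a b → FN E U N b a := fun h => F_symm hE h
  have tr : ∀ {a b d : ℕ → ℝ}, FN E U N a b → FN E U N b d → FN E U N a d :=
    fun h h' => F_trans hE h h'
  rcases t1.1 with h | h | h
  · rcases t2.1 with h' | h' | h'
    · exact n3 (tr h (sy h'))
    · exact n4 (tr h h')
    · exact n2 h'
  · rcases t2.1 with h' | h' | h'
    · exact n5 (tr (sy h) (sy h'))
    · exact n6 (tr (sy h) h')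
    · exact n2 h'
  · exact n1 h

end

end Pool.Agent.H616R3.Canon
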