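import Mathlib
import Pool.Agent.H616R3.Canon2

set_option autoImplicit false
open Filter

namespace Pool.Agent.H616R3.Canon

section
variable (E : V → V → Prop) (U : Ultrafilter ℕ)

def E1 (u v : V) : Prop := ∀ᶠ N in (U : Filter ℕ), FN E U N (fun i => u i) (fun i => v i)

variable {E U}
variable (hE : Good 12 E) (hU : (U : Filter ℕ) ≤ cofinite)
include hE hU

omit hE in
lemma ev_large (k : ℕ) : ∀ᶠ N in (U : Filter ℕ), k < N := by
  apply hU
  rw [mem_cofinite]
  exact (Set.finite_Iic k).subset (by intro n hn; simpa using hn)

omit hE in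
lemma ev_notin (s : Finset ℕ) : ∀ᶠ N in (U : Filter ℕ), N ∉ s := by
  apply hU
  rw [mem_cofinite]
  exact s.finite_toSet.subset (by intro n hn; simpa using hn)

omit hE hU in
lemma sum_range_eq_nsq (d : V) (N : ℕ) (h : ∀ i ∈ d.support, i < N) :
    ∑ i ∈ Finset.range N, (d i) ^ 2 = nsq d := by
  unfold nsq Finsupp.sum
  symm
  apply Finset.sum_subset
  · intro i hi; exact Finset.mem_range.2 (h i hi)
  · intro i _ hi
    rw [Finsupp.notMem_support_iff] at hi
    rw [hi]; norm_num

lemma E1_good : Good 6 (E1 E U) where
  refl u := Eventually.of_forall (fun N => F_refl hE _)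
  symm u v h := Eventually.mono h (fun N hN => F_symm hE hN)
  trans u v w h h' := (Eventually.and h h').mono (fun N hN => F_trans hE hN.1 hN.2)
  two u v w h h6 := by
    apply Two_eventually
    refine (ev_large hU ((v - u).support.sup id)).mono (fun N hN => ?_)
    refine FN_two hE hU ?_ ?_
    · intro i _
      have := DFunLike.congr_fun h i
      simpa using this
    · rw [← h6, ← sum_range_eq_nsq (v - u) N]
      · rfl
      · intro i hi
        exact lt_of_le_of_lt (Finset.le_sup (f := id) hi) hN

/-- in a generic configuration, of two bit cells at least one is invisible -/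
lemma key_or : ∀ (x : List ℝ) (u : V) (c c' : ℕ), c ≠ c' → u c = 0 → u c' = 0 →
    R (E1 E U) U x x u (u + Finsupp.single c 1) ∨ R (E1 E U) U x x u (u + Finsupp.single c' 1)
  | [], u, c, c', hne, h, h' => by
      classical
      simp only [R, E1]
      rw [← Ultrafilter.eventually_or]
      -- choose the 24 cells
      obtain ⟨T, hT1, hT2⟩ : ∃ T : Finset ℕ, T.card = 22 ∧ ∀ i ∈ T, u i = 0 ∧ i ≠ c ∧ i ≠ c' := by
        have hinf : Set.Infinite {i : ℕ | u i = 0 ∧ i ≠ c ∧ i ≠ c'} := by
          have : ((u.support ∪ {c, c'} : Finset ℕ) : Set ℕ)ᶜ ⊆ {i : ℕ | u i = 0 ∧ i ≠ c ∧ i ≠ c'} := by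
            intro i hi
            simp at hi
            simp only [Set.mem_setOf_eq]
            tauto
          exact (Finset.finite_toSet _).infinite_compl.mono this
        obtain ⟨T, hT, hT'⟩ := hinf.exists_subset_card_eq 22
        exact ⟨T, hT', fun i hi => hT hi⟩
      refine (ev_large hU ((insert c (insert c' T)).sup id)).mono (fun N hN => ?_)
      have hM : ∀ i ∈ insert c (insert c' T), i < N := by
        intro i hi
        exact lt_of_le_of_lt (Finset.le_sup (f := id) hi) hN
      have hcard : (insert c (insert c' T)).card = 24 := by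
        rw [Finset.card_insert_of_notMem, Finset.card_insert_of_notMem, hT1]
        · intro hh; exact (hT2 c' hh).2.2 rfl
        · intro hh
          rcases Finset.mem_insert.1 hh with h1 | h1
          · exact hne h1
          · exact (hT2 c h1).2.1 rfl
      have hz : ∀ i ∈ insert c (insert c' T), u i = 0 := by
        intro i hi
        rcases Finset.mem_insert.1 hi with h1 | h1
        · rw [h1]; exact h
        · rcases Finset.mem_insert.1 h1 with h2 | h2
          · rw [h2]; exact h'
          · exact (hT2 i h2).1
      have key := one_visible hE hU (N := N) (z := fun i => u i) hM hcard hz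
        (Finset.mem_insert_self c _) (Finset.mem_insert_of_mem (Finset.mem_insert_self c' T)) hne
      have e : ∀ d : ℕ, u d = 0 → Function.update (fun i => u i) d 1
          = (fun i => (u + Finsupp.single d 1 : V) i) := by
        intro d hd
        funext i
        by_cases hi : i = d
        · subst hi; simp [hd]
        · rw [Function.update_of_ne hi]
          simp [Finsupp.single_apply, Ne.symm hi]
      rw [e c h, e c' h'] at key
      exact key
  | (a :: x), u, c, c', hne, h, h' => by
      simp only [R]
      rw [← Ultrafilter.eventually_or]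
      refine (ev_notin hU {c, c'}).mono (fun n hn => ?_)
      simp only [Finset.mem_insert, Finset.mem_singleton, not_or] at hn
      have := key_or x (u + Finsupp.single n a) c c' hne
        (by simp [h, Finsupp.single_apply, hn.1])
        (by simp [h', Finsupp.single_apply, hn.2])
      rw [add_right_comm u (Finsupp.single c 1), add_right_comm u (Finsupp.single c' 1)]
      exact this

lemma R_bit : ∀ (l x : List ℝ) (u : V), R (E1 E U) U (l ++ 0 :: x) (l ++ 1 :: x) u u
  | [], x, u => by
      simp only [List.nil_append, R, Finsupp.single_zero, add_zero]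
      by_contra hcon
      rw [← Ultrafilter.eventually_not] at hcon
      have h1 := (hcon.and (ev_notin hU u.support))
      obtain ⟨c, hc, hcu⟩ := h1.exists
      have h2 := (h1.and (ev_notin hU {c}))
      obtain ⟨c', ⟨hc', hcu'⟩, hcc⟩ := h2.exists
      rw [Finsupp.notMem_support_iff] at hcu hcu'
      have hne : c ≠ c' := by
        intro h
        apply hcc
        simp [h]
      rcases key_or hE hU x u c c' hne hcu hcu' with h | h
      · exact hc h
      · exact hc' h
  | (a :: l), x, u => by
      simp only [List.cons_append, R]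
      exact Eventually.of_forall (fun n => R_bit l x _)

end

/-- the final interface -/
structure Iface (H : List ℝ → List ℝ → Prop) : Prop where
  refl : ∀ x, H x x
  symm : ∀ x y, H x y → H y x
  trans : ∀ x y z, H x y → H y z → H x z
  two : ∀ x y z, Mid x y z 6 → Two (H x y) (H y z) (H x z)
  ins : ∀ l m x y : List ℝ, l.length = m.length → (H (l ++ 0 :: x) (m ++ 0 :: y) ↔ H (l ++ x) (m ++ y))
  bit : ∀ l x : List ℝ, H (l ++ 0 :: x) (l ++ 1 :: x)

theorem exists_iface {E : V → V → Prop} (hE : Good 12 E) :
    ∃ H : List ℝ → List ℝ → Prop, Iface H := by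
  set U : Ultrafilter ℕ := hyperfilter ℕ with hUdef
  have hU : (U : Filter ℕ) ≤ cofinite := hyperfilter_le_cofinite
  have h1 := E1_good hE hU
  refine ⟨fun x y => R (E1 E U) U x y 0 0, ?_, ?_, ?_, ?_, ?_, ?_⟩
  · intro x; exact R_refl h1 x 0
  · intro x y h; exact R_symm h1 x y 0 0 h
  · intro x y z h h'; exact R_trans h1 x y z 0 0 0 h h'
  · intro x y z h; exact R_two h1 hU x y z 6 0 0 0 h (by simp) (by simp [nsq_zero])
  · intro l m x y h; exact R_insert l m x y 0 0 h
  · intro l x; exact R_bit hE hU l x 0

end Pool.Agent.H616R3.Canon
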