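import Mathlib
import Pool.Agent.H616R3.Canon3

set_option autoImplicit false

namespace Pool.Agent.H616R3.Canon

abbrev Pr := ℕ × ℕ
abbrev Key := List Pr × List Pr
abbrev Wd := List ℕ × List ℕ

noncomputable def hf (c : ℕ) : ℝ := (c : ℝ) / 2

noncomputable def dbl (l : List ℕ) : List ℝ := l.flatMap (fun c => [hf c, hf c])

/-- the point coded by a word: single cells and double cells -/
noncomputable def ex (w : Wd) : List ℝ := w.1.map hf ++ dbl w.2

lemma dbl_cons (c : ℕ) (l : List ℕ) : dbl (c :: l) = hf c :: hf c :: dbl l := by simp [dbl]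
lemma dbl_nil : dbl [] = [] := by simp [dbl]

def nz (p : Pr) : Bool := !(p.1 == 0 && p.2 == 0)

def key (x y : Wd) : Key := ((x.1.zip y.1).filter nz, (x.2.zip y.2).filter nz)

def FK (H : List ℝ → List ℝ → Prop) (k : Key) : Prop :=
  H (ex (k.1.map Prod.fst, k.2.map Prod.fst)) (ex (k.1.map Prod.snd, k.2.map Prod.snd))

variable {H : List ℝ → List ℝ → Prop} (hH : Iface H)
include hH

lemma filt2 : ∀ (q : List Pr) (l m : List ℝ), l.length = m.length →
    (H (l ++ dbl (q.map Prod.fst)) (m ++ dbl (q.map Prod.snd)) ↔
      H (l ++ dbl ((q.filter nz).map Prod.fst)) (m ++ dbl ((q.filter nz).map Prod.snd)))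
  | [], l, m, h => by simp
  | ((a, b) :: q), l, m, h => by
      by_cases hz : nz (a, b) = true
      · rw [List.filter_cons_of_pos hz]
        simp only [List.map_cons, dbl_cons]
        have := filt2 q (l ++ [hf a, hf a]) (m ++ [hf b, hf b]) (by simp [h])
        simpa using this
      · rw [List.filter_cons_of_neg hz]
        have hab : a = 0 ∧ b = 0 := by
          simp [nz] at hz
          exact hz
        obtain ⟨rfl, rfl⟩ := hab
        simp only [List.map_cons, dbl_cons]
        have h0 : hf 0 = 0 := by simp [hf]
        rw [h0, hH.ins l m _ _ h, hH.ins l m _ _ h]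
        exact filt2 q l m h

lemma filt1 : ∀ (p q : List Pr) (l m : List ℝ), l.length = m.length →
    (H (l ++ ((p.map Prod.fst).map hf ++ dbl (q.map Prod.fst)))
        (m ++ ((p.map Prod.snd).map hf ++ dbl (q.map Prod.snd))) ↔
      H (l ++ (((p.filter nz).map Prod.fst).map hf ++ dbl ((q.filter nz).map Prod.fst)))
        (m ++ (((p.filter nz).map Prod.snd).map hf ++ dbl ((q.filter nz).map Prod.snd))))
  | [], q, l, m, h => by simpa using filt2 hH q l m h
  | ((a, b) :: p), q, l, m, h => by
      by_cases hz : nz (a, b) = true
      · rw [List.filter_cons_of_pos hz]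
        simp only [List.map_cons]
        have := filt1 p q (l ++ [hf a]) (m ++ [hf b]) (by simp [h])
        simpa using this
      · rw [List.filter_cons_of_neg hz]
        have hab : a = 0 ∧ b = 0 := by
          simp [nz] at hz
          exact hz
        obtain ⟨rfl, rfl⟩ := hab
        simp only [List.map_cons, List.cons_append]
        have h0 : hf 0 = 0 := by simp [hf]
        rw [h0, hH.ins l m _ _ h]
        exact filt1 p q l m h

lemma key_iff (x y : Wd) (h1 : x.1.length = y.1.length) (h2 : x.2.length = y.2.length) :
    FK H (key x y) ↔ H (ex x) (ex y) := by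
  unfold FK key ex
  have := filt1 hH (x.1.zip y.1) (x.2.zip y.2) [] [] rfl
  simp only [List.nil_append] at this
  rw [← this, List.map_fst_zip (by omega), List.map_snd_zip (by omega),
    List.map_fst_zip (by omega), List.map_snd_zip (by omega)]

omit hH in
def c2 (n : ℕ) : ℕ := if n == 2 then 0 else n

omit hH in
def cz (w : Wd) : Wd := (w.1.map c2, w.2.map c2)

lemma bit' (l x : List ℝ) (a : ℕ) : H (l ++ hf a :: x) (l ++ hf (c2 a) :: x) := by
  unfold c2
  by_cases h : a = 2
  · subst h
    have e1 : hf 2 = 1 := by simp [hf]
    have e0 : hf 0 = 0 := by simp [hf]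
    simp only [beq_self_eq_true, if_true, e1, e0]
    exact hH.symm _ _ (hH.bit l x)
  · simp [h]
    exact hH.refl _

lemma ex_cz2 : ∀ (q : List ℕ) (l : List ℝ), H (l ++ dbl q) (l ++ dbl (q.map c2))
  | [], l => by simpa using hH.refl _
  | (a :: q), l => by
      simp only [List.map_cons, dbl_cons]
      have h1 := bit' hH l (hf a :: dbl q) a
      have h2 := bit' hH (l ++ [hf (c2 a)]) (dbl q) a
      have h3 := ex_cz2 q (l ++ [hf (c2 a), hf (c2 a)])
      simp only [List.append_assoc, List.cons_append, List.nil_append] at h2 h3
      exact hH.trans _ _ _ h1 (hH.trans _ _ _ h2 h3)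

lemma ex_cz1 : ∀ (p q : List ℕ) (l : List ℝ),
    H (l ++ (p.map hf ++ dbl q)) (l ++ ((p.map c2).map hf ++ dbl (q.map c2)))
  | [], q, l => by simpa using ex_cz2 hH q l
  | (a :: p), q, l => by
      simp only [List.map_cons, List.cons_append]
      have h1 := bit' hH l (p.map hf ++ dbl q) a
      have h3 := ex_cz1 p q (l ++ [hf (c2 a)])
      simp only [List.append_assoc, List.cons_append, List.nil_append] at h3
      exact hH.trans _ _ _ h1 h3

lemma ex_cz (w : Wd) : H (ex w) (ex (cz w)) := by
  have := ex_cz1 hH w.1 w.2 []
  simpa [ex, cz] using this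

omit hH in
def midN : List ℕ → List ℕ → List ℕ → Option ℕ
  | [], [], [] => some 0
  | (a :: x), (b :: y), (c :: z) =>
      if a + c == 2 * b then
        match midN x y z with
        | some k => some (k + ((b - a) + (a - b)) ^ 2)
        | none => none
      else none
  | _, _, _ => none

omit hH in
lemma sq_cast (a b : ℕ) : ((((b - a) + (a - b)) ^ 2 : ℕ) : ℝ) = ((b : ℝ) - a) ^ 2 := by
  rcases le_total a b with h | h
  · have : a - b = 0 := by omega
    rw [this]; push_cast [Nat.cast_sub h]; ring
  · have : b - a = 0 := by omega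
    rw [this]; push_cast [Nat.cast_sub h]; ring

omit hH in
lemma midN_some {a b c : ℕ} {x y z : List ℕ} {k : ℕ}
    (h : midN (a :: x) (b :: y) (c :: z) = some k) :
    a + c = 2 * b ∧ ∃ k', midN x y z = some k' ∧ k = k' + ((b - a) + (a - b)) ^ 2 := by
  simp only [midN] at h
  split_ifs at h with h1
  · refine ⟨by simpa using h1, ?_⟩
    cases hm : midN x y z with
    | none => rw [hm] at h; simp at h
    | some k' =>
      rw [hm] at h
      simp at h
      exact ⟨k', rfl, h.symm⟩

omit hH in
lemma midN_single : ∀ (x y z : List ℕ) (k : ℕ), midN x y z = some k →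
    Mid (x.map hf) (y.map hf) (z.map hf) ((k : ℝ) / 4)
  | [], [], [], k, h => by
      simp [midN] at h
      simp [Mid, ← h]
  | (a :: x), (b :: y), (c :: z), k, h => by
      obtain ⟨h1, k', h2, h3⟩ := midN_some h
      simp only [List.map_cons, Mid]
      refine ⟨?_, ?_⟩
      · unfold hf
        have : ((a + c : ℕ) : ℝ) = ((2 * b : ℕ) : ℝ) := by rw [h1]
        push_cast at this
        linarith
      · have ih := midN_single x y z k' h2
        have e : (k : ℝ) / 4 - (hf b - hf a) ^ 2 = (k' : ℝ) / 4 := by
          rw [h3, Nat.cast_add, sq_cast]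
          unfold hf; ring
        rw [e]; exact ih
  | [], [], (_ :: _), _, h => by simp [midN] at h
  | [], (_ :: _), _, _, h => by simp [midN] at h
  | (_ :: _), [], _, _, h => by simp [midN] at h
  | (_ :: _), (_ :: _), [], _, h => by simp [midN] at h

omit hH in
lemma midN_double : ∀ (x y z : List ℕ) (k : ℕ), midN x y z = some k →
    Mid (dbl x) (dbl y) (dbl z) (2 * (k : ℝ) / 4)
  | [], [], [], k, h => by
      simp [midN] at h
      simp [dbl_nil, Mid, ← h]
  | (a :: x), (b :: y), (c :: z), k, h => by
      obtain ⟨h1, k', h2, h3⟩ := midN_some h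
      simp only [dbl_cons, Mid]
      have hh : hf a + hf c = hf b + hf b := by
        unfold hf
        have : ((a + c : ℕ) : ℝ) = ((2 * b : ℕ) : ℝ) := by rw [h1]
        push_cast at this
        linarith
      refine ⟨hh, hh, ?_⟩
      have ih := midN_double x y z k' h2
      have e : 2 * (k : ℝ) / 4 - (hf b - hf a) ^ 2 - (hf b - hf a) ^ 2 = 2 * (k' : ℝ) / 4 := by
        rw [h3, Nat.cast_add, sq_cast]
        unfold hf; ring
      rw [e]; exact ih
  | [], [], (_ :: _), _, h => by simp [midN] at h
  | [], (_ :: _), _, _, h => by simp [midN] at h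
  | (_ :: _), [], _, _, h => by simp [midN] at h
  | (_ :: _), (_ :: _), [], _, h => by simp [midN] at h

omit hH in
def goodCheck (x y z : Wd) : Bool :=
  match midN x.1 y.1 z.1, midN x.2 y.2 z.2 with
  | some a, some b => a + 2 * b == 24
  | _, _ => false

lemma Two_congr' {x y z x' y' z' : List ℝ} (hx : H x x') (hy : H y y') (hz : H z z')
    (h : Two (H x y) (H y z) (H x z)) : Two (H x' y') (H y' z') (H x' z') := by
  have c : ∀ {a b a' b' : List ℝ}, H a a' → H b b' → (H a b ↔ H a' b') := by
    intro a b a' b' h1 h2
    exact ⟨fun h => hH.trans _ _ _ (hH.symm _ _ h1) (hH.trans _ _ _ h h2),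
      fun h => hH.trans _ _ _ h1 (hH.trans _ _ _ h (hH.symm _ _ h2))⟩
  rwa [c hx hy, c hy hz, c hx hz] at h

lemma good_two {x y z : Wd} (h : goodCheck x y z = true) :
    Two (H (ex (cz x)) (ex (cz y))) (H (ex (cz y)) (ex (cz z))) (H (ex (cz x)) (ex (cz z))) := by
  unfold goodCheck at h
  cases h1 : midN x.1 y.1 z.1 with
  | none => rw [h1] at h; simp at h
  | some a =>
    cases h2 : midN x.2 y.2 z.2 with
    | none => rw [h1, h2] at h; simp at h
    | some b =>
      rw [h1, h2] at h
      simp at h
      have m1 := midN_single _ _ _ _ h1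
      have m2 := midN_double _ _ _ _ h2
      have m := Mid_append _ _ _ _ _ _ _ _ m1 m2
      have e : (a : ℝ) / 4 + 2 * (b : ℝ) / 4 = 6 := by
        have : ((a + 2 * b : ℕ) : ℝ) = 24 := by rw [h]; norm_num
        push_cast at this
        linarith
      rw [e] at m
      exact Two_congr' hH (ex_cz hH x) (ex_cz hH y) (ex_cz hH z) (hH.two _ _ _ m)

omit hH in
def swapK (k : Key) : Key := (k.1.map Prod.swap, k.2.map Prod.swap)

omit hH in
def know (db : List (Key × Bool)) (k : Key) (b : Bool) : Bool :=
  (b && (k.1.all (fun p => p.1 == p.2) && k.2.all (fun p => p.1 == p.2))) ||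
    db.any (fun e => (e.2 == b) && (e.1 == k || e.1 == swapK k))

omit hH in
def Valid (H : List ℝ → List ℝ → Prop) (db : List (Key × Bool)) : Prop :=
  ∀ e ∈ db, (e.2 = true → FK H e.1) ∧ (e.2 = false → ¬ FK H e.1)

omit hH in
lemma FK_swap_aux (k : Key) : FK H (swapK k) ↔
    H (ex (k.1.map Prod.snd, k.2.map Prod.snd)) (ex (k.1.map Prod.fst, k.2.map Prod.fst)) := by
  unfold FK swapK
  simp [List.map_map, Function.comp_def]

lemma FK_swap (k : Key) : FK H (swapK k) ↔ FK H k := by
  rw [FK_swap_aux]
  unfold FK
  exact ⟨fun h => hH.symm _ _ h, fun h => hH.symm _ _ h⟩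

omit hH in
lemma map_eq_of_all (l : List Pr) (h : l.all (fun p => p.1 == p.2) = true) :
    l.map Prod.fst = l.map Prod.snd := by
  rw [List.all_eq_true] at h
  apply List.map_congr_left
  intro p hp
  simpa using h p hp

lemma know_true {db : List (Key × Bool)} (hv : Valid H db) {k : Key}
    (h : know db k true = true) : FK H k := by
  unfold know at h
  simp only [Bool.true_and, Bool.or_eq_true, Bool.and_eq_true, List.any_eq_true] at h
  rcases h with h | ⟨e, he, h2, h3⟩
  · unfold FK
    rw [map_eq_of_all _ h.1, map_eq_of_all _ h.2]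
    exact hH.refl _
  · have h2' : e.2 = true := by simpa using h2
    have hf := (hv e he).1 h2'
    rcases h3 with h3 | h3
    · have : e.1 = k := by simpa using h3
      rwa [this] at hf
    · have : e.1 = swapK k := by simpa using h3
      rw [this, FK_swap hH] at hf
      exact hf

lemma know_false {db : List (Key × Bool)} (hv : Valid H db) {k : Key}
    (h : know db k false = true) : ¬ FK H k := by
  unfold know at h
  simp only [Bool.false_and, Bool.false_or, Bool.or_eq_true, Bool.and_eq_true,
    List.any_eq_true] at h
  obtain ⟨e, he, h2, h3⟩ := h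
  have h2' : e.2 = false := by simpa using h2
  have hf := (hv e he).2 h2'
  rcases h3 with h3 | h3
  · have : e.1 = k := by simpa using h3
    rwa [this] at hf
  · have : e.1 = swapK k := by simpa using h3
    rw [this, FK_swap hH] at hf
    exact hf

omit hH in
inductive Cert : Type
  | close (good : Bool) (x y z : Wd) : Cert
  | step (good : Bool) (x y z : Wd) (i : ℕ) (b : Bool) (rest : Cert) : Cert
  | split (x y : Wd) (c1 c2 : Cert) : Cert

omit hH in
def lens (x y : Wd) : Bool := x.1.length == y.1.length && x.2.length == y.2.length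

omit hH in
/-- is the fact `(k_i, b)` derivable; `kj`, `kk` are the two other pairs of the triple -/
def der (good : Bool) (db : List (Key × Bool)) (kj kk : Key) (b : Bool) : Bool :=
  if good then
    (if b then know db kj false && know db kk false else know db kj true || know db kk true)
  else
    (if b then know db kj true && know db kk true
      else (know db kj true && know db kk false) || (know db kj false && know db kk true))

omit hH in
def check : Cert → List (Key × Bool) → Bool
  | .close good x y z, db =>
      lens x y && (lens y z && ((!good || goodCheck x y z) &&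
        (let x' := if good then cz x else x
         let y' := if good then cz y else y
         let z' := if good then cz z else z
         (der good db (key y' z') (key x' z') false && know db (key x' y') true) ||
          ((der good db (key x' y') (key x' z') false && know db (key y' z') true) ||
          ((der good db (key x' y') (key y' z') false && know db (key x' z') true) ||
          (der good db (key y' z') (key x' z') true && know db (key x' y') false))))))
  | .step good x y z i b rest, db =>
      lens x y && (lens y z && ((!good || goodCheck x y z) &&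
        (let x' := if good then cz x else x
         let y' := if good then cz y else y
         let z' := if good then cz z else z
         match i with
         | 0 => der good db (key y' z') (key x' z') b && check rest ((key x' y', b) :: db)
         | 1 => der good db (key x' y') (key x' z') b && check rest ((key y' z', b) :: db)
         | _ => der good db (key x' y') (key y' z') b && check rest ((key x' z', b) :: db))))
  | .split x y c1 c2, db =>
      lens x y && (check c1 ((key x y, true) :: db) && check c2 ((key x y, false) :: db))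

/-- abstract triple: three propositions of which either exactly one holds (good) or
not exactly two hold (transitivity) -/
lemma der_sound {db : List (Key × Bool)} (hv : Valid H db) {good : Bool} {ki kj kk : Key} {b : Bool}
    (hg : good = true → (FK H ki ∨ FK H kj ∨ FK H kk) ∧ ¬ (FK H ki ∧ FK H kj) ∧
      ¬ (FK H ki ∧ FK H kk) ∧ ¬ (FK H kj ∧ FK H kk))
    (ht : good = false → (FK H kj → FK H kk → FK H ki) ∧ (FK H ki → FK H kj → FK H kk) ∧
      (FK H ki → FK H kk → FK H kj))
    (h : der good db kj kk b = true) : (b = true → FK H ki) ∧ (b = false → ¬ FK H ki) := by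
  have kt : ∀ k, know db k true = true → FK H k := fun k h => know_true hH hv h
  have kf : ∀ k, know db k false = true → ¬ FK H k := fun k h => know_false hH hv h
  unfold der at h
  cases good <;> cases b
  · simp only [Bool.false_eq_true, if_false, Bool.or_eq_true, Bool.and_eq_true] at h
    have ht' := ht rfl
    refine ⟨by simp, fun _ hi => ?_⟩
    rcases h with ⟨h1, h2⟩ | ⟨h1, h2⟩
    · exact kf _ h2 (ht'.2.1 hi (kt _ h1))
    · exact kf _ h1 (ht'.2.2 hi (kt _ h2))
  · simp only [Bool.false_eq_true, if_false, if_true, Bool.and_eq_true] at h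
    have ht' := ht rfl
    exact ⟨fun _ => ht'.1 (kt _ h.1) (kt _ h.2), by simp⟩
  · simp only [Bool.false_eq_true, if_false, if_true, Bool.or_eq_true] at h
    have hg' := hg rfl
    refine ⟨by simp, fun _ hi => ?_⟩
    rcases h with h | h
    · exact hg'.2.1 ⟨hi, kt _ h⟩
    · exact hg'.2.2.1 ⟨hi, kt _ h⟩
  · simp only [if_true, Bool.and_eq_true] at h
    have hg' := hg rfl
    refine ⟨fun _ => ?_, by simp⟩
    rcases hg'.1 with h1 | h1 | h1
    · exact h1
    · exact absurd h1 (kf _ h.1)
    · exact absurd h1 (kf _ h.2)

/-- facts about the triple of keys attached to a (checked) triple of words -/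
lemma triple_facts {good : Bool} {x y z : Wd} (h1 : lens x y = true) (h2 : lens y z = true)
    (h3 : (!good || goodCheck x y z) = true) :
    let x' := if good then cz x else x
    let y' := if good then cz y else y
    let z' := if good then cz z else z
    (good = true → Two (FK H (key x' y')) (FK H (key y' z')) (FK H (key x' z'))) ∧
    (FK H (key x' y') → FK H (key y' z') → FK H (key x' z')) ∧
    (FK H (key x' y') → FK H (key x' z') → FK H (key y' z')) ∧
    (FK H (key x' z') → FK H (key y' z') → FK H (key x' y')) := by
  intro x' y' z'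
  simp only [lens, Bool.and_eq_true, beq_iff_eq] at h1 h2
  have l1 : x'.1.length = y'.1.length := by
    show (if good then cz x else x).1.length = (if good then cz y else y).1.length
    cases good <;> simp [cz, h1.1]
  have l2 : x'.2.length = y'.2.length := by
    show (if good then cz x else x).2.length = (if good then cz y else y).2.length
    cases good <;> simp [cz, h1.2]
  have l3 : y'.1.length = z'.1.length := by
    show (if good then cz y else y).1.length = (if good then cz z else z).1.length
    cases good <;> simp [cz, h2.1]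
  have l4 : y'.2.length = z'.2.length := by
    show (if good then cz y else y).2.length = (if good then cz z else z).2.length
    cases good <;> simp [cz, h2.2]
  have k12 := key_iff hH x' y' l1 l2
  have k23 := key_iff hH y' z' l3 l4
  have k13 := key_iff hH x' z' (l1.trans l3) (l2.trans l4)
  rw [k12, k23, k13]
  refine ⟨?_, fun a b => hH.trans _ _ _ a b, fun a b => hH.trans _ _ _ (hH.symm _ _ a) b,
    fun a b => hH.trans _ _ _ a (hH.symm _ _ b)⟩
  intro hgood
  subst hgood
  simp only [Bool.not_true, Bool.false_or] at h3
  exact good_two hH h3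

lemma check_sound : ∀ (c : Cert) (db : List (Key × Bool)), check c db = true → Valid H db → False
  | .close good x y z, db, h, hv => by
      simp only [check, Bool.and_eq_true, Bool.or_eq_true (_ && _), Bool.and_eq_true] at h
      obtain ⟨h1, h2, h3, h4⟩ := h
      have tf := triple_facts hH h1 h2 h3
      simp only at tf
      generalize (if good then cz x else x) = x' at h4 tf
      generalize (if good then cz y else y) = y' at h4 tf
      generalize (if good then cz z else z) = z' at h4 tf
      obtain ⟨t0, t1, t2, t3⟩ := tf
      rcases h4 with ⟨ha, hb⟩ | ⟨ha, hb⟩ | ⟨ha, hb⟩ | ⟨ha, hb⟩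
      · have := der_sound hH hv (ki := key x' y')
          (fun hg => ⟨(t0 hg).1, (t0 hg).2, fun hh => (t0 hg).2 ⟨hh.1, t2 hh.1 hh.2⟩,
            fun hh => (t0 hg).2 ⟨t3 hh.2 hh.1, hh.1⟩⟩)
          (fun _ => ⟨fun a b => t3 b a, fun a b => t1 a b, fun a b => t2 a b⟩) ha
        exact this.2 rfl (know_true hH hv hb)
      · have := der_sound hH hv (ki := key y' z')
          (fun hg => ⟨by rcases (t0 hg).1 with h | h | h <;> tauto,
            fun hh => (t0 hg).2 ⟨hh.2, hh.1⟩, fun hh => (t0 hg).2 ⟨t3 hh.2 hh.1, hh.1⟩,
            fun hh => (t0 hg).2 ⟨hh.1, t2 hh.1 hh.2⟩⟩)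
          (fun _ => ⟨fun a b => t2 a b, fun a b => t1 b a, fun a b => t3 b a⟩) ha
        exact this.2 rfl (know_true hH hv hb)
      · have := der_sound hH hv (ki := key x' z')
          (fun hg => ⟨by rcases (t0 hg).1 with h | h | h <;> tauto,
            fun hh => (t0 hg).2 ⟨hh.2, t2 hh.2 hh.1⟩, fun hh => (t0 hg).2 ⟨t3 hh.1 hh.2, hh.2⟩,
            fun hh => (t0 hg).2 ⟨hh.1, hh.2⟩⟩)
          (fun _ => ⟨fun a b => t1 a b, fun a b => t2 b a, fun a b => t3 a b⟩) ha
        exact this.2 rfl (know_true hH hv hb)
      · have := der_sound hH hv (ki := key x' y')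
          (fun hg => ⟨(t0 hg).1, (t0 hg).2, fun hh => (t0 hg).2 ⟨hh.1, t2 hh.1 hh.2⟩,
            fun hh => (t0 hg).2 ⟨t3 hh.2 hh.1, hh.1⟩⟩)
          (fun _ => ⟨fun a b => t3 b a, fun a b => t1 a b, fun a b => t2 a b⟩) ha
        exact know_false hH hv hb (this.1 rfl)
  | .step good x y z i b rest, db, h, hv => by
      simp only [check, Bool.and_eq_true] at h
      obtain ⟨h1, h2, h3, h4⟩ := h
      have tf := triple_facts hH h1 h2 h3
      simp only at tf
      generalize (if good then cz x else x) = x' at h4 tf
      generalize (if good then cz y else y) = y' at h4 tf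
      generalize (if good then cz z else z) = z' at h4 tf
      obtain ⟨t0, t1, t2, t3⟩ := tf
      have ext : ∀ (k : Key) (b : Bool), ((b = true → FK H k) ∧ (b = false → ¬ FK H k)) →
          Valid H ((k, b) :: db) := by
        intro k b hk e he
        rcases List.mem_cons.1 he with he | he
        · subst he; exact hk
        · exact hv e he
      match i, h4 with
      | 0, h4 =>
        simp only [Bool.and_eq_true] at h4
        have := der_sound hH hv (ki := key x' y')
          (fun hg => ⟨(t0 hg).1, (t0 hg).2, fun hh => (t0 hg).2 ⟨hh.1, t2 hh.1 hh.2⟩,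
            fun hh => (t0 hg).2 ⟨t3 hh.2 hh.1, hh.1⟩⟩)
          (fun _ => ⟨fun a b => t3 b a, fun a b => t1 a b, fun a b => t2 a b⟩) h4.1
        exact check_sound rest _ h4.2 (ext _ _ this)
      | 1, h4 =>
        simp only [Bool.and_eq_true] at h4
        have := der_sound hH hv (ki := key y' z')
          (fun hg => ⟨by rcases (t0 hg).1 with h | h | h <;> tauto,
            fun hh => (t0 hg).2 ⟨hh.2, hh.1⟩, fun hh => (t0 hg).2 ⟨t3 hh.2 hh.1, hh.1⟩,
            fun hh => (t0 hg).2 ⟨hh.1, t2 hh.1 hh.2⟩⟩)
          (fun _ => ⟨fun a b => t2 a b, fun a b => t1 b a, fun a b => t3 b a⟩) h4.1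
        exact check_sound rest _ h4.2 (ext _ _ this)
      | (n + 2), h4 =>
        simp only [Bool.and_eq_true] at h4
        have := der_sound hH hv (ki := key x' z')
          (fun hg => ⟨by rcases (t0 hg).1 with h | h | h <;> tauto,
            fun hh => (t0 hg).2 ⟨hh.2, t2 hh.2 hh.1⟩, fun hh => (t0 hg).2 ⟨t3 hh.1 hh.2, hh.2⟩,
            fun hh => (t0 hg).2 ⟨hh.1, hh.2⟩⟩)
          (fun _ => ⟨fun a b => t1 a b, fun a b => t2 b a, fun a b => t3 a b⟩) h4.1
        exact check_sound rest _ h4.2 (ext _ _ this)
  | .split x y c1 c2, db, h, hv => by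
      simp only [check, Bool.and_eq_true] at h
      obtain ⟨_, h2, h3⟩ := h
      have ext : ∀ (k : Key) (b : Bool), ((b = true → FK H k) ∧ (b = false → ¬ FK H k)) →
          Valid H ((k, b) :: db) := by
        intro k b hk e he
        rcases List.mem_cons.1 he with he | he
        · subst he; exact hk
        · exact hv e he
      by_cases hk : FK H (key x y)
      · exact check_sound c1 _ h2 (ext _ _ ⟨fun _ => hk, by simp⟩)
      · exact check_sound c2 _ h3 (ext _ _ ⟨by simp, fun _ => hk⟩)

end Pool.Agent.H616R3.Canon
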