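import Mathlib
import Pool.Agent.H616R3.Canon4

set_option autoImplicit false

namespace Pool.Agent.H616R3.Canon

def ct0 : Cert := .close true ([0,0,0,4],[0,0,0,4]) ([0,0,2,2],[0,0,2,2]) ([0,0,4,0],[0,0,4,0])

def ct1 : Cert := .close true ([0,4,0,4],[0,0,0,4]) ([0,4,2,2],[0,0,2,2]) ([0,4,4,0],[0,0,4,0])

def ct2 : Cert := .close true ([0,0,4,4],[0,0,0,4]) ([0,2,2,4],[0,0,2,2]) ([0,4,0,4],[0,0,4,0])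

def ct3 : Cert := .close true ([0,0,0,4],[0,0,4,4]) ([0,0,2,2],[0,2,2,4]) ([0,0,4,0],[0,4,0,4])

def ct4 : Cert := .close true ([0,0,0,4],[0,4,0,4]) ([0,0,2,2],[0,4,2,2]) ([0,0,4,0],[0,4,4,0])

def ct5 : Cert := .step true ([0,0,2,6],[0,4,0,4]) ([0,0,4,4],[0,4,2,2]) ([0,0,6,2],[0,4,4,0]) 1 false (.step false ([0,0,0,6],[0,0,4,4]) ([0,0,4,4],[0,0,4,0]) ([0,0,6,0],[0,0,4,4]) 2 false (.step false ([0,0,0,6],[0,0,4,4]) ([0,0,4,4],[0,0,4,0]) ([0,4,4,0],[0,0,4,0]) 2 true (.close false ([0,0,0,6],[0,0,4,4]) ([0,0,6,0],[0,0,4,4]) ([0,4,4,0],[0,0,4,0]))))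

def ct6 : Cert := .step true ([0,0,2,4],[0,0,0,0]) ([0,0,4,2],[0,0,2,2]) ([0,0,6,0],[0,0,4,4]) 2 false (.close false ([0,0,0,4],[0,0,0,0]) ([0,0,0,6],[0,0,4,4]) ([0,0,6,0],[0,0,4,4]))

def ct7 : Cert := .step false ([0,0,0,4],[0,0,0,0]) ([0,0,0,0],[0,0,1,1]) ([0,0,0,4],[0,4,0,0]) 1 false (.step false ([0,0,0,4],[0,0,0,0]) ([0,0,0,0],[0,0,1,1]) ([0,0,4,4],[0,0,0,0]) 1 false (.close true ([0,0,0,4],[0,4,0,0]) ([0,2,2,2],[0,2,1,1]) ([0,4,4,0],[0,0,2,2])))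

def ct8 : Cert := .step true ([0,0,0,0],[0,0,4,4]) ([0,0,0,2],[1,1,2,2]) ([0,0,0,4],[2,2,0,0]) 0 true (.step true ([0,0,0,4],[0,0,0,0]) ([0,2,2,2],[0,1,1,2]) ([0,4,4,0],[0,2,2,4]) 1 true (.step false ([0,0,0,4],[0,0,0,0]) ([0,0,0,0],[0,0,1,1]) ([0,0,0,4],[4,4,0,0]) 1 false (.step false ([0,0,0,0],[0,0,4,4]) ([0,0,0,0],[1,1,0,0]) ([0,0,4,4],[0,0,0,4]) 2 true (.step false ([0,0,0,0],[0,0,4,4]) ([0,0,0,0],[0,1,1,0]) ([0,0,4,4],[0,0,0,4]) 0 true (.step false ([0,0,0,0],[0,1,1,0]) ([0,0,0,4],[0,0,0,4]) ([0,0,4,4],[0,0,0,4]) 0 false (.step true ([0,0,0,0],[0,0,0,0]) ([0,0,0,2],[2,2,1,1]) ([0,0,0,4],[4,4,2,2]) 0 true (.step false ([0,0,0,0],[0,0,0,0]) ([0,0,0,0],[0,0,4,4]) ([0,0,0,0],[0,1,1,0]) 0 true (.step true ([0,0,0,4],[0,0,0,4]) ([0,2,2,2],[0,1,1,2]) ([0,4,4,0],[0,2,2,0])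 1 true (.step false ([0,0,0,0],[0,0,0,0]) ([0,0,0,0],[0,0,1,1]) ([0,0,4,4],[0,0,0,0]) 2 true (.close true ([0,0,0,0],[0,0,4,4]) ([0,0,2,2],[0,0,2,2]) ([0,0,4,4],[0,0,0,0])))))))))))

def ct9 : Cert := .step true ([0,0,0,4],[0,4,0,6]) ([0,0,2,2],[0,4,2,4]) ([0,0,4,0],[0,4,4,2]) 0 false (.step false ([0,0,4,0],[0,0,0,4]) ([0,0,0,4],[0,4,0,6]) ([0,0,4,0],[0,4,4,0]) 2 false (.step false ([0,4,0,0],[0,4,0,0]) ([0,0,0,4],[0,4,0,6]) ([0,0,4,0],[0,4,4,0]) 2 false (.step false ([0,0,0,4],[0,4,0,4]) ([0,0,0,4],[0,4,0,6]) ([0,0,4,0],[0,4,4,0]) 0 true (.step false ([0,0,0,4],[0,4,0,4]) ([0,0,4,0],[0,4,0,6]) ([0,4,0,0],[0,4,4,0]) 0 true (.step false ([0,0,0,4],[0,4,0,4]) ([0,0,4,0],[4,0,6,0]) ([0,4,0,0],[4,4,0,0]) 0 true (.step false ([0,0,0,4],[0,4,0,6]) ([0,0,0,4],[0,4,4,0]) ([0,0,4,0],[0,4,4,0])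 0 true (.step false ([0,0,0,4],[0,4,0,6]) ([0,0,0,4],[4,0,0,4]) ([0,0,4,0],[0,4,4,0]) 0 true (.step false ([0,0,0,0],[0,0,4,4]) ([0,0,0,4],[0,0,4,4]) ([0,0,0,4],[0,0,4,6]) 0 false (.step true ([0,0,0,6],[0,4,2,4]) ([0,0,2,4],[0,4,4,2]) ([0,0,4,2],[0,4,6,0]) 0 false (.step true ([0,0,0,6],[0,4,2,4]) ([0,0,2,4],[0,4,4,2]) ([0,0,4,2],[0,4,6,0]) 2 false (.step true ([0,0,0,6],[0,4,4,2]) ([0,0,2,4],[0,2,4,4]) ([0,0,4,2],[0,0,4,6]) 2 false (.step false ([0,0,0,4],[0,0,4,4]) ([0,0,6,0],[0,4,4,0]) ([0,4,0,0],[0,0,4,6]) 0 false (.step false ([0,0,0,4],[0,4,0,4]) ([0,0,0,6],[4,0,0,4]) ([0,0,4,0],[4,0,6,0]) 0 false (.step false ([0,0,0,4],[0,4,0,6]) ([0,0,0,4],[0,4,4,0]) ([0,0,0,6],[0,4,0,4]) 2 false (.step false ([0,0,0,4],[0,0,4,6]) ([0,0,0,4],[0,4,0,4]) ([0,0,0,6],[0,0,4,4])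 1 false (.step true ([0,0,2,4],[0,0,4,4]) ([0,0,4,2],[0,2,4,2]) ([0,0,6,0],[0,4,4,0]) 1 true (.step false ([0,0,0,4],[0,0,0,0]) ([0,0,0,4],[0,0,0,4]) ([0,0,0,6],[0,0,4,4]) 0 false (.step false ([0,0,0,4],[0,0,0,0]) ([0,0,4,0],[0,0,0,4]) ([0,0,6,0],[0,0,4,4]) 0 false (.step false ([0,0,0,4],[0,0,0,4]) ([0,0,4,0],[0,0,0,4]) ([0,0,6,0],[0,0,4,4]) 2 true (.step false ([0,0,0,4],[0,0,0,4]) ([0,0,0,6],[0,0,4,4]) ([0,0,4,0],[0,6,0,4]) 1 false (.step false ([0,0,0,4],[0,0,0,4]) ([0,0,0,6],[0,0,4,4]) ([0,0,4,4],[0,0,0,4]) 2 false (.step false ([0,0,4,0],[0,0,0,4]) ([0,0,0,4],[0,0,6,4]) ([0,0,6,0],[0,4,0,4]) 1 false (.step true ([0,0,0,4],[0,0,0,4]) ([0,0,0,4],[0,2,2,2]) ([0,0,0,4],[0,4,4,0]) 1 true (.step true ([0,0,0,6],[0,2,4,4]) ([0,0,2,4],[0,4,2,4]) ([0,0,4,2],[0,6,0,4])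 1 true (.step true ([0,0,2,4],[0,0,6,4]) ([0,0,4,2],[0,2,4,4]) ([0,0,6,0],[0,4,2,4]) 0 true (.step true ([0,0,4,0],[0,0,4,4]) ([0,2,4,2],[0,0,2,2]) ([0,4,4,4],[0,0,0,0]) 2 false (.step true ([0,0,0,4],[0,0,4,4]) ([0,2,2,4],[0,0,2,2]) ([0,4,4,4],[0,0,0,0]) 2 false (.step false ([0,0,0,4],[0,0,0,0]) ([0,0,4,0],[0,0,0,0]) ([0,0,0,4],[0,0,4,4]) 1 true (.step false ([0,0,0,4],[0,0,0,0]) ([0,0,0,0],[0,0,4,4]) ([0,0,0,4],[0,0,4,4]) 0 false (.step false ([0,0,0,4],[0,0,0,0]) ([0,0,0,4],[0,0,4,4]) ([0,0,0,4],[0,0,4,6]) 2 true (.step false ([0,0,0,4],[0,0,4,4]) ([0,0,4,0],[0,0,6,4]) ([0,4,4,4],[0,0,0,0]) 1 false (.step false ([0,0,0,4],[0,0,4,4]) ([0,4,0,0],[0,0,6,4]) ([0,4,4,4],[0,0,0,0]) 1 false (.step false ([0,0,0,4],[0,0,6,4]) ([0,0,4,0],[0,0,4,4]) ([0,4,4,4],[0,0,0,0]) 2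 false (.step true ([0,0,0,4],[0,0,4,4]) ([0,0,2,2],[0,0,2,2]) ([0,0,4,0],[0,0,0,0]) 0 false (.step true ([0,0,2,4],[0,0,4,4]) ([0,0,4,2],[0,0,2,2]) ([0,0,6,0],[0,0,0,0]) 2 false (.step false ([0,0,4,0],[0,0,0,0]) ([0,6,0,0],[0,0,0,0]) ([0,0,0,4],[0,0,4,4]) 0 false (.step false ([0,0,0,4],[0,0,0,0]) ([0,0,6,0],[0,0,0,0]) ([0,0,0,4],[0,0,4,6]) 1 false (.step true ([0,0,4,0],[0,0,6,4]) ([0,2,4,2],[0,0,4,2]) ([0,4,4,4],[0,0,2,0]) 1 true (.step true ([0,4,0,0],[0,0,6,4]) ([0,4,2,2],[0,0,4,2]) ([0,4,4,4],[0,0,2,0]) 1 true (.step true ([0,0,0,4],[0,0,6,4]) ([0,2,2,4],[0,0,4,2]) ([0,4,4,4],[0,0,2,0]) 1 true (.step true ([0,0,2,4],[0,0,4,6]) ([0,0,4,2],[0,0,2,4]) ([0,0,6,0],[0,0,0,2]) 1 true (.step false ([0,0,6,0],[0,0,0,0]) ([0,0,4,0],[0,0,0,4]) ([0,4,4,4],[0,0,0,0]) 2 true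 (.step false ([0,0,6,0],[0,0,0,0]) ([0,4,0,0],[0,0,0,4]) ([0,4,4,4],[0,0,0,0]) 0 true (.step false ([0,0,6,0],[0,0,0,0]) ([0,0,0,4],[0,0,0,4]) ([0,4,4,4],[0,0,0,0]) 0 true (.step false ([0,0,0,6],[0,0,0,0]) ([0,0,0,4],[0,0,0,4]) ([0,0,0,6],[0,0,4,4]) 2 true (.step false ([0,0,0,6],[0,0,0,0]) ([0,0,0,4],[0,0,0,4]) ([0,0,6,0],[0,0,4,4]) 2 true (.step true ([0,0,0,6],[0,0,0,4]) ([0,0,0,6],[0,2,2,2]) ([0,0,0,6],[0,4,4,0]) 0 false (.step true ([0,0,2,6],[0,0,0,0]) ([0,0,4,4],[0,0,2,2]) ([0,0,6,2],[0,0,4,4]) 0 false (.step false ([0,0,0,6],[0,0,0,0]) ([0,0,0,6],[0,0,0,4]) ([0,0,4,0],[0,0,4,0]) 1 false (.step false ([0,0,6,0],[0,0,0,0]) ([0,0,0,4],[0,0,0,4]) ([0,4,4,0],[0,0,0,0]) 1 false (.step true ([0,0,0,6],[0,0,0,4]) ([0,0,2,4],[0,0,2,2]) ([0,0,4,2],[0,0,4,0]) 0 true (.step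 false ([0,0,0,4],[0,0,0,0]) ([0,0,4,0],[0,0,0,0]) ([0,0,6,0],[0,0,0,4]) 2 true (.step false ([0,0,0,4],[0,0,0,0]) ([0,0,0,6],[0,0,0,4]) ([0,0,6,0],[0,0,4,0]) 1 true (.step true ([0,0,2,6],[0,0,0,4]) ([0,0,4,4],[0,0,2,2]) ([0,0,6,2],[0,0,4,0]) 0 false (.step false ([0,0,0,4],[0,0,0,0]) ([0,0,0,6],[0,0,0,4]) ([0,0,4,4],[0,0,0,0]) 2 false (.split ([0,0,0,4],[0,0,0,0]) ([0,0,0,0],[0,0,1,1]) (ct7) (ct8)))))))))))))))))))))))))))))))))))))))))))))))))))))))))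

def ct10 : Cert := .step true ([0,0,0,6],[0,4,0,4]) ([0,0,2,4],[0,4,2,2]) ([0,0,4,2],[0,4,4,0]) 1 false (.step false ([0,0,0,4],[0,0,4,0]) ([0,0,4,0],[0,0,4,0]) ([0,0,6,0],[0,0,4,4]) 2 true (.step false ([0,0,0,4],[0,4,0,0]) ([0,0,0,6],[0,4,0,4]) ([0,0,4,0],[0,4,6,0]) 1 false (.step false ([0,0,0,4],[0,4,0,0]) ([0,0,4,0],[0,4,4,0]) ([0,0,6,0],[0,4,0,4]) 1 false (.close true ([0,0,0,6],[0,4,2,4]) ([0,0,2,4],[0,4,4,2]) ([0,0,4,2],[0,4,6,0])))))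

def ct11 : Cert := .step true ([0,0,0,4],[0,0,0,4]) ([0,0,0,4],[0,2,2,2]) ([0,0,0,4],[0,4,4,0]) 0 false (.step false ([0,0,0,4],[0,0,0,0]) ([0,0,4,0],[0,0,0,0]) ([0,0,0,4],[0,0,4,4]) 1 true (.step false ([0,0,0,4],[0,0,0,0]) ([0,0,0,4],[0,0,4,4]) ([0,0,6,0],[0,4,0,4]) 1 false (.step false ([0,0,4,0],[0,0,0,0]) ([0,0,4,0],[0,0,0,4]) ([0,0,0,4],[0,0,4,4]) 1 false (.close true ([0,0,2,4],[0,0,4,4]) ([0,0,4,2],[0,2,2,4]) ([0,0,6,0],[0,4,0,4])))))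

def ct12 : Cert := .step false ([0,0,0,4],[0,0,0,0]) ([0,0,0,6],[0,0,0,0]) ([0,0,0,6],[0,0,0,4]) 1 false (.step false ([0,0,0,4],[0,0,0,0]) ([0,0,0,6],[0,0,0,4]) ([0,0,0,6],[0,4,4,0]) 1 false (.close true ([0,0,0,6],[0,0,0,4]) ([0,0,0,6],[0,2,2,2]) ([0,0,0,6],[0,4,4,0])))

def ct13 : Cert := .step true ([0,0,0,6],[0,0,0,4]) ([0,0,2,4],[0,0,2,2]) ([0,0,4,2],[0,0,4,0]) 2 true (.step false ([0,0,0,6],[0,0,0,0]) ([0,0,0,6],[0,0,0,4]) ([0,0,4,0],[0,0,4,0]) 0 true (.step false ([0,0,0,4],[0,0,0,4]) ([0,0,0,6],[0,0,0,4]) ([0,0,4,0],[0,0,4,0]) 0 true (.step false ([0,0,0,6],[0,0,0,4]) ([0,0,4,0],[0,0,4,0]) ([0,0,6,0],[0,0,4,0]) 2 true (.step true ([0,0,2,6],[0,0,0,4]) ([0,0,4,4],[0,0,2,2]) ([0,0,6,2],[0,0,4,0]) 0 false (.step false ([0,0,0,6],[0,0,0,0]) ([0,0,0,6],[0,0,0,4])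 ([0,0,4,4],[0,0,0,0]) 2 false (.step true ([0,0,2,6],[0,0,0,0]) ([0,0,4,4],[0,0,2,2]) ([0,0,6,2],[0,0,4,4]) 1 true (.step false ([0,0,0,0],[0,0,0,0]) ([0,0,4,4],[0,0,0,0]) ([0,0,6,0],[0,0,4,4]) 0 false (.step false ([0,0,4,4],[0,0,0,0]) ([0,0,6,0],[0,0,4,4]) ([4,4,0,0],[0,0,0,4]) 2 false (.close true ([0,0,4,4],[0,0,0,0]) ([2,2,2,2],[0,0,0,2]) ([4,4,0,0],[0,0,0,4]))))))))))

def ct14 : Cert := .step false ([0,0,0,0],[0,0,0,0]) ([0,0,4,0],[0,0,0,4]) ([0,0,0,4],[0,0,4,4]) 2 false (.step false ([0,0,0,4],[0,0,0,0]) ([0,0,4,0],[0,0,0,4]) ([0,0,0,4],[0,0,4,4]) 0 false (.step true ([0,0,0,4],[0,0,0,0]) ([0,0,2,2],[0,0,2,2]) ([0,0,4,0],[0,0,4,4]) 0 true (.step false ([0,0,0,4],[0,0,0,0]) ([0,0,0,6],[0,0,0,0]) ([0,0,4,0],[0,0,0,4]) 0 false (.step false ([0,0,0,0],[0,0,0,0])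 ([0,0,0,4],[0,0,0,0]) ([0,0,0,6],[0,0,4,4]) 2 false (.step false ([0,0,0,0],[0,0,0,0]) ([0,0,0,4],[0,0,0,0]) ([0,0,4,4],[0,0,0,4]) 2 false (.split ([0,0,0,4],[0,0,0,0]) ([0,0,0,6],[0,0,0,4]) (ct12) (ct13)))))))

def ct15 : Cert := .step true ([0,0,2,4],[0,0,4,4]) ([0,0,4,2],[0,2,2,4]) ([0,0,6,0],[0,4,0,4]) 2 true (.step false ([0,0,0,6],[0,0,0,0]) ([0,4,0,0],[0,0,0,4]) ([0,0,4,0],[0,0,4,4]) 2 false (.step false ([0,0,0,4],[0,0,4,4]) ([0,0,0,6],[0,0,4,4]) ([0,0,6,0],[0,4,0,4]) 0 true (.step false ([0,0,0,4],[0,0,4,4]) ([0,0,4,4],[0,0,0,4]) ([0,0,6,0],[0,4,0,4]) 0 false (.step true ([0,0,0,6],[0,0,0,0]) ([0,0,2,4],[0,0,2,2]) ([0,0,4,2],[0,0,4,4]) 0 true (.step false ([0,0,0,0],[0,0,0,0]) ([0,0,0,4],[0,0,0,0]) ([0,0,0,6],[0,0,0,0]) 0 false (.step false ([0,0,0,4],[0,0,0,0])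 ([0,0,0,6],[0,0,0,0]) ([0,0,4,0],[0,0,0,4]) 2 true (.step false ([0,0,0,4],[0,0,0,0]) ([0,0,0,6],[0,0,0,0]) ([0,4,4,0],[0,0,0,4]) 1 false (.step true ([0,0,0,4],[0,0,0,0]) ([0,0,2,2],[0,0,2,2]) ([0,0,4,0],[0,0,4,4]) 1 true (.step true ([0,0,0,6],[0,0,0,4]) ([0,0,2,4],[0,0,2,2]) ([0,0,4,2],[0,0,4,0]) 0 false (.step false ([0,0,0,0],[0,0,0,0]) ([0,0,0,4],[0,0,4,4]) ([0,0,0,6],[0,0,4,4]) 2 true (.step false ([0,0,0,0],[0,0,0,0]) ([0,0,0,4],[0,0,4,4]) ([0,0,4,4],[0,0,0,4]) 2 false (.step false ([0,0,0,4],[0,0,0,0]) ([0,0,0,6],[0,0,0,0]) ([0,0,0,6],[0,0,0,4]) 1 false (.step true ([0,0,0,6],[0,0,0,4]) ([0,0,0,6],[0,2,2,2]) ([0,0,0,6],[0,4,4,0]) 2 true (.step false ([0,0,0,0],[0,0,0,0]) ([0,0,0,6],[0,0,0,4]) ([0,0,0,6],[0,4,4,0]) 0 true (.step false ([0,0,0,6],[0,0,0,4]) ([0,0,0,6],[0,4,4,0])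 ([0,0,6,0],[0,0,4,4]) 2 true (.step false ([0,0,0,6],[0,0,4,0]) ([0,0,6,0],[0,0,0,4]) ([0,0,6,0],[0,4,4,0]) 0 true (.step false ([0,0,0,6],[0,0,4,0]) ([0,0,0,6],[4,4,0,0]) ([0,0,6,0],[0,0,4,4]) 2 true (.step true ([0,0,2,6],[0,0,4,0]) ([0,0,4,4],[0,0,2,2]) ([0,0,6,2],[0,0,0,4]) 0 false (.step false ([0,0,0,6],[0,0,4,0]) ([0,0,4,4],[0,0,0,0]) ([0,0,6,0],[0,0,4,4]) 1 false (.step false ([0,0,0,0],[0,0,0,0]) ([0,0,0,6],[0,0,0,4]) ([0,0,4,4],[0,0,0,0]) 2 false (.step true ([0,0,2,6],[0,0,0,0]) ([0,0,4,4],[0,0,2,2]) ([0,0,6,2],[0,0,4,4]) 0 true (.step true ([0,0,4,4],[0,0,0,0]) ([2,2,2,2],[0,0,0,2]) ([4,4,0,0],[0,0,0,4]) 2 true (.close false ([0,0,0,6],[0,0,0,0]) ([0,0,4,4],[0,0,0,0]) ([4,4,0,0],[0,0,0,4]))))))))))))))))))))))))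

def ct16 : Cert := .step false ([0,0,0,0],[0,0,0,0]) ([0,0,0,6],[0,0,0,0]) ([0,0,0,4],[0,0,0,4]) 0 false (.step false ([0,0,0,6],[0,0,0,0]) ([0,0,0,4],[0,0,0,4]) ([0,0,4,0],[0,0,0,4]) 2 true (.step false ([0,0,0,6],[0,0,0,0]) ([0,0,0,4],[0,0,0,4]) ([0,0,0,6],[0,0,4,4]) 2 false (.step false ([0,0,0,6],[0,0,0,0]) ([0,0,0,4],[0,0,0,4]) ([0,0,6,0],[0,0,4,4]) 2 false (.split ([0,0,4,0],[0,0,0,4]) ([0,0,0,4],[0,0,4,4]) (ct14) (ct15)))))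

def ct17 : Cert := .step true ([0,0,0,6],[0,0,0,2]) ([0,0,2,4],[0,0,2,4]) ([0,0,4,2],[0,0,4,6]) 2 true (.step true ([0,0,0,6],[0,0,2,0]) ([0,0,2,4],[0,0,4,2]) ([0,0,4,2],[0,0,6,4]) 2 true (.step false ([0,0,0,6],[0,0,0,0]) ([0,0,6,0],[0,0,0,0]) ([0,4,0,0],[0,0,4,6]) 0 true (.step false ([0,0,0,6],[0,0,0,0]) ([0,0,4,0],[0,0,4,4]) ([0,0,4,0],[0,0,4,6]) 0 false (.step false ([0,0,0,6],[0,0,0,0]) ([0,0,6,0],[0,0,0,0]) ([0,0,4,0],[0,0,6,4]) 1 true (.step false ([0,0,0,6],[0,0,0,0]) ([0,0,4,0],[0,0,6,4]) ([0,4,0,0],[0,0,4,4]) 1 false (.step true ([0,0,0,6],[0,0,0,0]) ([0,0,2,4],[0,0,2,2]) ([0,0,4,2],[0,0,4,4]) 0 true (.step false ([0,0,0,4],[0,0,0,0]) ([0,0,0,6],[0,0,0,0]) ([0,0,0,4],[0,0,6,4]) 2 true (.step false ([0,0,0,4],[0,0,0,0]) ([0,0,0,6],[0,0,0,0]) ([0,0,0,4],[0,0,0,4])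 2 false (.step false ([0,0,0,4],[0,0,0,0]) ([0,0,0,4],[0,6,4,0]) ([0,0,6,0],[0,0,4,4]) 1 false (.step true ([0,0,0,4],[0,0,0,4]) ([0,0,0,4],[0,2,2,2]) ([0,0,0,4],[0,4,4,0]) 2 true (.step true ([0,0,2,4],[0,6,4,0]) ([0,0,4,2],[0,4,4,2]) ([0,0,6,0],[0,2,4,4]) 1 true (.close false ([0,0,0,4],[0,0,0,4]) ([0,0,0,4],[0,4,4,0]) ([0,0,0,6],[0,0,4,4])))))))))))))

def ct18 : Cert := .step false ([0,0,0,4],[0,0,0,0]) ([0,0,4,0],[0,0,0,0]) ([0,0,4,0],[0,0,4,4]) 2 false (.split ([0,0,0,6],[0,0,0,0]) ([0,0,0,4],[0,0,0,4]) (ct16) (ct17))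

def ct19 : Cert := .step false ([0,0,0,4],[0,0,0,4]) ([0,0,0,4],[0,0,4,0]) ([0,0,0,6],[0,0,4,4]) 2 false (.step false ([0,0,0,4],[0,0,0,4]) ([0,0,4,0],[0,0,4,0]) ([0,0,6,0],[0,0,4,4]) 2 false (.split ([0,0,0,4],[0,0,0,0]) ([0,0,0,4],[0,0,4,4]) (ct11) (ct18)))

def ct20 : Cert := .step false ([0,0,0,4],[0,4,0,4]) ([0,0,0,4],[0,4,0,6]) ([0,0,4,0],[0,4,4,0]) 0 false (.step false ([0,0,0,4],[0,4,0,4]) ([0,0,4,0],[0,4,0,6]) ([0,4,0,0],[0,4,4,0]) 0 false (.split ([0,0,0,4],[0,0,4,0]) ([0,0,0,6],[0,0,4,4]) (ct10) (ct19)))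

def ct21 : Cert := .step false ([0,0,0,4],[0,0,0,0]) ([0,0,0,6],[0,0,4,4]) ([0,0,6,0],[0,0,4,4]) 2 false (.step true ([0,0,2,4],[0,0,0,0]) ([0,0,4,2],[0,0,2,2]) ([0,0,6,0],[0,0,4,4]) 0 true (.split ([0,0,0,4],[0,4,0,6]) ([0,0,4,0],[0,4,4,0]) (ct9) (ct20)))

def ct22 : Cert := .step false ([0,0,0,6],[0,0,4,4]) ([0,0,4,4],[0,0,0,4]) ([0,0,4,4],[0,0,4,0]) 0 false (.step false ([0,0,0,6],[0,0,4,4]) ([0,0,4,4],[0,0,4,0]) ([0,4,4,0],[0,0,0,4]) 2 false (.step false ([0,0,4,4],[0,0,0,4]) ([0,0,6,0],[0,0,4,4]) ([0,4,4,0],[0,0,4,0]) 0 false (.step false ([0,0,4,4],[0,0,4,0]) ([0,0,6,0],[0,0,4,4]) ([0,4,4,0],[0,0,4,0]) 0 false (.step true ([0,0,2,6],[0,0,4,4]) ([0,0,4,4],[0,2,2,4]) ([0,0,6,2],[0,4,0,4]) 2 true (.step true ([0,0,2,6],[0,4,4,0]) ([0,0,4,4],[0,2,4,2]) ([0,0,6,2],[0,0,4,4])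 2 true (.step false ([0,0,0,6],[0,0,4,4]) ([0,0,6,0],[0,0,4,4]) ([0,6,0,0],[0,4,0,4]) 0 true (.step false ([0,0,0,6],[4,4,0,0]) ([0,0,6,0],[0,0,4,4]) ([0,6,0,0],[0,4,0,4]) 0 true (.split ([0,0,0,4],[0,0,0,0]) ([0,0,0,6],[0,0,4,4]) (ct6) (ct21)))))))))

def ct23 : Cert := .step true ([0,0,0,4],[0,4,0,4]) ([0,0,2,2],[0,4,2,2]) ([0,0,4,0],[0,4,4,0]) 2 true (.step true ([0,0,0,4],[0,0,4,4]) ([0,0,2,2],[0,2,4,2]) ([0,0,4,0],[0,4,4,0]) 2 true (.step false ([0,0,0,4],[0,4,0,4]) ([0,0,0,4],[4,0,0,4]) ([0,0,4,0],[0,4,4,0]) 1 true (.split ([0,0,0,6],[0,0,4,4]) ([0,0,4,4],[0,0,4,0]) (ct5) (ct22))))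

def ct24 : Cert := .step true ([0,0,0,4],[0,0,4,4]) ([0,0,2,2],[0,2,2,4]) ([0,0,4,0],[0,4,0,4]) 2 true (.step false ([0,0,0,4],[0,0,4,4]) ([0,0,0,4],[0,4,0,4]) ([0,0,4,0],[4,0,0,4]) 0 true (.step false ([0,0,0,4],[0,0,4,4]) ([0,0,4,0],[0,0,4,4]) ([0,4,0,0],[0,4,0,4]) 0 true (.split ([0,0,0,0],[0,0,4,0]) ([0,0,0,4],[0,0,4,4]) (ct4) (ct23))))

def ct25 : Cert := .step true ([0,0,4,4],[0,0,0,4]) ([0,2,4,2],[0,0,2,2]) ([0,4,4,0],[0,0,4,0]) 2 true (.step true ([0,0,4,4],[0,0,4,0]) ([0,2,4,2],[0,0,2,2]) ([0,4,4,0],[0,0,0,4]) 2 true (.step false ([0,0,0,4],[0,0,0,0]) ([0,0,4,4],[0,0,0,4]) ([0,4,4,0],[0,0,4,0]) 2 false (.step false ([0,0,4,4],[0,0,0,4]) ([0,0,4,4],[0,0,4,0]) ([0,4,4,0],[0,0,4,0]) 1 true (.split ([0,0,0,0],[0,0,0,4]) ([0,0,0,4],[0,0,4,4]) (ct3) (ct24)))))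

def ct26 : Cert := .step true ([0,4,0,4],[0,0,0,4]) ([0,4,2,2],[0,0,2,2]) ([0,4,4,0],[0,0,4,0]) 2 true (.step false ([0,4,0,4],[0,0,0,4]) ([0,4,0,4],[0,0,4,0]) ([0,4,4,0],[0,4,0,0]) 0 true (.split ([0,0,0,4],[0,0,0,0]) ([0,0,4,4],[0,0,0,4]) (ct2) (ct25)))

def ct27 : Cert := .step true ([0,0,0,4],[0,0,0,4]) ([0,0,2,2],[0,0,2,2]) ([0,0,4,0],[0,0,4,0]) 2 true (.step false ([0,0,0,4],[0,0,0,4]) ([0,0,0,4],[0,0,4,0]) ([0,0,4,0],[0,4,0,0]) 0 true (.step false ([0,0,0,4],[0,0,0,4]) ([0,0,4,0],[0,0,0,4]) ([0,4,0,0],[0,0,4,0]) 0 true (.step true ([0,0,0,4],[0,0,2,4]) ([0,0,0,4],[0,2,4,2]) ([0,0,0,4],[0,4,6,0]) 1 false (.step true ([0,0,0,4],[0,0,6,4]) ([0,0,0,4],[0,2,4,2]) ([0,0,0,4],[0,4,2,0]) 0 false (.step false ([0,0,0,4],[0,0,0,4]) ([0,0,0,4],[0,0,4,0]) ([0,0,0,4],[0,0,4,6])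 1 false (.step false ([0,0,0,4],[0,0,0,4]) ([0,0,0,4],[0,0,4,0]) ([0,0,0,4],[0,0,6,4]) 2 false (.step false ([0,0,0,4],[0,0,0,4]) ([0,0,4,0],[0,0,0,4]) ([0,0,0,4],[0,0,4,6]) 1 false (.step false ([0,0,0,4],[0,0,0,4]) ([0,0,4,0],[0,0,0,4]) ([0,0,0,4],[0,0,6,4]) 1 false (.step false ([0,0,0,4],[0,0,0,4]) ([0,0,4,0],[0,0,0,4]) ([0,0,4,0],[0,0,4,6]) 2 false (.step false ([0,0,0,4],[0,0,0,4]) ([0,0,4,0],[0,0,0,4]) ([0,0,4,0],[0,0,6,4]) 2 false (.step false ([0,0,0,4],[0,0,4,0]) ([0,0,4,0],[0,0,4,0]) ([0,0,0,4],[0,0,4,6]) 1 false (.step false ([0,0,0,4],[0,0,4,0]) ([0,0,4,0],[0,0,4,0]) ([0,0,4,0],[0,0,4,6]) 2 false (.step false ([0,0,0,4],[0,0,4,0]) ([0,0,4,0],[0,0,4,0]) ([0,0,4,0],[0,0,6,4]) 2 false (.split ([0,0,4,0],[0,0,0,0]) ([0,0,4,4],[0,0,0,4]) (ct1) (ct26)))))))))))))))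

def ct28 : Cert := .split ([0,0,0,0],[0,0,0,0]) ([0,0,0,4],[0,0,0,4]) (ct0) (ct27)

def certRoot : Cert := ct28

theorem certRoot_ok : check certRoot [] = true := by decide +kernel

theorem no_iface (H : List ℝ → List ℝ → Prop) (hH : Iface H) : False :=
  check_sound hH certRoot [] certRoot_ok (by intro e he; simp at he)

theorem no_good {E : V → V → Prop} (hE : Good 12 E) : False := by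
  obtain ⟨H, hH⟩ := exists_iface hE
  exact no_iface H hH

end Pool.Agent.H616R3.Canon
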