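import Mathlib
import Pool.Agent.H616R3.Canon5

set_option autoImplicit false
open Filter

namespace Pool.Agent.H616R3.Canon

/-- restriction of a finitely supported vector to `ℝ^n`, scaled by `1/√12` -/
noncomputable def res (n : ℕ) (u : V) : EuclideanSpace ℝ (Fin n) :=
  WithLp.toLp 2 (fun i => u i / Real.sqrt 12)

lemma dist_res (n : ℕ) (u v : V) (h : ∀ i ∈ (v - u).support, i < n) :
    dist (res n u) (res n v) = Real.sqrt (nsq (v - u) / 12) := by
  rw [EuclideanSpace.dist_eq]
  congr 1
  have e : ∀ i : Fin n, dist ((res n u) i) ((res n v) i) ^ 2 = ((v - u) (i : ℕ)) ^ 2 / 12 := by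
    intro i
    have h12 : Real.sqrt 12 ^ 2 = 12 := Real.sq_sqrt (by norm_num)
    have h0 : Real.sqrt 12 ≠ 0 := by positivity
    simp only [res, Real.dist_eq, sq_abs, Finsupp.sub_apply]
    rw [← sub_div, div_pow, h12]
    ring
  rw [Finset.sum_congr rfl (fun i _ => e i), ← Finset.sum_div,
    Fin.sum_univ_eq_sum_range (fun i => ((v - u) i) ^ 2) n, sum_range_eq_nsq _ _ h]

/-- If in every dimension there is a colouring in which every congruent copy of `{0,1,2}` gets
exactly two colours, we get a contradiction. -/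
theorem main {C : Type*} (χ : ∀ n : ℕ, EuclideanSpace ℝ (Fin n) → C)
    (hχ : ∀ n, ∀ a b c : EuclideanSpace ℝ (Fin n), dist a b = 1 → dist b c = 1 → dist a c = 2 →
      ¬ ((χ n a = χ n b ∧ χ n b = χ n c) ∨ (χ n a ≠ χ n b ∧ χ n b ≠ χ n c ∧ χ n a ≠ χ n c))) :
    False := by
  set U : Ultrafilter ℕ := hyperfilter ℕ with hUdef
  have hU : (U : Filter ℕ) ≤ cofinite := hyperfilter_le_cofinite
  have hgood : Good 12 (fun u v : V => ∀ᶠ n in (U : Filter ℕ), χ n (res n u) = χ n (res n v)) := by
    refine ⟨fun u => Eventually.of_forall (fun n => rfl), fun u v h => h.mono (fun n hn => hn.symm),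
      fun u v w h h' => (h.and h').mono (fun n hn => hn.1.trans hn.2), ?_⟩
    intro u v w h1 h2
    apply Two_eventually
    refine (ev_large hU ((v - u).support.sup id)).mono (fun n hn => ?_)
    have hs : ∀ i ∈ (v - u).support, i < n := fun i hi =>
      lt_of_le_of_lt (Finset.le_sup (f := id) hi) hn
    have hwv : w - v = v - u := by
      have : w = v + v - u := by rw [← h1]; abel
      rw [this]; abel
    have hwu : w - u = (2 : ℝ) • (v - u) := by
      have : w = v + v - u := by rw [← h1]; abel
      rw [this, two_smul]; abel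
    have d1 : dist (res n u) (res n v) = 1 := by
      rw [dist_res n u v hs, h2]; norm_num
    have d2 : dist (res n v) (res n w) = 1 := by
      rw [dist_res n v w (by rw [hwv]; exact hs), hwv, h2]; norm_num
    have hs2 : ∀ i ∈ (w - u).support, i < n := by
      intro i hi
      apply hs
      rw [hwu] at hi
      exact Finsupp.support_smul hi
    have hn4 : nsq (w - u) = 48 := by
      rw [← sum_range_eq_nsq (w - u) n hs2]
      have : ∀ i ∈ Finset.range n, ((w - u) i) ^ 2 = 4 * ((v - u) i) ^ 2 := by
        intro i _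
        rw [hwu, Finsupp.smul_apply, smul_eq_mul]; ring
      rw [Finset.sum_congr rfl this, ← Finset.mul_sum, sum_range_eq_nsq _ _ hs, h2]; norm_num
    have d3 : dist (res n u) (res n w) = 2 := by
      rw [dist_res n u w hs2, hn4]
      have : (48 : ℝ) / 12 = 2 ^ 2 := by norm_num
      rw [this, Real.sqrt_sq (by norm_num)]
    have key := hχ n _ _ _ d1 d2 d3
    rw [not_or] at key
    obtain ⟨k1, k2⟩ := key
    refine ⟨?_, k1⟩
    by_contra hcon
    rw [not_or, not_or] at hcon
    exact k2 ⟨hcon.1, hcon.2.1, hcon.2.2⟩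
  exact no_good hgood

end Pool.Agent.H616R3.Canon
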