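import Mathlib
import Pool.Agent.H616R3.Canon6

set_option autoImplicit false
open Filter

namespace Pool.Agent.H616R3.Canon

/-- `{0,1,2}` is canonically Ramsey -/
theorem canonical : ∃ n : ℕ, ∀ χ : EuclideanSpace ℝ (Fin n) → ℝ,
      ∃ a b c : EuclideanSpace ℝ (Fin n),
        dist a b = 1 ∧ dist b c = 1 ∧ dist a c = 2 ∧
        ((χ a = χ b ∧ χ b = χ c) ∨ (χ a ≠ χ b ∧ χ b ≠ χ c ∧ χ a ≠ χ c)) := by
  by_contra hcon
  push Not at hcon
  choose χ hχ using hcon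
  refine main χ (fun n a b c h1 h2 h3 => ?_)
  rintro (⟨h4, h5⟩ | ⟨h4, h5, h6⟩)
  · exact (hχ n a b c h1 h2 h3).1 h4 h5
  · exact h6 ((hχ n a b c h1 h2 h3).2 h4 h5)

/-- the point `t` of `ℝ^1` -/
noncomputable def pt (t : ℝ) : EuclideanSpace ℝ (Fin 1) := WithLp.toLp 2 (fun _ => t)

lemma dist_pt (s t : ℝ) : dist (pt s) (pt t) = |s - t| := by
  rw [EuclideanSpace.dist_eq]
  simp [pt, Real.dist_eq, Real.sqrt_sq_eq_abs]

lemma pt_ne {s t : ℝ} (h : s ≠ t) : pt s ≠ pt t := by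
  intro he
  have : dist (pt s) (pt t) = 0 := by rw [he, dist_self]
  rw [dist_pt, abs_eq_zero, sub_eq_zero] at this
  exact h this

noncomputable def KK : Finset (EuclideanSpace ℝ (Fin 1)) := by
  classical exact {pt 0, pt 1, pt 2}

lemma mem_KK (x : EuclideanSpace ℝ (Fin 1)) : x ∈ KK ↔ x = pt 0 ∨ x = pt 1 ∨ x = pt 2 := by
  classical
  unfold KK
  simp

/-- colouring by the integer part of the squared norm mod 4 -/
noncomputable def col (n : ℕ) (x : EuclideanSpace ℝ (Fin n)) : Fin 4 :=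
  ⟨(⌊‖x‖ ^ 2⌋ % 4).toNat, by omega⟩

lemma col_no {n : ℕ} {a b c : EuclideanSpace ℝ (Fin n)} (h1 : dist a b = 1) (h2 : dist b c = 1)
    (h3 : dist a c = 2) : ¬ (col n a = col n b ∧ col n b = col n c) := by
  rintro ⟨e1, e2⟩
  rw [dist_eq_norm] at h1 h2 h3
  have p1 := parallelogram_law_with_norm ℝ (a - b) (b - c)
  have s1 : a - b + (b - c) = a - c := by abel
  rw [s1, h1, h2, h3] at p1
  have p2 : ‖a - b - (b - c)‖ = 0 := by
    have : ‖a - b - (b - c)‖ * ‖a - b - (b - c)‖ = 0 := by linarith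
    exact mul_self_eq_zero.1 this
  rw [norm_eq_zero] at p2
  have s2 : a + c = (2 : ℝ) • b := by
    rw [two_smul]
    have : a + c - (b + b) = 0 := by rw [← p2]; abel
    exact sub_eq_zero.1 this
  have p3 := parallelogram_law_with_norm ℝ a c
  rw [s2, h3, norm_smul] at p3
  have p4 : ‖a‖ ^ 2 + ‖c‖ ^ 2 = 2 * ‖b‖ ^ 2 + 2 := by
    simp only [Real.norm_ofNat] at p3
    nlinarith [p3]
  have f1 : ⌊‖a‖ ^ 2⌋ % 4 = ⌊‖b‖ ^ 2⌋ % 4 := by
    have := congrArg Fin.val e1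
    simp only [col] at this
    omega
  have f2 : ⌊‖b‖ ^ 2⌋ % 4 = ⌊‖c‖ ^ 2⌋ % 4 := by
    have := congrArg Fin.val e2
    simp only [col] at this
    omega
  have a1 := Int.floor_le (‖a‖ ^ 2)
  have a2 := Int.lt_floor_add_one (‖a‖ ^ 2)
  have b1 := Int.floor_le (‖b‖ ^ 2)
  have b2 := Int.lt_floor_add_one (‖b‖ ^ 2)
  have c1 := Int.floor_le (‖c‖ ^ 2)
  have c2 := Int.lt_floor_add_one (‖c‖ ^ 2)
  set i := ⌊‖a‖ ^ 2⌋
  set j := ⌊‖b‖ ^ 2⌋
  set k := ⌊‖c‖ ^ 2⌋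
  have g1 : (0 : ℝ) < ((i + k - 2 * j : ℤ) : ℝ) := by push_cast; linarith
  have g2 : ((i + k - 2 * j : ℤ) : ℝ) < 4 := by push_cast; linarith
  have g1' : (0 : ℤ) < i + k - 2 * j := by exact_mod_cast g1
  have g2' : i + k - 2 * j < 4 := by exact_mod_cast g2
  omega

theorem not_ramsey_of_canonical :
    ¬ (∀ (d : ℕ) (K : Finset (EuclideanSpace ℝ (Fin d))),
      (∃ n : ℕ, ∀ χ : EuclideanSpace ℝ (Fin n) → ℝ,
        ∃ f : EuclideanSpace ℝ (Fin d) → EuclideanSpace ℝ (Fin n),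
          (∀ x ∈ K, ∀ y ∈ K, dist (f x) (f y) = dist x y) ∧
          ((∀ x ∈ K, ∀ y ∈ K, χ (f x) = χ (f y)) ∨
           (∀ x ∈ K, ∀ y ∈ K, x ≠ y → χ (f x) ≠ χ (f y)))) →
      (∀ r : ℕ, ∃ n : ℕ, ∀ χ : EuclideanSpace ℝ (Fin n) → Fin r,
        ∃ f : EuclideanSpace ℝ (Fin d) → EuclideanSpace ℝ (Fin n),
          (∀ x ∈ K, ∀ y ∈ K, dist (f x) (f y) = dist x y) ∧
          (∀ x ∈ K, ∀ y ∈ K, χ (f x) = χ (f y)))) := by
  classical
  intro hall
  have h01 : pt 1 ≠ pt 0 := pt_ne (by norm_num)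
  have h02 : pt 2 ≠ pt 0 := pt_ne (by norm_num)
  have h12 : pt 2 ≠ pt 1 := pt_ne (by norm_num)
  have d01 : dist (pt 0) (pt 1) = 1 := by rw [dist_pt]; norm_num
  have d12 : dist (pt 1) (pt 2) = 1 := by rw [dist_pt]; norm_num
  have d02 : dist (pt 0) (pt 2) = 2 := by rw [dist_pt]; norm_num
  have hcan : ∃ n : ℕ, ∀ χ : EuclideanSpace ℝ (Fin n) → ℝ,
        ∃ f : EuclideanSpace ℝ (Fin 1) → EuclideanSpace ℝ (Fin n),
          (∀ x ∈ KK, ∀ y ∈ KK, dist (f x) (f y) = dist x y) ∧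
          ((∀ x ∈ KK, ∀ y ∈ KK, χ (f x) = χ (f y)) ∨
           (∀ x ∈ KK, ∀ y ∈ KK, x ≠ y → χ (f x) ≠ χ (f y))) := by
    obtain ⟨n, hn⟩ := canonical
    refine ⟨n, fun χ => ?_⟩
    obtain ⟨a, b, c, k1, k2, k3, k4⟩ := hn χ
    refine ⟨fun x => if x = pt 0 then a else if x = pt 1 then b else c, ?_, ?_⟩
    · intro x hx y hy
      rw [mem_KK] at hx hy
      rcases hx with rfl | rfl | rfl <;> rcases hy with rfl | rfl | rfl <;>
        simp [h01, h02, h12, k1, k2, k3, d01, d12, d02, dist_comm b a, dist_comm c b,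
          dist_comm c a, dist_comm (pt 1) (pt 0), dist_comm (pt 2) (pt 1), dist_comm (pt 2) (pt 0)]
    · rcases k4 with ⟨k4, k5⟩ | ⟨k4, k5, k6⟩
      · left
        intro x hx y hy
        rw [mem_KK] at hx hy
        rcases hx with rfl | rfl | rfl <;> rcases hy with rfl | rfl | rfl <;>
          simp [h01, h02, h12, k4, k5]
      · right
        intro x hx y hy hxy
        rw [mem_KK] at hx hy
        rcases hx with rfl | rfl | rfl <;> rcases hy with rfl | rfl | rfl <;>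
          first
          | exact absurd rfl hxy
          | simp [h01, h02, h12, k4, k5, k6, Ne.symm k4, Ne.symm k5, Ne.symm k6]
  obtain ⟨n, hn⟩ := hall 1 KK hcan 4
  obtain ⟨f, hf, hf2⟩ := hn (col n)
  have m0 : pt 0 ∈ KK := (mem_KK _).2 (Or.inl rfl)
  have m1 : pt 1 ∈ KK := (mem_KK _).2 (Or.inr (Or.inl rfl))
  have m2 : pt 2 ∈ KK := (mem_KK _).2 (Or.inr (Or.inr rfl))
  exact col_no ((hf _ m0 _ m1).trans d01) ((hf _ m1 _ m2).trans d12) ((hf _ m0 _ m2).trans d02)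
    ⟨hf2 _ m0 _ m1, hf2 _ m1 _ m2⟩

end Pool.Agent.H616R3.Canon
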