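import Mathlib

set_option autoImplicit false

/-! Shifting graphs: cliques and independent sets do not decrease. -/

namespace Pool.Agent.H616R3.Shift

open Finset Classical

variable {V : Type*} [DecidableEq V]

/-- cliques of size `r` inside `S` for the relation `g` -/
noncomputable def cl (r : ℕ) (S : Finset V) (g : V → V → Prop) : Finset (Finset V) :=
  (S.powersetCard r).filter (fun s => ∀ x ∈ s, ∀ y ∈ s, x ≠ y → g x y)

lemma mem_cl {r : ℕ} {S : Finset V} {g : V → V → Prop} {s : Finset V} :
    s ∈ cl r S g ↔ (s ⊆ S ∧ s.card = r) ∧ ∀ x ∈ s, ∀ y ∈ s, x ≠ y → g x y := by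
  unfold cl
  rw [mem_filter, mem_powersetCard]

/-- the shifted relation: neighbours are moved from `j` to `i` -/
def sh (i j : V) (g : V → V → Prop) (x y : V) : Prop :=
  ((x = i ∨ y = i) ∧ x ≠ j ∧ y ≠ j ∧ (g x y ∨ g (Equiv.swap i j x) (Equiv.swap i j y))) ∨
  ((x = j ∨ y = j) ∧ x ≠ i ∧ y ≠ i ∧ (g x y ∧ g (Equiv.swap i j x) (Equiv.swap i j y))) ∨
  (¬((x = i ∨ y = i) ∧ x ≠ j ∧ y ≠ j) ∧ ¬((x = j ∨ y = j) ∧ x ≠ i ∧ y ≠ i) ∧ g x y)

lemma sh_symm {i j : V} {g : V → V → Prop} (hg : ∀ x y, g x y → g y x) (x y : V)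
    (h : sh i j g x y) : sh i j g y x := by
  unfold sh at *
  have h1 := hg x y
  have h2 := hg (Equiv.swap i j x) (Equiv.swap i j y)
  tauto

lemma sh_not {i j : V} (g : V → V → Prop) (x y : V) :
    ¬ sh i j g x y ↔ sh j i (fun a b => ¬ g a b) x y := by
  unfold sh
  rw [Equiv.swap_comm j i]
  have key : ¬ (((x = i ∨ y = i) ∧ x ≠ j ∧ y ≠ j) ∧ ((x = j ∨ y = j) ∧ x ≠ i ∧ y ≠ i)) := by
    rintro ⟨⟨h1, h2, h3⟩, ⟨h4, h5, h6⟩⟩
    rcases h4 with h | h
    · exact h2 h
    · exact h3 h
  have e1 : ∀ p q : Prop, ((x = i ∨ y = i) ∧ x ≠ j ∧ y ≠ j ∧ (p ∨ q)) ↔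
    (((x = i ∨ y = i) ∧ x ≠ j ∧ y ≠ j) ∧ (p ∨ q)) := fun p q => by simp only [and_assoc]
  have e2 : ∀ p q : Prop, ((x = j ∨ y = j) ∧ x ≠ i ∧ y ≠ i ∧ (p ∨ q)) ↔
    (((x = j ∨ y = j) ∧ x ≠ i ∧ y ≠ i) ∧ (p ∨ q)) := fun p q => by simp only [and_assoc]
  have e3 : ∀ p q : Prop, ((x = i ∨ y = i) ∧ x ≠ j ∧ y ≠ j ∧ (p ∧ q)) ↔
    (((x = i ∨ y = i) ∧ x ≠ j ∧ y ≠ j) ∧ (p ∧ q)) := fun p q => by simp only [and_assoc]
  have e4 : ∀ p q : Prop, ((x = j ∨ y = j) ∧ x ≠ i ∧ y ≠ i ∧ (p ∧ q)) ↔
    (((x = j ∨ y = j) ∧ x ≠ i ∧ y ≠ i) ∧ (p ∧ q)) := fun p q => by simp only [and_assoc]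
  rw [e1, e2, e3, e4]
  clear e1 e2 e3 e4
  beta_reduce
  generalize ((x = i ∨ y = i) ∧ x ≠ j ∧ y ≠ j) = c1 at *
  generalize ((x = j ∨ y = j) ∧ x ≠ i ∧ y ≠ i) = c2 at *
  generalize g x y = a
  generalize g _ _ = b
  tauto

lemma compress_sub (i j : V) (hij : i ≠ j) (g : V → V → Prop) (S : Finset V) (hi : i ∈ S) (r : ℕ) :
    UV.compression {i} {j} (cl r S g) ⊆ cl r S (sh i j g) := by
  intro a ha
  rw [UV.mem_compression] at ha
  have hcomp : ∀ b : Finset V, i ∉ b → j ∈ b → UV.compress {i} {j} b = (b ∪ {i}) \ {j} := by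
    intro b hib hjb
    unfold UV.compress
    rw [if_pos]
    · rfl
    · exact ⟨by rw [disjoint_singleton_left]; exact hib, by simpa using hjb⟩
  rcases ha with ⟨ha, hca⟩ | ⟨ha, b, hb, hba⟩
  · rw [mem_cl] at ha ⊢
    refine ⟨ha.1, ?_⟩
    intro x hx y hy hxy
    have hgxy := ha.2 x hx y hy hxy
    unfold sh
    by_cases hc1 : (x = i ∨ y = i) ∧ x ≠ j ∧ y ≠ j
    · left; exact ⟨hc1.1, hc1.2.1, hc1.2.2, Or.inl hgxy⟩
    by_cases hc2 : (x = j ∨ y = j) ∧ x ≠ i ∧ y ≠ i
    · right; left
      refine ⟨hc2.1, hc2.2.1, hc2.2.2, hgxy, ?_⟩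
      obtain ⟨h1, hxi, hyi⟩ := hc2
      have hja : j ∈ a := by rcases h1 with rfl | rfl <;> assumption
      by_cases hia : i ∈ a
      · rcases h1 with rfl | rfl
        · rw [Equiv.swap_apply_right, Equiv.swap_apply_of_ne_of_ne hyi hxy.symm]
          exact ha.2 i hia y hy hyi.symm
        · rw [Equiv.swap_apply_right, Equiv.swap_apply_of_ne_of_ne hxi hxy]
          exact ha.2 x hx i hia hxi
      · rw [hcomp a hia hja, mem_cl] at hca
        rcases h1 with rfl | rfl
        · rw [Equiv.swap_apply_right, Equiv.swap_apply_of_ne_of_ne hyi hxy.symm]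
          exact hca.2 i (by simp [hij]) y (by simp [hy, hxy.symm]) hyi.symm
        · rw [Equiv.swap_apply_right, Equiv.swap_apply_of_ne_of_ne hxi hxy]
          exact hca.2 x (by simp [hx, hxy]) i (by simp [hij]) hxi
    · right; right
      exact ⟨hc1, hc2, hgxy⟩
  · -- the new sets
    have hnt : i ∉ b ∧ j ∈ b := by
      by_contra hcon
      have : UV.compress {i} {j} b = b := by
        unfold UV.compress
        rw [if_neg]
        intro h
        apply hcon
        refine ⟨by simpa using h.1, by simpa using h.2⟩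
      rw [this] at hba
      rw [hba] at hb
      exact ha hb
    obtain ⟨hib, hjb⟩ := hnt
    rw [hcomp b hib hjb] at hba
    rw [mem_cl] at hb ⊢
    subst hba
    refine ⟨⟨?_, ?_⟩, ?_⟩
    · intro x hx
      simp only [mem_sdiff, mem_union, mem_singleton] at hx
      rcases hx.1 with h | rfl
      · exact hb.1.1 h
      · exact hi
    · have h1 : (b ∪ {i}) \ {j} = insert i (b.erase j) := by
        ext x
        simp only [mem_sdiff, mem_union, mem_singleton, mem_insert, mem_erase]
        constructor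
        · rintro ⟨h | rfl, h'⟩
          · right; exact ⟨h', h⟩
          · left; rfl
        · rintro (rfl | ⟨h, h'⟩)
          · exact ⟨Or.inr rfl, hij⟩
          · exact ⟨Or.inl h', h⟩
      rw [h1, card_insert_of_notMem (by simp [hib]), card_erase_of_mem hjb, hb.1.2]
      have : 0 < b.card := card_pos.2 ⟨j, hjb⟩
      omega
    · intro x hx y hy hxy
      simp only [mem_sdiff, mem_union, mem_singleton] at hx hy
      unfold sh
      by_cases hxi : x = i
      · subst hxi
        left
        refine ⟨Or.inl rfl, hx.2, hy.2, Or.inr ?_⟩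
        rw [Equiv.swap_apply_left, Equiv.swap_apply_of_ne_of_ne hxy.symm hy.2]
        rcases hy.1 with h | h
        · exact hb.2 j hjb y h (Ne.symm hy.2)
        · exact absurd h.symm hxy
      by_cases hyi : y = i
      · subst hyi
        left
        refine ⟨Or.inr rfl, hx.2, hy.2, Or.inr ?_⟩
        rw [Equiv.swap_apply_left, Equiv.swap_apply_of_ne_of_ne hxy hx.2]
        rcases hx.1 with h | h
        · exact hb.2 x h j hjb hx.2
        · exact absurd h hxy
      · right; right
        refine ⟨by tauto, by tauto, ?_⟩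
        rcases hx.1 with h | h
        · rcases hy.1 with h' | h'
          · exact hb.2 x h y h' hxy
          · exact absurd h' hyi
        · exact absurd h hxi

lemma cl_shift (i j : V) (hij : i ≠ j) (g : V → V → Prop) (S : Finset V) (hi : i ∈ S) (r : ℕ) :
    (cl r S g).card ≤ (cl r S (sh i j g)).card := by
  have h := card_le_card (compress_sub i j hij g S hi r)
  rwa [UV.card_compression] at h

lemma cl_congr (r : ℕ) (S : Finset V) (g g' : V → V → Prop) (h : ∀ x y, x ≠ y → (g x y ↔ g' x y)) :
    cl r S g = cl r S g' := by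
  ext s
  rw [mem_cl, mem_cl]
  constructor
  · rintro ⟨h1, h2⟩
    exact ⟨h1, fun x hx y hy hxy => (h x y hxy).1 (h2 x hx y hy hxy)⟩
  · rintro ⟨h1, h2⟩
    exact ⟨h1, fun x hx y hy hxy => (h x y hxy).2 (h2 x hx y hy hxy)⟩

/-- complement -/
def co (g : V → V → Prop) : V → V → Prop := fun x y => ¬ g x y

lemma cl_shift_co (i j : V) (hij : i ≠ j) (g : V → V → Prop) (S : Finset V) (hj : j ∈ S) (r : ℕ) :
    (cl r S (co g)).card ≤ (cl r S (co (sh i j g))).card := by
  have h1 : cl r S (co (sh i j g)) = cl r S (sh j i (co g)) := by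
    apply cl_congr
    intro x y _
    exact sh_not g x y
  rw [h1]
  exact cl_shift j i hij.symm (co g) S hj r

/-- shift everything to `i` -/
lemma exists_dom (S : Finset V) (i : V) (hi : i ∈ S) (g : V → V → Prop)
    (hg : ∀ x y, g x y → g y x) (Q : Finset V) (hQ : Q ⊆ S.erase i) :
    ∃ g' : V → V → Prop, (∀ x y, g' x y → g' y x) ∧
      (∀ r, (cl r S g).card ≤ (cl r S g').card) ∧
      (∀ r, (cl r S (co g)).card ≤ (cl r S (co g')).card) ∧
      ∀ j ∈ Q, ∀ v, v ≠ i → v ≠ j → g' j v → g' i v := by
  induction Q using Finset.induction_on with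
  | empty => exact ⟨g, hg, fun _ => le_rfl, fun _ => le_rfl, by simp⟩
  | insert k Q hk ih =>
    obtain ⟨g1, h1, h2, h3, h4⟩ := ih ((subset_insert _ _).trans hQ)
    have hkS := hQ (mem_insert_self k Q)
    rw [mem_erase] at hkS
    have hki : i ≠ k := hkS.1.symm
    refine ⟨sh i k g1, sh_symm h1, fun r => (h2 r).trans (cl_shift i k hki g1 S hi r),
      fun r => (h3 r).trans (cl_shift_co i k hki g1 S hkS.2 r), ?_⟩
    intro j hj v hvi hvj hjv
    rw [mem_insert] at hj
    have hji : j ≠ i := by
      have := hQ (mem_insert.2 hj)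
      exact (mem_erase.1 this).1
    rcases hj with rfl | hj
    · -- j = k
      unfold sh at hjv ⊢
      rcases hjv with h | h | h
      · exact absurd rfl h.2.1
      · left
        refine ⟨Or.inl rfl, hki, hvj, Or.inl ?_⟩
        have h5 := h.2.2.2.2
        rw [Equiv.swap_apply_right, Equiv.swap_apply_of_ne_of_ne hvi hvj] at h5
        exact h5
      · exact absurd ⟨Or.inl rfl, hji, hvi⟩ h.2.1
    · have hjk : j ≠ k := by rintro rfl; exact hk hj
      have h4' := h4 j hj
      by_cases hvk : v = k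
      · subst hvk
        unfold sh at hjv ⊢
        rcases hjv with h | h | h
        · exact absurd rfl h.2.2.1
        · right; right
          refine ⟨by tauto, by tauto, ?_⟩
          exact h4' v hvi hvj h.2.2.2.1
        · exact absurd ⟨Or.inr rfl, hji, hvi⟩ h.2.1
      · unfold sh at hjv ⊢
        rcases hjv with h | h | h
        · rcases h.1 with h' | h'
          · exact absurd h' hji
          · exact absurd h' hvi
        · rcases h.1 with h' | h'
          · exact absurd h' hjk
          · exact absurd h' hvk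
        · left
          exact ⟨Or.inl rfl, hki, hvk, Or.inl (h4' v hvi hvj h.2.2)⟩

lemma cl_erase_le (r : ℕ) (S : Finset V) (g : V → V → Prop) (i : V) (hi : i ∈ S) :
    (cl (r + 1) S g).card ≤ (cl (r + 1) (S.erase i) g).card + (cl r (S.erase i) g).card := by
  have h : cl (r + 1) S g ⊆ cl (r + 1) (S.erase i) g ∪ (cl r (S.erase i) g).image (insert i) := by
    intro s hs
    rw [mem_cl] at hs
    rw [mem_union, mem_image]
    by_cases his : i ∈ s
    · right
      refine ⟨s.erase i, ?_, insert_erase his⟩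
      rw [mem_cl]
      refine ⟨⟨?_, ?_⟩, ?_⟩
      · exact erase_subset_erase i hs.1.1
      · rw [card_erase_of_mem his, hs.1.2]; rfl
      · intro x hx y hy hxy
        exact hs.2 x (mem_of_mem_erase hx) y (mem_of_mem_erase hy) hxy
    · left
      rw [mem_cl]
      refine ⟨⟨?_, hs.1.2⟩, hs.2⟩
      intro x hx
      rw [mem_erase]
      refine ⟨?_, hs.1.1 hx⟩
      rintro rfl; exact his hx
  calc _ ≤ _ := card_le_card h
    _ ≤ _ := card_union_le _ _
    _ ≤ _ := Nat.add_le_add_left card_image_le _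

lemma cl_isolated_le (r : ℕ) (S : Finset V) (g : V → V → Prop) (w : V)
    (hw : ∀ v ∈ S, v ≠ w → ¬ g w v) :
    (cl (r + 2) S g).card ≤ (cl (r + 2) (S.erase w) g).card := by
  apply card_le_card
  intro s hs
  rw [mem_cl] at hs ⊢
  refine ⟨⟨?_, hs.1.2⟩, hs.2⟩
  intro x hx
  rw [mem_erase]
  refine ⟨?_, hs.1.1 hx⟩
  rintro rfl
  have : 1 < s.card := by rw [hs.1.2]; omega
  obtain ⟨y, hy, hyx⟩ := exists_mem_ne this x
  exact hw y (hs.1.1 hy) hyx (hs.2 x hx y hy hyx.symm)

lemma cl_one (S : Finset V) (g : V → V → Prop) : (cl 1 S g).card ≤ S.card := by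
  calc (cl 1 S g).card ≤ (S.powersetCard 1).card := card_le_card (filter_subset _ _)
    _ = S.card := by rw [card_powersetCard, Nat.choose_one_right]

/-- discrete state of a colour sequence: number of vertices, and for each colour the number of
vertices, edges, triangles. -/
structure Ds where
  n : ℕ
  ρ : Bool → ℕ
  e : Bool → ℕ
  t : Bool → ℕ

/-- add a vertex of colour `b` joined in colour `b` to all previous vertices. -/
def Ds.step (s : Ds) (b : Bool) : Ds where
  n := s.n + 1
  ρ := fun c => if c = b then s.ρ c + 1 else s.ρ c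
  e := fun c => if c = b then s.e c + s.n else s.e c
  t := fun c => if c = b then s.t c + s.e c else s.t c

/-- empty state -/
def Ds.zero : Ds := ⟨0, fun _ => 0, fun _ => 0, fun _ => 0⟩

/-- state of a colour list -/
def drun (s : Ds) (l : List Bool) : Ds := l.foldl (fun s b => s.step b) s

lemma drun_append (s : Ds) (l : List Bool) (b : Bool) : drun s (l ++ [b]) = (drun s l).step b := by
  unfold drun
  rw [List.foldl_append]; rfl

/-- reduction to threshold graphs -/
theorem exists_list (m : ℕ) : ∀ (S : Finset V), S.card = m → ∀ (g : V → V → Prop),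
    (∀ x y, g x y → g y x) → ∃ l : List Bool, l.length = m ∧ (drun Ds.zero l).n = m ∧
      (cl 2 S g).card ≤ (drun Ds.zero l).e true ∧ (cl 3 S g).card ≤ (drun Ds.zero l).t true ∧
      (cl 2 S (co g)).card ≤ (drun Ds.zero l).e false ∧
      (cl 3 S (co g)).card ≤ (drun Ds.zero l).t false := by
  induction m with
  | zero =>
    intro S hS g _
    have hS0 : S = ∅ := card_eq_zero.1 hS
    subst hS0
    refine ⟨[], rfl, rfl, ?_⟩
    have h : ∀ r (g' : V → V → Prop), (cl (r + 1) (∅ : Finset V) g').card = 0 := by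
      intro r g'
      rw [card_eq_zero]
      apply eq_empty_of_forall_notMem
      intro s hs
      rw [mem_cl] at hs
      have h1 : s = ∅ := subset_empty.1 hs.1.1
      have := hs.1.2
      rw [h1] at this
      simp at this
    refine ⟨?_, ?_, ?_, ?_⟩ <;> simp [h]
  | succ m ih =>
    intro S hS g hg
    have hne : S.Nonempty := card_pos.1 (by omega)
    obtain ⟨i, hi⟩ := hne
    obtain ⟨g1, hs1, hc1, hc2, hdom⟩ := exists_dom S i hi g hg (S.erase i) Subset.rfl
    by_cases hD : ∀ v ∈ S, v ≠ i → g1 i v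
    · -- dominating vertex
      obtain ⟨l, hl, hn, a1, a2, a3, a4⟩ := ih (S.erase i) (by rw [card_erase_of_mem hi, hS]; rfl)
        g1 hs1
      refine ⟨l ++ [true], by simp [hl], ?_, ?_, ?_, ?_, ?_⟩
      · rw [drun_append]; simp only [Ds.step]; omega
      · rw [drun_append]; simp only [Ds.step, if_true]
        have h1 := cl_erase_le 1 S g1 i hi
        simp only [Nat.reduceAdd] at h1
        have h2 := cl_one (S.erase i) g1
        rw [card_erase_of_mem hi, hS] at h2
        have h3 := hc1 2
        simp only [Nat.add_sub_cancel] at h2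
        omega
      · rw [drun_append]; simp only [Ds.step, if_true]
        have h1 := cl_erase_le 2 S g1 i hi
        simp only [Nat.reduceAdd] at h1
        have h3 := hc1 3
        omega
      · rw [drun_append]; simp only [Ds.step]
        have h1 := cl_isolated_le 0 S (co g1) i (fun v hv hvi h => h (hD v hv hvi))
        simp only [Nat.reduceAdd] at h1
        have h3 := hc2 2
        simp only [Bool.false_eq_true, if_false]
        omega
      · rw [drun_append]; simp only [Ds.step]
        have h1 := cl_isolated_le 1 S (co g1) i (fun v hv hvi h => h (hD v hv hvi))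
        simp only [Nat.reduceAdd] at h1
        have h3 := hc2 3
        simp only [Bool.false_eq_true, if_false]
        omega
    · push Not at hD
      obtain ⟨w, hw, hwi, hiw⟩ := hD
      have hiso : ∀ v ∈ S, v ≠ w → ¬ g1 w v := by
        intro v hv hvw h
        by_cases hvi : v = i
        · subst hvi; exact hiw (hs1 _ _ h)
        · exact hiw (hdom v (mem_erase.2 ⟨hvi, hv⟩) w hwi hvw.symm (hs1 _ _ h))
      obtain ⟨l, hl, hn, a1, a2, a3, a4⟩ := ih (S.erase w) (by rw [card_erase_of_mem hw, hS]; rfl)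
        g1 hs1
      refine ⟨l ++ [false], by simp [hl], ?_, ?_, ?_, ?_, ?_⟩
      · rw [drun_append]; simp only [Ds.step]; omega
      · rw [drun_append]; simp only [Ds.step]
        have h1 := cl_isolated_le 0 S g1 w hiso
        simp only [Nat.reduceAdd] at h1
        have h3 := hc1 2
        simp only [Bool.true_eq_false, if_false]
        omega
      · rw [drun_append]; simp only [Ds.step]
        have h1 := cl_isolated_le 1 S g1 w hiso
        simp only [Nat.reduceAdd] at h1
        have h3 := hc1 3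
        simp only [Bool.true_eq_false, if_false]
        omega
      · rw [drun_append]; simp only [Ds.step, if_true]
        have h1 := cl_erase_le 1 S (co g1) w hw
        simp only [Nat.reduceAdd] at h1
        have h2 := cl_one (S.erase w) (co g1)
        rw [card_erase_of_mem hw, hS] at h2
        have h3 := hc2 2
        simp only [Nat.add_sub_cancel] at h2
        omega
      · rw [drun_append]; simp only [Ds.step, if_true]
        have h1 := cl_erase_le 2 S (co g1) w hw
        simp only [Nat.reduceAdd] at h1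
        have h3 := hc2 3
        omega

end Pool.Agent.H616R3.Shift
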