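import Mathlib
import Pool.Agent.H616R3.Blocks
import Pool.Agent.H616R3.Shift

set_option autoImplicit false

/-! Comparison of the discrete and the continuous functional. -/

namespace Pool.Agent.H616R3.CrossFin

open Pool.Agent.H616R3.Opt Pool.Agent.H616R3.Shift

lemma cauchy_like (p p' E E' : ℝ) (hp : 0 < p) (hp' : 0 < p') (hE : 0 < E) (hE' : 0 < E') :
    (p + p' + 4 * p * p' / (p + p')) / (E + E') ≤ p / E + p' / E' := by
  rw [div_le_iff₀ (by positivity)]
  have h1 : (p / E + p' / E') * (E + E') = p + p' + (p * (E' / E) + p' * (E / E')) := by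
    field_simp; ring
  rw [h1]
  have h2 : 4 * p * p' / (p + p') ≤ p * (E' / E) + p' * (E / E') := by
    rw [div_le_iff₀ (by positivity)]
    have h3 : p * (E' / E) + p' * (E / E') = (p * E' ^ 2 + p' * E ^ 2) / (E * E') := by
      field_simp
    rw [h3, div_mul_eq_mul_div, le_div_iff₀ (by positivity)]
    nlinarith [sq_nonneg (p * E' - p' * E), mul_nonneg (mul_pos hp hp').le (sq_nonneg (E - E'))]
  linarith

lemma num_ineq (n m : ℝ) (hn : 100 ≤ n) (hm : 0 < m) (hm' : 4 * m ≤ n ^ 2) :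
    7 / n ≤ n / m + (4 * n - 6 + 16 * m / n) / (2 * n ^ 2 + 2 * m) := by
  have hn0 : 0 < n := by linarith
  have h1 : n / m + (4 * n - 6 + 16 * m / n) / (2 * n ^ 2 + 2 * m) - 7 / n =
      (2 * n ^ 4 - 8 * n ^ 2 * m - 6 * n * m + 2 * m ^ 2) / (2 * n * m * (n ^ 2 + m)) := by
    have : (2 * n ^ 2 + 2 * m) ≠ 0 := by positivity
    have : (n ^ 2 + m) ≠ 0 := by positivity
    field_simp
    ring
  have h2 : 0 ≤ 2 * n ^ 4 - 8 * n ^ 2 * m - 6 * n * m + 2 * m ^ 2 := by
    rcases le_total (3 * n) m with h | h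
    · nlinarith [mul_nonneg (sub_nonneg.2 h) hm.le, mul_nonneg (sub_nonneg.2 hm') (sq_nonneg n)]
    · have h3 : n ^ 2 - 4 * m ≥ 88 * n := by nlinarith
      have h4 : 2 * n ^ 2 * (n ^ 2 - 4 * m) ≥ 2 * n ^ 2 * (88 * n) := by
        have : 0 ≤ 2 * n ^ 2 := by positivity
        nlinarith
      have h5 : 6 * n * m ≤ 18 * n ^ 2 := by nlinarith
      nlinarith [sq_nonneg m, pow_pos hn0 3]
  have h3 : 0 ≤ (2 * n ^ 4 - 8 * n ^ 2 * m - 6 * n * m + 2 * m ^ 2) / (2 * n * m * (n ^ 2 + m)) := by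
    positivity
  linarith

/-- gain of one colour -/
lemma one_colour (ρ e t : ℝ) (hρ : 2 ≤ ρ) (h4 : 12 * t + ρ ^ 3 - ρ ≤ 6 * (ρ - 1) * e)
    (h5 : ρ ^ 2 - ρ ≤ 2 * e) (ht : 0 < t) :
    0 < 6 * e - ρ ^ 2 ∧
    1 / ρ + (4 * ρ - 1) / (6 * e - ρ ^ 2) ≤ (ρ * (ρ - 1) / 4 + e / 2 + ρ / 6) / t := by
  have hρ0 : 0 < ρ := by linarith
  have h6 : ρ ≤ 6 * e := by nlinarith
  have h7 : 12 * t ≤ ρ * (6 * e - ρ ^ 2) := by nlinarith
  have hE : 0 < 6 * e - ρ ^ 2 := by
    have : 0 < ρ * (6 * e - ρ ^ 2) := by linarith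
    exact (pos_iff_pos_of_mul_pos this).1 hρ0
  refine ⟨hE, ?_⟩
  have h8 : 1 / ρ + (4 * ρ - 1) / (6 * e - ρ ^ 2) =
      (12 * (ρ * (ρ - 1) / 4 + e / 2 + ρ / 6)) / (ρ * (6 * e - ρ ^ 2)) := by
    have := hE.ne'
    field_simp
    ring
  have h9 : (ρ * (ρ - 1) / 4 + e / 2 + ρ / 6) / t =
      (12 * (ρ * (ρ - 1) / 4 + e / 2 + ρ / 6)) / (12 * t) := by
    have := ht.ne'
    field_simp
  rw [h8, h9]
  have h10 : 0 ≤ 12 * (ρ * (ρ - 1) / 4 + e / 2 + ρ / 6) := by nlinarith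
  exact div_le_div_of_nonneg_left h10 (by linarith) h7

lemma pow_six (n : ℝ) (hn : 100 ≤ n) : n ^ 6 ≤ (1 + 7 / n) * (n * (n - 1) * (n - 2)) ^ 2 := by
  have hn0 : 0 < n := by linarith
  have e1 : (1 + 7 / n) * (n * (n - 1) * (n - 2)) ^ 2 =
      (n + 7) * n * ((n - 1) * (n - 2)) ^ 2 := by field_simp
  rw [e1]
  have e2 : n ^ 4 - 6 * n ^ 3 ≤ ((n - 1) * (n - 2)) ^ 2 := by
    have : ((n - 1) * (n - 2)) ^ 2 = n ^ 4 - 6 * n ^ 3 + (13 * n ^ 2 - 12 * n + 4) := by ring
    rw [this]; nlinarith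
  have e3 : (n + 7) * n * (n ^ 4 - 6 * n ^ 3) ≤ (n + 7) * n * ((n - 1) * (n - 2)) ^ 2 :=
    mul_le_mul_of_nonneg_left e2 (by positivity)
  have e4 : (n + 7) * n * (n ^ 4 - 6 * n ^ 3) = n ^ 6 + n ^ 4 * (n - 42) := by ring
  have e5 : 0 ≤ n ^ 4 * (n - 42) := by
    have : 0 ≤ n - 42 := by linarith
    positivity
  linarith

lemma final_num (n ρ ρ' e e' t t' : ℝ) (hn : 100 ≤ n) (hsum : ρ + ρ' = n)
    (he : 2 * (e + e') + n = n ^ 2) (hρ : 2 ≤ ρ) (hρ' : 2 ≤ ρ')
    (h4 : 12 * t + ρ ^ 3 - ρ ≤ 6 * (ρ - 1) * e) (h4' : 12 * t' + ρ' ^ 3 - ρ' ≤ 6 * (ρ' - 1) * e')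
    (h5 : ρ ^ 2 - ρ ≤ 2 * e) (h5' : ρ' ^ 2 - ρ' ≤ 2 * e') (ht : 0 < t) (ht' : 0 < t') :
    t * t' * n ^ 6 ≤ (t + (ρ * (ρ - 1) / 4 + e / 2 + ρ / 6)) *
      (t' + (ρ' * (ρ' - 1) / 4 + e' / 2 + ρ' / 6)) * (n * (n - 1) * (n - 2)) ^ 2 := by
  obtain ⟨hE, hx⟩ := one_colour ρ e t hρ h4 h5 ht
  obtain ⟨hE', hy⟩ := one_colour ρ' e' t' hρ' h4' h5' ht'
  set δ := ρ * (ρ - 1) / 4 + e / 2 + ρ / 6 with hδ
  set δ' := ρ' * (ρ' - 1) / 4 + e' / 2 + ρ' / 6 with hδ'
  set E := 6 * e - ρ ^ 2 with hEd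
  set E' := 6 * e' - ρ' ^ 2 with hEd'
  have hn0 : 0 < n := by linarith
  have hρ0 : 0 < ρ := by linarith
  have hρ0' : 0 < ρ' := by linarith
  set m := ρ * ρ' with hm
  have hm0 : 0 < m := by positivity
  have hm4 : 4 * m ≤ n ^ 2 := by
    rw [hm, ← hsum]; nlinarith [sq_nonneg (ρ - ρ')]
  have hEE : E + E' = 2 * n ^ 2 - 3 * n + 2 * m := by
    have : n ^ 2 = ρ ^ 2 + ρ' ^ 2 + 2 * m := by rw [hm, ← hsum]; ring
    rw [hEd, hEd']
    linarith
  have hc := cauchy_like (4 * ρ - 1) (4 * ρ' - 1) E E' (by linarith) (by linarith) hE hE'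
  have hpp : 4 * ρ - 1 + (4 * ρ' - 1) = 4 * n - 2 := by rw [← hsum]; ring
  rw [hpp] at hc
  have hq : 16 * m / n - 4 ≤ 4 * (4 * ρ - 1) * (4 * ρ' - 1) / (4 * n - 2) := by
    rw [le_div_iff₀ (by linarith)]
    have e1 : 4 * (4 * ρ - 1) * (4 * ρ' - 1) = 64 * m - 16 * n + 4 := by rw [hm, ← hsum]; ring
    rw [e1]
    have e2 : (16 * m / n - 4) * (4 * n - 2) = 64 * m - 16 * n - 32 * (m / n) + 8 := by
      field_simp; ring
    rw [e2]
    have e3 : 1 ≤ m / n := by
      rw [le_div_iff₀ hn0, hm, ← hsum]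
      nlinarith
    linarith
  have hnum : (0 : ℝ) ≤ 4 * n - 6 + 16 * m / n := by
    have : 0 ≤ 16 * m / n := by positivity
    linarith
  have hEEpos : 0 < E + E' := by linarith
  have h1 : (4 * n - 6 + 16 * m / n) / (2 * n ^ 2 + 2 * m) ≤
      (4 * n - 2 + 4 * (4 * ρ - 1) * (4 * ρ' - 1) / (4 * n - 2)) / (E + E') := by
    calc (4 * n - 6 + 16 * m / n) / (2 * n ^ 2 + 2 * m) ≤ (4 * n - 6 + 16 * m / n) / (E + E') :=
          div_le_div_of_nonneg_left hnum hEEpos (by rw [hEE]; linarith)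
      _ ≤ _ := by
        apply div_le_div_of_nonneg_right _ hEEpos.le
        linarith
  have h2 : 1 / ρ + 1 / ρ' = n / m := by
    rw [hm, ← hsum]; field_simp; ring
  have hxy : 7 / n ≤ δ / t + δ' / t' := by
    have := num_ineq n m hn hm0 hm4
    linarith
  have hδ0 : 0 ≤ δ / t := by
    have : 0 ≤ 1 / ρ + (4 * ρ - 1) / E := by
      have : 0 ≤ 4 * ρ - 1 := by linarith
      positivity
    linarith
  have hδ0' : 0 ≤ δ' / t' := by
    have : 0 ≤ 1 / ρ' + (4 * ρ' - 1) / E' := by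
      have : 0 ≤ 4 * ρ' - 1 := by linarith
      positivity
    linarith
  have h3 : (t + δ) * (t' + δ') = t * t' * ((1 + δ / t) * (1 + δ' / t')) := by
    field_simp
  rw [h3]
  have h4 : 1 + 7 / n ≤ (1 + δ / t) * (1 + δ' / t') := by
    have g1 : (1 + δ / t) * (1 + δ' / t') = 1 + (δ / t + δ' / t') + δ / t * (δ' / t') := by ring
    rw [g1]
    have := mul_nonneg hδ0 hδ0'
    linarith
  have h5 := pow_six n hn
  calc t * t' * n ^ 6 ≤ t * t' * ((1 + 7 / n) * (n * (n - 1) * (n - 2)) ^ 2) := by gcongr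
    _ ≤ t * t' * (((1 + δ / t) * (1 + δ' / t')) * (n * (n - 1) * (n - 2)) ^ 2) := by gcongr
    _ = _ := by ring

lemma run_append (s : St) (l : List (Bool × ℝ)) (p : Bool × ℝ) :
    run s (l ++ [p]) = (run s l).step p.1 p.2 := by
  unfold run
  rw [List.foldl_append]; rfl

/-- relation of the discrete and the continuous state -/
lemma rel (l : List Bool) :
    (run St.zero (l.map (fun b => (b, (1 : ℝ))))).X = ((drun Ds.zero l).n : ℝ) ∧
    (∀ c, (run St.zero (l.map (fun b => (b, (1 : ℝ))))).e c =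
      ((drun Ds.zero l).e c : ℝ) + ((drun Ds.zero l).ρ c : ℝ) / 2) ∧
    (∀ c, (run St.zero (l.map (fun b => (b, (1 : ℝ))))).a c = ((drun Ds.zero l).t c : ℝ) +
      (((drun Ds.zero l).ρ c : ℝ) * (((drun Ds.zero l).ρ c : ℝ) - 1) / 4 +
        ((drun Ds.zero l).e c : ℝ) / 2 + ((drun Ds.zero l).ρ c : ℝ) / 6)) := by
  induction l using List.reverseRecOn with
  | nil => simp [run, drun, St.zero, Ds.zero]
  | append_singleton l b ih =>
    obtain ⟨h1, h2, h3⟩ := ih
    rw [List.map_append, List.map_cons, List.map_nil, run_append, drun_append]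
    refine ⟨?_, ?_, ?_⟩
    · simp only [St.step, Ds.step]; rw [h1]; push_cast; ring
    · intro c
      simp only [St.step, Ds.step]
      by_cases hc : c = b
      · simp only [hc, if_true]
        rw [h1, h2]; push_cast; ring
      · simp only [hc, if_false]
        rw [h2]
    · intro c
      simp only [St.step, Ds.step]
      by_cases hc : c = b
      · simp only [hc, if_true]
        rw [h1, h2, h3]; push_cast; ring
      · simp only [hc, if_false]
        rw [h3]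

/-- invariants of the discrete state -/
lemma inv (l : List Bool) :
    (drun Ds.zero l).ρ true + (drun Ds.zero l).ρ false = (drun Ds.zero l).n ∧
    (2 * (((drun Ds.zero l).e true : ℝ) + ((drun Ds.zero l).e false : ℝ)) +
      ((drun Ds.zero l).n : ℝ) = ((drun Ds.zero l).n : ℝ) ^ 2) ∧
    (∀ c, 2 * ((drun Ds.zero l).e c : ℝ) + ((drun Ds.zero l).ρ c : ℝ) ^ 2 +
      ((drun Ds.zero l).ρ c : ℝ) ≤ 2 * ((drun Ds.zero l).ρ c : ℝ) * ((drun Ds.zero l).n : ℝ)) ∧
    (∀ c, 12 * ((drun Ds.zero l).t c : ℝ) + ((drun Ds.zero l).ρ c : ℝ) ^ 3 -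
      ((drun Ds.zero l).ρ c : ℝ) ≤
      6 * (((drun Ds.zero l).ρ c : ℝ) - 1) * ((drun Ds.zero l).e c : ℝ)) ∧
    (∀ c, ((drun Ds.zero l).ρ c : ℝ) ^ 2 - ((drun Ds.zero l).ρ c : ℝ) ≤
      2 * ((drun Ds.zero l).e c : ℝ)) ∧
    (∀ c, (drun Ds.zero l).ρ c ≤ (drun Ds.zero l).n) ∧
    (∀ c, (drun Ds.zero l).ρ c ≤ 1 → (drun Ds.zero l).t c = 0) ∧
    (∀ c, (drun Ds.zero l).ρ c = 0 → (drun Ds.zero l).e c = 0) := by
  induction l using List.reverseRecOn with
  | nil => simp [drun, Ds.zero]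
  | append_singleton l b ih =>
    obtain ⟨h1, h2, h3, h4, h5, h6, h7, h8⟩ := ih
    rw [drun_append]
    generalize drun Ds.zero l = s at *
    refine ⟨?_, ?_, ?_, ?_, ?_, ?_, ?_, ?_⟩
    · cases b
      · simp only [Ds.step]; simp; omega
      · simp only [Ds.step]; simp; omega
    · cases b
      · simp only [Ds.step]; simp; linarith
      · simp only [Ds.step]; simp; linarith
    · intro c
      have := h3 c
      simp only [Ds.step]
      by_cases hc : c = b
      · simp only [hc, if_true] at this ⊢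
        push_cast; nlinarith
      · simp only [hc, if_false]
        push_cast
        have h0 : (0 : ℝ) ≤ (s.ρ c : ℝ) := Nat.cast_nonneg _
        nlinarith
    · intro c
      have g3 := h3 c
      have g4 := h4 c
      simp only [Ds.step]
      by_cases hc : c = b
      · simp only [hc, if_true] at g3 g4 ⊢
        push_cast
        have h0 : (0 : ℝ) ≤ (s.ρ b : ℝ) := Nat.cast_nonneg _
        nlinarith
      · simp only [hc, if_false]
        exact g4
    · intro c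
      have g5 := h5 c
      have g6 : (s.ρ c : ℝ) ≤ (s.n : ℝ) := by exact_mod_cast h6 c
      simp only [Ds.step]
      by_cases hc : c = b
      · simp only [hc, if_true] at g5 g6 ⊢
        push_cast; nlinarith
      · simp only [hc, if_false]
        exact g5
    · intro c
      have g6 := h6 c
      simp only [Ds.step]
      by_cases hc : c = b
      · simp only [hc, if_true] at g6 ⊢
        omega
      · simp only [hc, if_false]
        omega
    · intro c
      simp only [Ds.step]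
      by_cases hc : c = b
      · simp only [hc, if_true]
        intro h
        have e0 : s.ρ b = 0 := by omega
        rw [h7 b (by omega), h8 b e0]
      · simp only [hc, if_false]
        exact h7 c
    · intro c
      simp only [Ds.step]
      by_cases hc : c = b
      · simp only [hc, if_true]
        intro h; omega
      · simp only [hc, if_false]
        exact h8 c

/-- the inequality for colour lists -/
theorem list_ineq (l : List Bool) (n : ℕ) (hn : (drun Ds.zero l).n = n) (hl : l.length = n)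
    (h100 : 100 ≤ n) :
    36 * (((drun Ds.zero l).t true : ℝ) * ((drun Ds.zero l).t false : ℝ)) ≤
      Γ * ((n : ℝ) * ((n : ℝ) - 1) * ((n : ℝ) - 2)) ^ 2 := by
  obtain ⟨i1, i2, _, i4, i5, _, i7, _⟩ := inv l
  obtain ⟨_, _, r3⟩ := rel l
  have hΓ := Γ_nonneg
  have hn100 : (100 : ℝ) ≤ n := by exact_mod_cast h100
  rcases Nat.eq_zero_or_pos ((drun Ds.zero l).t true) with h0 | h0
  · rw [h0]; push_cast; rw [zero_mul, mul_zero]; positivity
  rcases Nat.eq_zero_or_pos ((drun Ds.zero l).t false) with h0' | h0'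
  · rw [h0']; push_cast; rw [mul_zero, mul_zero]; positivity
  have hρ : 2 ≤ (drun Ds.zero l).ρ true := by
    by_contra hcon
    have := i7 true (by omega)
    omega
  have hρ' : 2 ≤ (drun Ds.zero l).ρ false := by
    by_contra hcon
    have := i7 false (by omega)
    omega
  have hopt := opt (l.map (fun b => (b, (1 : ℝ)))).length (l.map (fun b => (b, (1 : ℝ)))) rfl (by
    intro p hp
    rw [List.mem_map] at hp
    obtain ⟨b, _, rfl⟩ := hp
    exact zero_le_one) true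
  have hsum : ((l.map (fun b => (b, (1 : ℝ)))).map Prod.snd).sum = (n : ℝ) := by
    rw [List.map_map]
    have : (Prod.snd ∘ fun b : Bool => (b, (1 : ℝ))) = fun _ => (1 : ℝ) := by funext b; rfl
    rw [this, List.map_const', List.sum_replicate, hl]
    simp
  rw [hsum, r3, r3, Bool.not_true] at hopt
  have hfin := final_num (n : ℝ) ((drun Ds.zero l).ρ true) ((drun Ds.zero l).ρ false)
    ((drun Ds.zero l).e true) ((drun Ds.zero l).e false) ((drun Ds.zero l).t true)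
    ((drun Ds.zero l).t false) hn100 (by rw [← hn]; exact_mod_cast i1)
    (by rw [← hn]; exact i2) (by exact_mod_cast hρ) (by exact_mod_cast hρ')
    (i4 true) (i4 false) (i5 true) (i5 false) (by exact_mod_cast h0) (by exact_mod_cast h0')
  have hnpos : (0 : ℝ) < (n : ℝ) ^ 6 := by positivity
  set P := ((n : ℝ) * ((n : ℝ) - 1) * ((n : ℝ) - 2)) ^ 2 with hP
  have hP0 : 0 ≤ P := by positivity
  have h1 : 36 * (((drun Ds.zero l).t true : ℝ) * ((drun Ds.zero l).t false : ℝ)) * (n : ℝ) ^ 6 ≤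
      (Γ * P) * (n : ℝ) ^ 6 := by
    calc _ = 36 * ((((drun Ds.zero l).t true : ℝ) * ((drun Ds.zero l).t false : ℝ)) * (n : ℝ) ^ 6) := by
          ring
      _ ≤ 36 * _ := mul_le_mul_of_nonneg_left hfin (by norm_num)
      _ = (36 * _) * P := by rw [← mul_assoc]
      _ ≤ (Γ * (n : ℝ) ^ 6) * P := mul_le_mul_of_nonneg_right hopt hP0
      _ = _ := by ring
  exact le_of_mul_le_mul_right h1 hnpos

end Pool.Agent.H616R3.CrossFin
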