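import Mathlib

set_option autoImplicit false

/-! Up-compression of union-closed families (Reimer), in integer form. -/

namespace Pool.Agent.H616R3

open Finset

variable {α : Type*} [DecidableEq α]

/-- union-closed -/
def UC (F : Finset (Finset α)) : Prop := ∀ A ∈ F, ∀ B ∈ F, A ∪ B ∈ F

/-- image of a member under the up-compression in direction `i` -/
def ustep (i : α) (F : Finset (Finset α)) (A : Finset α) : Finset α :=
  if insert i A ∈ F then A else insert i A

/-- the compressed family -/
def fstep (i : α) (F : Finset (Finset α)) : Finset (Finset α) := F.image (ustep i F)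

lemma mem_fstep {i : α} {F : Finset (Finset α)} {C : Finset α} :
    C ∈ fstep i F ↔ (i ∈ C ∧ ∃ A ∈ F, insert i A = C) ∨ (i ∉ C ∧ C ∈ F ∧ insert i C ∈ F) := by
  unfold fstep ustep
  simp only [mem_image]
  constructor
  · rintro ⟨A, hA, h⟩
    split_ifs at h with h1
    · subst h
      by_cases hi : i ∈ A
      · left; exact ⟨hi, A, hA, insert_eq_of_mem hi⟩
      · right; exact ⟨hi, hA, h1⟩
    · left
      subst h
      exact ⟨mem_insert_self _ _, A, hA, rfl⟩
  · rintro (⟨hi, A, hA, rfl⟩ | ⟨hi, hC, hC'⟩)
    · by_cases h1 : insert i A ∈ F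
      · exact ⟨insert i A, h1, by rw [if_pos]; simpa using h1⟩
      · exact ⟨A, hA, by rw [if_neg h1]⟩
    · exact ⟨C, hC, by rw [if_pos hC']⟩

lemma ustep_injOn (i : α) (F : Finset (Finset α)) : Set.InjOn (ustep i F) (F : Set (Finset α)) := by
  intro A hA B hB h
  have hA' : A ∈ F := hA
  have hB' : B ∈ F := hB
  unfold ustep at h
  split_ifs at h with h1 h2 h2
  · exact h
  · rw [h] at hA'; exact absurd hA' h2
  · rw [← h] at hB'; exact absurd hB' h1
  · have hiA : i ∉ A := fun hi => h1 (by rw [insert_eq_of_mem hi]; exact hA')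
    have hiB : i ∉ B := fun hi => h2 (by rw [insert_eq_of_mem hi]; exact hB')
    have := congrArg (fun s => s.erase i) h
    simpa [erase_insert hiA, erase_insert hiB] using this

lemma subset_ustep (i : α) (F : Finset (Finset α)) (A : Finset α) : A ⊆ ustep i F A := by
  unfold ustep; split_ifs
  · exact Subset.rfl
  · exact subset_insert _ _

lemma ustep_subset (i : α) (F : Finset (Finset α)) (A : Finset α) : ustep i F A ⊆ insert i A := by
  unfold ustep; split_ifs
  · exact subset_insert _ _
  · exact Subset.rfl

lemma UC.fstep {F : Finset (Finset α)} (hF : UC F) (i : α) : UC (fstep i F) := by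
  intro C hC C' hC'
  have h1 : ∃ A ∈ F, insert i A = insert i C := by
    rcases mem_fstep.1 hC with ⟨hi, A, hA, h⟩ | ⟨hi, hC, h⟩
    · exact ⟨A, hA, by rw [h, insert_eq_of_mem hi]⟩
    · exact ⟨C, hC, rfl⟩
  have h2 : ∃ A ∈ F, insert i A = insert i C' := by
    rcases mem_fstep.1 hC' with ⟨hi, A, hA, h⟩ | ⟨hi, hC, h⟩
    · exact ⟨A, hA, by rw [h, insert_eq_of_mem hi]⟩
    · exact ⟨C', hC, rfl⟩
  by_cases hi : i ∈ C ∪ C'
  · obtain ⟨A, hA, hA'⟩ := h1
    obtain ⟨B, hB, hB'⟩ := h2
    rw [mem_fstep]
    left
    refine ⟨hi, A ∪ B, hF A hA B hB, ?_⟩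
    have : insert i (A ∪ B) = insert i A ∪ insert i B := by
      ext x; simp only [mem_insert, mem_union]; tauto
    rw [this, hA', hB']
    have : insert i C ∪ insert i C' = insert i (C ∪ C') := by
      ext x; simp only [mem_insert, mem_union]; tauto
    rw [this, insert_eq_of_mem hi]
  · have hiC : i ∉ C := fun h => hi (mem_union_left _ h)
    have hiC' : i ∉ C' := fun h => hi (mem_union_right _ h)
    rcases mem_fstep.1 hC with ⟨hi', _⟩ | ⟨_, hCF, hCi⟩
    · exact absurd hi' hiC
    rcases mem_fstep.1 hC' with ⟨hi', _⟩ | ⟨_, hCF', _⟩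
    · exact absurd hi' hiC'
    rw [mem_fstep]
    right
    refine ⟨hi, hF C hCF C' hCF', ?_⟩
    have : insert i (C ∪ C') = insert i C ∪ C' := by
      ext x; simp only [mem_insert, mem_union]; tauto
    rw [this]
    exact hF _ hCi _ hCF'

/-- closure under adding `j` -/
def Up (j : α) (F : Finset (Finset α)) : Prop := ∀ A ∈ F, insert j A ∈ F

lemma Up.fstep {F : Finset (Finset α)} {j : α} (hF : Up j F) (i : α) : Up j (fstep i F) := by
  intro C hC
  rcases mem_fstep.1 hC with ⟨hi, A, hA, h⟩ | ⟨hi, hC', h⟩
  · rw [mem_fstep]
    left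
    refine ⟨mem_insert_of_mem hi, insert j A, hF A hA, ?_⟩
    rw [← h, insert_comm]
  · rw [mem_fstep]
    by_cases hij : i = j
    · subst hij
      left
      exact ⟨mem_insert_self _ _, insert i C, h, by simp⟩
    · right
      refine ⟨by simp [hij, hi], hF C hC', ?_⟩
      rw [insert_comm]
      exact hF _ h

lemma up_fstep (F : Finset (Finset α)) (i : α) : Up i (fstep i F) := by
  intro C hC
  rw [mem_fstep]
  left
  refine ⟨mem_insert_self _ _, ?_⟩
  rcases mem_fstep.1 hC with ⟨hi, A, hA, h⟩ | ⟨hi, hC', h⟩
  · exact ⟨A, hA, by rw [h, insert_eq_of_mem hi]⟩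
  · exact ⟨C, hC', rfl⟩

/-- iterated compression: the map -/
def cmap : List α → Finset (Finset α) → Finset α → Finset α
  | [], _, A => A
  | i :: l, F, A => cmap l (fstep i F) (ustep i F A)

/-- iterated compression: the family -/
def cfam : List α → Finset (Finset α) → Finset (Finset α)
  | [], F => F
  | i :: l, F => cfam l (fstep i F)

lemma cfam_eq (l : List α) (F : Finset (Finset α)) : cfam l F = F.image (cmap l F) := by
  induction l generalizing F with
  | nil => simp [cfam, cmap]
  | cons i l ih =>
    rw [cfam, ih, fstep, image_image]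
    rfl

lemma subset_cmap (l : List α) (F : Finset (Finset α)) (A : Finset α) : A ⊆ cmap l F A := by
  induction l generalizing F A with
  | nil => simp [cmap]
  | cons i l ih => exact (subset_ustep i F A).trans (ih _ _)

lemma cmap_subset (l : List α) (F : Finset (Finset α)) (A V : Finset α) (hA : A ⊆ V)
    (hl : ∀ i ∈ l, i ∈ V) : cmap l F A ⊆ V := by
  induction l generalizing F A with
  | nil => simpa [cmap] using hA
  | cons i l ih =>
    apply ih
    · exact (ustep_subset i F A).trans (insert_subset (hl i (by simp)) hA)
    · intro j hj; exact hl j (by simp [hj])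

lemma cmap_injOn (l : List α) (F : Finset (Finset α)) :
    Set.InjOn (cmap l F) (F : Set (Finset α)) := by
  induction l generalizing F with
  | nil => intro A _ B _ h; simpa [cmap] using h
  | cons i l ih =>
    intro A hA B hB h
    have hA1 : ustep i F A ∈ fstep i F := mem_image_of_mem _ hA
    have hB1 : ustep i F B ∈ fstep i F := mem_image_of_mem _ hB
    have := ih (fstep i F) hA1 hB1 h
    exact ustep_injOn i F hA hB this

lemma Up.cfam {F : Finset (Finset α)} {j : α} (hF : Up j F) (l : List α) : Up j (cfam l F) := by
  induction l generalizing F with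
  | nil => exact hF
  | cons i l ih => exact ih (hF.fstep i)

lemma up_cfam (l : List α) (F : Finset (Finset α)) (j : α) (hj : j ∈ l) : Up j (cfam l F) := by
  induction l generalizing F with
  | nil => simp at hj
  | cons i l ih =>
    rcases List.mem_cons.1 hj with rfl | hj
    · exact (up_fstep F j).cfam l
    · exact ih _ hj

/-- no member strictly between `A` and its compression -/
lemma key_interval (l : List α) (F : Finset (Finset α)) (hF : UC F) (A D : Finset α) (hA : A ∈ F)
    (hD : D ∈ F) (h1 : A ⊆ D) (h2 : D ⊆ cmap l F A) : D = A := by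
  induction l generalizing F A D with
  | nil => exact Subset.antisymm (by simpa [cmap] using h2) h1
  | cons i l ih =>
    rw [cmap] at h2
    by_cases hi : insert i A ∈ F
    · have hu : ustep i F A = A := by rw [ustep, if_pos hi]
      have hiD : insert i D ∈ F := by
        have : insert i D = insert i A ∪ D := by
          ext x; simp only [mem_insert, mem_union]
          constructor
          · rintro (h | h) <;> tauto
          · rintro ((h | h) | h)
            · tauto
            · right; exact h1 h
            · tauto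
        rw [this]; exact hF _ hi _ hD
      have hD1 : D ∈ fstep i F := by
        rw [mem_fstep]
        by_cases h : i ∈ D
        · left; exact ⟨h, D, hD, insert_eq_of_mem h⟩
        · right; exact ⟨h, hD, hiD⟩
      have hA1 : A ∈ fstep i F := by
        rw [mem_fstep]
        by_cases h : i ∈ A
        · left; exact ⟨h, A, hA, insert_eq_of_mem h⟩
        · right; exact ⟨h, hA, hi⟩
      rw [hu] at h2
      exact ih (fstep i F) (hF.fstep i) A D hA1 hD1 h1 h2
    · have hu : ustep i F A = insert i A := by rw [ustep, if_neg hi]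
      rw [hu] at h2
      have hiA : i ∉ A := fun h => hi (by rw [insert_eq_of_mem h]; exact hA)
      have hD1 : insert i D ∈ fstep i F := by
        rw [mem_fstep]; left; exact ⟨mem_insert_self _ _, D, hD, rfl⟩
      have hA1 : insert i A ∈ fstep i F := by
        rw [mem_fstep]; left; exact ⟨mem_insert_self _ _, A, hA, rfl⟩
      have h3 : insert i D ⊆ cmap l (fstep i F) (insert i A) :=
        insert_subset (subset_cmap l _ _ (mem_insert_self _ _)) h2
      have h4 := ih (fstep i F) (hF.fstep i) (insert i A) (insert i D) hA1 hD1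
        (insert_subset_insert _ h1) h3
      by_cases h : i ∈ D
      · rw [insert_eq_of_mem h] at h4
        rw [h4] at hD
        exact absurd hD hi
      · have := congrArg (fun s => s.erase i) h4
        simpa [erase_insert h, erase_insert hiA] using this

lemma interval_disjoint (l : List α) (F : Finset (Finset α)) (hF : UC F) (A B C : Finset α)
    (hA : A ∈ F) (hB : B ∈ F) (hAC : A ⊆ C) (hC : C ⊆ cmap l F A) (hBC : B ⊆ C)
    (hC' : C ⊆ cmap l F B) : A = B := by
  have h1 := key_interval l F hF A (A ∪ B) hA (hF _ hA _ hB) subset_union_left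
    ((union_subset hAC hBC).trans hC)
  have h2 := key_interval l F hF B (A ∪ B) hB (hF _ hA _ hB) subset_union_right
    ((union_subset hAC hBC).trans hC')
  rw [← h1, h2]

end Pool.Agent.H616R3
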