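import Mathlib
import Pool.Agent.H616R3.Reimer

set_option autoImplicit false

/-! Weight inequalities for union-closed families. -/

namespace Pool.Agent.H616R3

open Finset

/-- the maximal number of edges of the hypercube spanned by `N` vertices -/
def E : ℕ → ℕ
  | 0 => 0
  | 1 => 0
  | (n + 2) => E ((n + 2) / 2) + E ((n + 3) / 2) + (n + 2) / 2
decreasing_by all_goals omega

lemma E_zero : E 0 = 0 := by rw [E]
lemma E_one : E 1 = 0 := by rw [E]

lemma E_even (x : ℕ) : E (2 * x) = 2 * E x + x := by
  rcases x with _ | x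
  · simp [E_zero]
  · have h1 : 2 * (x + 1) = 2 * x + 2 := by ring
    rw [h1, E]
    have h2 : (2 * x + 2) / 2 = x + 1 := by omega
    have h3 : (2 * x + 3) / 2 = x + 1 := by omega
    rw [h2, h3]; ring

lemma E_odd (x : ℕ) : E (2 * x + 1) = E x + E (x + 1) + x := by
  rcases x with _ | x
  · simp [E_zero, E_one]
  · have h1 : 2 * (x + 1) + 1 = (2 * x + 1) + 2 := by ring
    rw [h1, E]
    have h2 : (2 * x + 1 + 2) / 2 = x + 1 := by omega
    have h3 : (2 * x + 1 + 3) / 2 = x + 2 := by omega
    rw [h2, h3]

lemma E_super_aux (t : ℕ) : ∀ a b : ℕ, a + b ≤ t → E a + E b + min a b ≤ E (a + b) := by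
  induction t using Nat.strong_induction_on with
  | _ t ih =>
    intro a b hab
    rcases Nat.even_or_odd' a with ⟨x, rfl | rfl⟩ <;> rcases Nat.even_or_odd' b with ⟨y, rfl | rfl⟩
    · by_cases h0 : x + y = 0
      · have hx : x = 0 := by omega
        have hy : y = 0 := by omega
        subst hx; subst hy; simp [E_zero]
      · have := ih (x + y) (by omega) x y le_rfl
        rw [← mul_add, E_even, E_even, E_even]
        omega
    · by_cases h0 : x + y = 0
      · have hx : x = 0 := by omega
        have hy : y = 0 := by omega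
        subst hx; subst hy; simp [E_zero]
      · have h1 := ih (x + y) (by omega) x y le_rfl
        have h2 := ih (x + (y + 1)) (by omega) x (y + 1) le_rfl
        have h3 : 2 * x + (2 * y + 1) = 2 * (x + y) + 1 := by ring
        rw [h3, E_even, E_odd, E_odd]
        have h4 : x + (y + 1) = x + y + 1 := by ring
        rw [h4] at h2
        omega
    · by_cases h0 : x + y = 0
      · have hx : x = 0 := by omega
        have hy : y = 0 := by omega
        subst hx; subst hy; simp [E_zero]
      · have h1 := ih (x + y) (by omega) x y le_rfl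
        have h2 := ih (x + 1 + y) (by omega) (x + 1) y le_rfl
        have h3 : 2 * x + 1 + 2 * y = 2 * (x + y) + 1 := by ring
        rw [h3, E_even, E_odd, E_odd]
        have h4 : x + 1 + y = x + y + 1 := by ring
        rw [h4] at h2
        omega
    · have h1 := ih (x + (y + 1)) (by omega) x (y + 1) le_rfl
      have h2 := ih (x + 1 + y) (by omega) (x + 1) y le_rfl
      have h3 : 2 * x + 1 + (2 * y + 1) = 2 * (x + y + 1) := by ring
      rw [h3, E_even, E_odd, E_odd]
      have h4 : x + 1 + y = x + y + 1 := by ring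
      have h5 : x + (y + 1) = x + y + 1 := by ring
      rw [h4] at h2
      rw [h5] at h1
      omega

lemma E_super (a b : ℕ) : E a + E b + min a b ≤ E (a + b) := E_super_aux (a + b) a b le_rfl

lemma E_chord (k : ℕ) : ∀ N : ℕ, 2 ^ k ≤ N → N ≤ 2 ^ (k + 1) →
    2 * E N + 2 ^ (k + 1) ≤ N * (k + 2) := by
  induction k with
  | zero =>
    intro N h1 h2
    norm_num at h1 h2
    have : N = 1 ∨ N = 2 := by omega
    rcases this with rfl | rfl
    · simp [E_one]
    · have : E 2 = 1 := by
        have := E_even 1
        simpa [E_one] using this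
      rw [this]
      norm_num
  | succ k ih =>
    intro N h1 h2
    rcases Nat.even_or_odd' N with ⟨x, rfl | rfl⟩
    · have hx1 : 2 ^ k ≤ x := by rw [pow_succ] at h1; omega
      have hx2 : x ≤ 2 ^ (k + 1) := by rw [pow_succ] at h2; omega
      have := ih x hx1 hx2
      rw [E_even, pow_succ 2 (k + 1)]
      nlinarith
    · have hx1 : 2 ^ k ≤ x := by rw [pow_succ] at h1; omega
      have hx2 : x + 1 ≤ 2 ^ (k + 1) := by rw [pow_succ] at h2; omega
      have h3 := ih x hx1 (by omega)
      have h4 := ih (x + 1) (by omega) hx2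
      rw [E_odd, pow_succ 2 (k + 1)]
      nlinarith

variable {α : Type*} [DecidableEq α]

/-- edge-isoperimetry for up-sets -/
lemma iso (V : Finset α) : ∀ U : Finset (Finset α), (∀ B ∈ U, B ⊆ V) → (∀ v ∈ V, Up v U) →
    ∑ B ∈ U, (V \ B).card ≤ E U.card := by
  induction V using Finset.induction_on with
  | empty =>
    intro U _ _
    simp
  | insert v V hv ih =>
    intro U hU hup
    -- lower part and upper part
    set U0 := U.filter (fun B => v ∉ B) with hU0
    set U1 := U.filter (fun B => v ∈ B) with hU1
    set U1' := U1.image (fun B => B.erase v) with hU1'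
    have hinj : Set.InjOn (fun B : Finset α => B.erase v) (U1 : Set (Finset α)) := by
      intro A hA B hB h
      have hA' : v ∈ A := by
        have : A ∈ U1 := hA
        simp only [hU1, mem_filter] at this; exact this.2
      have hB' : v ∈ B := by
        have : B ∈ U1 := hB
        simp only [hU1, mem_filter] at this; exact this.2
      have h' : A.erase v = B.erase v := h
      rw [← insert_erase hA', ← insert_erase hB', h']
    have hcard1 : U1'.card = U1.card := card_image_of_injOn hinj
    have hsum : U.card = U1.card + U0.card := by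
      rw [hU1, hU0]; exact (card_filter_add_card_filter_not _).symm
    have h0sub : U0 ⊆ U1' := by
      intro B hB
      simp only [hU0, mem_filter] at hB
      rw [hU1', mem_image]
      refine ⟨insert v B, ?_, erase_insert hB.2⟩
      simp only [hU1, mem_filter]
      exact ⟨hup v (mem_insert_self _ _) B hB.1, mem_insert_self _ _⟩
    have h0le : U0.card ≤ U1.card := by rw [← hcard1]; exact card_le_card h0sub
    have ih0 := ih U0 (by
      intro B hB
      simp only [hU0, mem_filter] at hB
      intro x hx
      rcases mem_insert.1 (hU B hB.1 hx) with rfl | h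
      · exact absurd hx hB.2
      · exact h) (by
      intro w hw B hB
      simp only [hU0, mem_filter] at hB ⊢
      refine ⟨hup w (mem_insert_of_mem hw) B hB.1, ?_⟩
      rw [mem_insert]
      rintro (rfl | h)
      · exact hv hw
      · exact hB.2 h)
    have ih1 := ih U1' (by
      intro B hB
      rw [hU1', mem_image] at hB
      obtain ⟨A, hA, rfl⟩ := hB
      simp only [hU1, mem_filter] at hA
      intro x hx
      rw [mem_erase] at hx
      rcases mem_insert.1 (hU A hA.1 hx.2) with rfl | h
      · exact absurd rfl hx.1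
      · exact h) (by
      intro w hw B hB
      rw [hU1', mem_image] at hB
      obtain ⟨A, hA, rfl⟩ := hB
      simp only [hU1, mem_filter] at hA
      rw [hU1', mem_image]
      refine ⟨insert w A, ?_, ?_⟩
      · simp only [hU1, mem_filter]
        exact ⟨hup w (mem_insert_of_mem hw) A hA.1, mem_insert_of_mem hA.2⟩
      · have hwv : w ≠ v := by rintro rfl; exact hv hw
        show (insert w A).erase v = insert w (A.erase v)
        rw [erase_insert_of_ne hwv])
    have hs1 : ∑ B ∈ U1', (V \ B).card = ∑ B ∈ U1, (insert v V \ B).card := by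
      rw [hU1', sum_image hinj]
      apply sum_congr rfl
      intro B hB
      simp only [hU1, mem_filter] at hB
      congr 1
      ext x
      simp only [mem_sdiff, mem_erase, mem_insert]
      constructor
      · rintro ⟨h1, h2⟩
        refine ⟨Or.inr h1, fun h => h2 ⟨?_, h⟩⟩
        rintro rfl; exact hv h1
      · rintro ⟨h1, h2⟩
        rcases h1 with rfl | h1
        · exact absurd hB.2 h2
        · exact ⟨h1, fun h => h2 h.2⟩
    have hs0 : ∑ B ∈ U0, (insert v V \ B).card = ∑ B ∈ U0, (V \ B).card + U0.card := by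
      rw [card_eq_sum_ones, ← sum_add_distrib]
      apply sum_congr rfl
      intro B hB
      simp only [hU0, mem_filter] at hB
      rw [insert_sdiff_of_notMem _ hB.2, card_insert_of_notMem]
      simp [hv]
    have htot : ∑ B ∈ U, (insert v V \ B).card =
        ∑ B ∈ U1, (insert v V \ B).card + ∑ B ∈ U0, (insert v V \ B).card := by
      rw [hU1, hU0]; exact (sum_filter_add_sum_filter_not _ _ _).symm
    have hE := E_super U1.card U0.card
    rw [min_eq_right h0le, ← hsum] at hE
    rw [htot, hs0, ← hs1]
    rw [hcard1] at ih1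
    omega

lemma two_pow_convex (c d : ℕ) : 2 ^ c * (d + 1) ≤ 2 ^ d + 2 ^ c * c := by
  rcases le_total c d with h | h
  · obtain ⟨e, rfl⟩ := Nat.exists_eq_add_of_le h
    have h1 : e + 1 ≤ 2 ^ e := Nat.lt_two_pow_self
    rw [pow_add]
    nlinarith [Nat.pos_of_ne_zero (pow_ne_zero c (two_ne_zero))]
  · rcases Nat.lt_or_ge d c with h1 | h1
    · have : 2 ^ c * (d + 1) ≤ 2 ^ c * c := Nat.mul_le_mul_left _ h1
      exact le_trans this (Nat.le_add_left _ _)
    · have : c = d := le_antisymm h1 h
      subst this
      nlinarith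

/-- general weight inequality: compress `F`, look at a subfamily `F'` whose intervals miss `2^n - R`
points. -/
lemma interval_sum (V : Finset α) (F : Finset (Finset α)) (hF : UC F)
    (F' : Finset (Finset α)) (hF' : F' ⊆ F) (P : Finset (Finset α))
    (hP : ∀ A ∈ F', ∀ C, A ⊆ C → C ⊆ cmap V.toList F A → C ∈ P) :
    ∑ A ∈ F', 2 ^ ((cmap V.toList F A).card - A.card) ≤ P.card := by
  have h1 : ∀ A ∈ F', 2 ^ ((cmap V.toList F A).card - A.card) =
      (Icc A (cmap V.toList F A)).card := by
    intro A _
    rw [card_Icc_finset (subset_cmap _ _ _)]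
  rw [sum_congr rfl h1, ← card_biUnion]
  · apply card_le_card
    intro C hC
    rw [mem_biUnion] at hC
    obtain ⟨A, hA, hC⟩ := hC
    rw [mem_Icc] at hC
    exact hP A hA C hC.1 hC.2
  · intro A hA B hB hAB
    rw [Function.onFun, disjoint_left]
    intro C hC hC'
    rw [mem_Icc] at hC hC'
    exact hAB (interval_disjoint _ F hF A B C (hF' hA) (hF' hB) hC.1 hC.2 hC'.1 hC'.2)

/-- weight of a union-closed family (integer form of Reimer's theorem). -/
lemma weight_uc (V : Finset α) (F : Finset (Finset α)) (hF : UC F) (hFV : ∀ A ∈ F, A ⊆ V)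
    (k : ℕ) (hk' : 2 ^ k ≤ F.card) :
    F.card * (k + 2) ≤ ∑ A ∈ F, A.card + 2 ^ (k + 1) + E F.card := by
  set φ := cmap V.toList F with hφ
  have hsub : ∀ A ∈ F, φ A ⊆ V := fun A hA => cmap_subset _ _ _ _ (hFV A hA) (by simp)
  have hle : ∀ A, A.card ≤ (φ A).card := fun A => card_le_card (subset_cmap _ _ _)
  have hint := interval_sum V F hF F Subset.rfl V.powerset (by
    intro A hA C _ hC
    exact mem_powerset.2 (hC.trans (hsub A hA)))
  rw [card_powerset, ← hφ] at hint
  have hcardle : F.card ≤ 2 ^ V.card := by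
    rw [← card_powerset]
    exact card_le_card (fun A hA => mem_powerset.2 (hFV A hA))
  have hkn : k + 1 ≤ V.card + 1 := by
    have : 2 ^ k ≤ 2 ^ V.card := hk'.trans hcardle
    have := (Nat.pow_le_pow_iff_right (by norm_num : 1 < 2)).1 this
    omega
  -- the case k = |V|
  have hw : ∑ A ∈ F, (V.card - (φ A).card) ≤ E F.card := by
    have h1 : (F.image φ).card = F.card := card_image_of_injOn (cmap_injOn _ _)
    have h2 := iso V (F.image φ) (by
      intro B hB
      obtain ⟨A, hA, rfl⟩ := mem_image.1 hB
      exact hsub A hA) (by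
      intro v hv
      rw [hφ, ← cfam_eq]
      exact up_cfam _ _ _ (by simpa using hv))
    rw [h1, sum_image (cmap_injOn _ _)] at h2
    refine le_trans (le_of_eq ?_) h2
    apply sum_congr rfl
    intro A hA
    rw [card_sdiff_of_subset (hsub A hA)]
  have hT : ∑ A ∈ F, A.card + ∑ A ∈ F, ((φ A).card - A.card) +
      ∑ A ∈ F, (V.card - (φ A).card) = F.card * V.card := by
    rw [← sum_add_distrib, ← sum_add_distrib, ← smul_eq_mul, ← sum_const]
    apply sum_congr rfl
    intro A hA
    have h1 := hle A
    have h2 : (φ A).card ≤ V.card := card_le_card (hsub A hA)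
    omega
  rcases Nat.lt_or_ge k V.card with hkV | hkV
  · obtain ⟨c, hc⟩ := Nat.exists_eq_add_of_lt hkV
    have h3 : ∑ A ∈ F, 2 ^ c * (((φ A).card - A.card) + 1) ≤
        ∑ A ∈ F, (2 ^ ((φ A).card - A.card) + 2 ^ c * c) :=
      sum_le_sum (fun A _ => two_pow_convex c _)
    rw [← mul_sum, sum_add_distrib, sum_add_distrib, sum_const, sum_const] at h3
    simp only [smul_eq_mul, mul_one] at h3
    have h4 : 2 ^ V.card = 2 ^ c * 2 ^ (k + 1) := by rw [← pow_add, hc]; congr 1; ring
    rw [h4] at hint
    have h5 : 2 ^ c * (∑ A ∈ F, ((φ A).card - A.card) + F.card) ≤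
        2 ^ c * (2 ^ (k + 1) + F.card * c) := by
      calc _ ≤ _ := h3
        _ ≤ 2 ^ c * 2 ^ (k + 1) + F.card * (2 ^ c * c) := by omega
        _ = _ := by ring
    have h6 := Nat.le_of_mul_le_mul_left h5 (by positivity)
    have h7 : F.card * V.card = F.card * (k + 1) + F.card * c := by rw [hc]; ring
    have h8 : F.card * (k + 2) = F.card * (k + 1) + F.card := by ring
    omega
  · -- then F is everything
    have hkV' : k = V.card := by omega
    have h9 : ∑ A ∈ F, ((φ A).card - A.card) + F.card ≤ 2 ^ k := by
      rw [hkV']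
      refine le_trans ?_ hint
      rw [card_eq_sum_ones, ← sum_add_distrib]
      exact sum_le_sum (fun A _ => Nat.lt_two_pow_self)
    have h7 : F.card * V.card = F.card * k := by rw [hkV']
    have h8 : F.card * (k + 2) = F.card * k + 2 * F.card := by ring
    have h10 : 2 ^ (k + 1) = 2 * 2 ^ k := by ring
    have h11 : F.card ≤ 2 ^ k := by rw [hkV']; exact hcardle
    omega

/-- weight of a union-closed family without its top element. -/
lemma weight_top (V : Finset α) (F : Finset (Finset α)) (hF : UC F) (hFV : ∀ A ∈ F, A ⊆ V)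
    (hV : V ∈ F) (k : ℕ) (hk' : 2 ^ k ≤ (F.erase V).card) :
    (F.erase V).card * (k + 2) + 1 ≤
      ∑ A ∈ F.erase V, A.card + 2 ^ (k + 1) + E ((F.erase V).card + 1) := by
  set φ := cmap V.toList F with hφ
  have hsub : ∀ A ∈ F, φ A ⊆ V := fun A hA => cmap_subset _ _ _ _ (hFV A hA) (by simp)
  have hle : ∀ A, A.card ≤ (φ A).card := fun A => card_le_card (subset_cmap _ _ _)
  have hφV : φ V = V := Subset.antisymm (hsub V hV) (subset_cmap _ _ _)
  have hsub' : ∀ A ∈ F.erase V, φ A ⊆ V := fun A hA => hsub A (mem_of_mem_erase hA)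
  have hne : ∀ A ∈ F.erase V, φ A ≠ V := by
    intro A hA h
    have : A = V := cmap_injOn V.toList F (mem_of_mem_erase hA) hV (by rw [← hφ, hφV]; exact h)
    exact (mem_erase.1 hA).1 this
  have hint := interval_sum V F hF (F.erase V) (erase_subset _ _) (V.powerset.erase V) (by
    intro A hA C _ hC
    rw [mem_erase]
    refine ⟨?_, mem_powerset.2 (hC.trans (hsub' A hA))⟩
    rintro rfl
    exact hne A hA (Subset.antisymm (hsub' A hA) hC))
  rw [card_erase_of_mem (mem_powerset.2 Subset.rfl), card_powerset, ← hφ] at hint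
  set m := (F.erase V).card with hm
  have hFcard : F.card = m + 1 := by
    rw [hm, card_erase_of_mem hV]
    have : 0 < F.card := card_pos.2 ⟨V, hV⟩
    omega
  have hcardle : m + 1 ≤ 2 ^ V.card := by
    rw [← card_powerset, ← hFcard]
    exact card_le_card (fun A hA => mem_powerset.2 (hFV A hA))
  have hkV : k < V.card := by
    have : 2 ^ k < 2 ^ V.card := by omega
    exact (Nat.pow_lt_pow_iff_right (by norm_num : 1 < 2)).1 this
  have hw : ∑ A ∈ F.erase V, (V.card - (φ A).card) ≤ E (m + 1) := by
    have h1 : (F.image φ).card = F.card := card_image_of_injOn (cmap_injOn _ _)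
    have h2 := iso V (F.image φ) (by
      intro B hB
      obtain ⟨A, hA, rfl⟩ := mem_image.1 hB
      exact hsub A hA) (by
      intro v hv
      rw [hφ, ← cfam_eq]
      exact up_cfam _ _ _ (by simpa using hv))
    rw [h1, sum_image (cmap_injOn _ _), hFcard] at h2
    refine le_trans ?_ h2
    refine le_trans (le_of_eq ?_) (sum_le_sum_of_subset (erase_subset V F))
    apply sum_congr rfl
    intro A hA
    rw [card_sdiff_of_subset (hsub' A hA)]
  have hT : ∑ A ∈ F.erase V, A.card + ∑ A ∈ F.erase V, ((φ A).card - A.card) +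
      ∑ A ∈ F.erase V, (V.card - (φ A).card) = m * V.card := by
    rw [← sum_add_distrib, ← sum_add_distrib, hm, ← smul_eq_mul, ← sum_const]
    apply sum_congr rfl
    intro A hA
    have h1 := hle A
    have h2 : (φ A).card ≤ V.card := card_le_card (hsub' A hA)
    omega
  obtain ⟨c, hc⟩ := Nat.exists_eq_add_of_lt hkV
  have h3 : ∑ A ∈ F.erase V, 2 ^ c * (((φ A).card - A.card) + 1) ≤
      ∑ A ∈ F.erase V, (2 ^ ((φ A).card - A.card) + 2 ^ c * c) :=
    sum_le_sum (fun A _ => two_pow_convex c _)
  rw [← mul_sum, sum_add_distrib, sum_add_distrib, sum_const, sum_const] at h3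
  simp only [smul_eq_mul, mul_one, ← hm] at h3
  have h4 : 2 ^ V.card = 2 ^ c * 2 ^ (k + 1) := by rw [← pow_add, hc]; congr 1; ring
  rw [h4] at hint
  have hpos : 0 < 2 ^ c * 2 ^ (k + 1) := by positivity
  have h5 : 2 ^ c * (∑ A ∈ F.erase V, ((φ A).card - A.card) + m) <
      2 ^ c * (2 ^ (k + 1) + m * c) := by
    calc _ ≤ _ := h3
      _ < 2 ^ c * 2 ^ (k + 1) + m * (2 ^ c * c) := by omega
      _ = _ := by ring
  have h6 := Nat.lt_of_mul_lt_mul_left h5
  have h7 : m * V.card = m * (k + 1) + m * c := by rw [hc]; ring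
  have h8 : m * (k + 2) = m * (k + 1) + m := by ring
  omega

end Pool.Agent.H616R3
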