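import Mathlib
import Pool.Agent.H616R3.Weight

set_option autoImplicit false

/-! Numerical part of the proof of Wojcik's conjecture. -/

namespace Pool.Agent.H616R3

/-- fuel version of `E` -/
def Ef : ℕ → ℕ → ℕ
  | 0, _ => 0
  | (f + 1), n => if n ≤ 1 then 0 else Ef f (n / 2) + Ef f ((n + 1) / 2) + n / 2

lemma Ef_eq (f : ℕ) : ∀ n, n ≤ 2 ^ f → Ef f n = E n := by
  induction f with
  | zero =>
    intro n hn
    have : n = 0 ∨ n = 1 := by norm_num at hn; omega
    rcases this with rfl | rfl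
    · rw [Ef, E]
    · rw [Ef, E]
  | succ f ih =>
    intro n hn
    rw [pow_succ] at hn
    rcases n with _ | _ | n
    · rw [Ef, E]; simp
    · rw [Ef, E]; simp
    · rw [Ef, E, if_neg (by omega), ih _ (by omega), ih _ (by omega)]

/-- table of `E` -/
def Etab : List ℕ := [0,0,1,2,4,5,7,9,12,13,15,17,20,22,25,28,32,33,35,37,40,42,45,48,52,54,57,60,
  64,67,71,75,80,81,83,85,88,90,93,96,100,102,105,108,112,115,119,123,128,130,133,136,140,143,147,
  151,156,159,163,167,172,176,181,186,192]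

lemma Etab_eq : ∀ N < 65, Etab.getD N 0 = E N := by
  have h : ∀ N < 65, Etab.getD N 0 = Ef 6 N := by decide +kernel
  intro N hN
  rw [h N hN, Ef_eq 6 N (by norm_num; omega)]

/-- lower bound for the weight used in the finite check -/
def T0 (k m s : ℕ) : ℕ := max ((s * (s - 1) + 1) / 2) (m * (k + 2) + 1 - 2 ^ (k + 1) - Etab.getD (m + 1) 0)

/-- Boolean form of the finite check -/
def chk (k m n r : ℕ) : Bool :=
  !(decide (2 ^ k ≤ m) && decide (m < 2 ^ (k + 1)) && decide (2 * r < k) && decide (r ≤ n) &&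
    decide (n - r ≤ m) && decide (m + 1 ≤ 2 ^ (n - r))) ||
  (List.range 6).any (fun k' =>
    decide ((k' * 2 ^ k' + 2 * n) * (m + 1) ≤ 2 * (T0 k m (n - r) + n + r) * (2 ^ k' + 1)))

lemma chk_all : ∀ k < 6, ∀ m < 64, ∀ n < 27, ∀ r < 3, chk k m n r = true := by
  decide +kernel

lemma finite_check (k : ℕ) (hk : k < 6) (m : ℕ) (hm : m < 64) (n : ℕ) (hn : n < 27) (r : ℕ)
    (hr : r < 3)
    (h : 2 ^ k ≤ m ∧ m < 2 ^ (k + 1) ∧ 2 * r < k ∧ r ≤ n ∧ n - r ≤ m ∧ m + 1 ≤ 2 ^ (n - r)) :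
    ∃ k' < 6, (k' * 2 ^ k' + 2 * n) * (m + 1) ≤ 2 * (T0 k m (n - r) + n + r) * (2 ^ k' + 1) := by
  have hc := chk_all k hk m hm n hn r hr
  obtain ⟨h1, h2, h3, h4, h5, h6⟩ := h
  unfold chk at hc
  rw [decide_eq_true h1, decide_eq_true h2, decide_eq_true h3, decide_eq_true h4,
    decide_eq_true h5, decide_eq_true h6] at hc
  simp only [Bool.and_self, Bool.not_true, Bool.false_or, List.any_eq_true, List.mem_range,
    decide_eq_true_eq] at hc
  exact hc

lemma case1 (k m n T2 : ℕ) (h0 : 2 ^ k ≤ m) (h0' : m < 2 ^ (k + 1))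
    (h1 : m * (k + 2) ≤ T2 + 2 ^ (k + 1)) :
    ∃ k', (k' * 2 ^ k' + 2 * n) * (m + 1) ≤ (T2 + 2 * n) * (2 ^ k' + 1) := by
  obtain ⟨j, rfl⟩ := Nat.exists_eq_add_of_le h0
  set K := 2 ^ k with hK
  have hK1 : 2 ^ (k + 1) = 2 * K := by rw [pow_succ, mul_comm]
  rw [hK1] at h1 h0'
  have hT : k * K + j * (k + 2) ≤ T2 := by nlinarith
  rcases le_total (2 * n) (2 * K + k + 2) with h | h
  · refine ⟨k, ?_⟩
    rw [← hK]
    have h2 : (k * K + 2 * n) * j ≤ j * (k + 2) * (K + 1) := by nlinarith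
    calc (k * K + 2 * n) * (K + j + 1) = (k * K + 2 * n) * (K + 1) + (k * K + 2 * n) * j := by ring
      _ ≤ (k * K + 2 * n) * (K + 1) + j * (k + 2) * (K + 1) := by omega
      _ = (k * K + j * (k + 2) + 2 * n) * (K + 1) := by ring
      _ ≤ _ := by gcongr
  · refine ⟨k + 1, ?_⟩
    rw [hK1]
    obtain ⟨i, hi⟩ := Nat.exists_eq_add_of_lt (show j < K by omega)
    -- K = j + i + 1
    have h2 : (i + 1) * (k + 2) * (2 * K + 1) ≤ (i + 1) * ((k + 1) * (2 * K) + 2 * n) := by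
      rw [mul_assoc]
      gcongr
      nlinarith
    have h3 : (k + 1) * (2 * K) ≤ T2 + (i + 1) * (k + 2) := by
      have : (k + 1) * (2 * K) = k * K + j * (k + 2) + (i + 1) * (k + 2) := by
        rw [show (k + 1) * (2 * K) = k * K + K * (k + 2) by ring]
        conv_lhs => rw [show K * (k + 2) = (j + i + 1) * (k + 2) by rw [← hi]]
        ring
      omega
    have h4 : ((k + 1) * (2 * K) + 2 * n) * (K + j + 1) + (i + 1) * ((k + 1) * (2 * K) + 2 * n) =
        ((k + 1) * (2 * K) + 2 * n) * (2 * K + 1) := by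
      have : K + j + 1 + (i + 1) = 2 * K + 1 := by omega
      rw [← this]; ring
    have h5 : ((k + 1) * (2 * K) + 2 * n) * (2 * K + 1) ≤
        (T2 + 2 * n) * (2 * K + 1) + (i + 1) * (k + 2) * (2 * K + 1) := by
      calc _ ≤ (T2 + (i + 1) * (k + 2) + 2 * n) * (2 * K + 1) := by gcongr
        _ = _ := by ring
    omega

lemma pow_small (k : ℕ) (hk : 6 ≤ k) : 5 * k + 2 ≤ 2 ^ (k - 1) := by
  obtain ⟨j, rfl⟩ := Nat.exists_eq_add_of_le hk
  induction j with
  | zero => norm_num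
  | succ j ih =>
    have h1 : 6 + (j + 1) - 1 = (6 + j - 1) + 1 := by omega
    rw [h1, pow_succ]
    have := ih (by omega)
    omega

lemma case2 (k m n r T : ℕ) (h0 : 2 ^ k ≤ m) (h0' : m < 2 ^ (k + 1)) (hr : r ≤ n)
    (h1 : m * (k + 2) + 1 ≤ T + 2 ^ (k + 1) + E (m + 1))
    (h2 : (n - r) * (n - r - 1) ≤ 2 * T) (h3 : n - r ≤ m) (h4 : m + 1 ≤ 2 ^ (n - r)) :
    ∃ k', (k' * 2 ^ k' + 2 * n) * (m + 1) ≤ 2 * (T + n + r) * (2 ^ k' + 1) := by
  have hch := E_chord k (m + 1) (by omega) (by omega)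
  have hT : m * (k + 2) ≤ 2 * T + k + 2 ^ (k + 1) := by nlinarith
  rcases Nat.lt_or_ge (2 * r) k with hrk | hrk
  swap
  · obtain ⟨k', hk'⟩ := case1 k m n (2 * T + 2 * r) h0 h0' (by omega)
    refine ⟨k', hk'.trans (le_of_eq (by ring))⟩
  obtain ⟨c, rfl⟩ : ∃ c, k = c + 1 := ⟨k - 1, by omega⟩
  rcases Nat.lt_or_ge (2 ^ c) n with hn | hn
  swap
  · -- n ≤ 2^c
    refine ⟨c, ?_⟩
    obtain ⟨j, rfl⟩ := Nat.exists_eq_add_of_le h0
    have hc : c + 1 ≤ 2 ^ c := Nat.lt_two_pow_self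
    have e1 : 2 ^ (c + 1) = 2 * 2 ^ c := by ring
    have e2 : 2 ^ (c + 1 + 1) = 4 * 2 ^ c := by ring
    rw [e2, e1] at hT
    rw [e1]
    generalize 2 ^ c = K at *
    have hT2 : (2 * K + j) * (c + 3) + 2 * n ≤ (2 * T + 2 * n + 2 * r) + (c + 1) + 4 * K := by
      have : (2 * K + j) * (c + 1 + 2) = (2 * K + j) * (c + 3) := by ring
      omega
    have hA : (c * K + 2 * n) * (2 * K + j + 1) + ((c + 1) + 4 * K) * (K + 1) ≤
        ((2 * K + j) * (c + 3) + 2 * n) * (K + 1) := by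
      zify at *
      nlinarith [mul_nonneg (show (0 : ℤ) ≤ (K : ℤ) - n by linarith)
        (show (0 : ℤ) ≤ (K : ℤ) + j by positivity), mul_nonneg (show (0 : ℤ) ≤ (j : ℤ) by positivity)
        (show (0 : ℤ) ≤ (K : ℤ) by positivity), mul_nonneg (show (0 : ℤ) ≤ (j : ℤ) by positivity)
        (show (0 : ℤ) ≤ (c : ℤ) by positivity)]
    have hB : ((2 * K + j) * (c + 3) + 2 * n) * (K + 1) ≤
        ((2 * T + 2 * n + 2 * r) + (c + 1) + 4 * K) * (K + 1) := by gcongr
    have hC : ((2 * T + 2 * n + 2 * r) + (c + 1) + 4 * K) * (K + 1) =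
        2 * (T + n + r) * (K + 1) + ((c + 1) + 4 * K) * (K + 1) := by ring
    omega
  rcases Nat.lt_or_ge n (5 * (c + 1) + 2) with hn5 | hn5
  · -- finite check
    have hk6 : c + 1 < 6 := by
      by_contra hcon
      have := pow_small (c + 1) (by omega)
      simp only [Nat.add_sub_cancel] at this
      omega
    have hm64 : m < 64 := by
      have : 2 ^ (c + 1 + 1) ≤ 2 ^ 6 := Nat.pow_le_pow_right (by norm_num) (by omega)
      norm_num at this
      omega
    obtain ⟨k', _, hk'⟩ := finite_check (c + 1) hk6 m hm64 n (by omega) r (by omega)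
      ⟨h0, h0', hrk, hr, h3, h4⟩
    refine ⟨k', hk'.trans ?_⟩
    have hT0 : T0 (c + 1) m (n - r) ≤ T := by
      unfold T0
      rw [Etab_eq (m + 1) (by omega)]
      apply max_le
      · omega
      · omega
    gcongr
  · -- large n
    refine ⟨c + 1, ?_⟩
    have e1 : 2 ^ (c + 1) = 2 * 2 ^ c := by ring
    have e2 : 2 ^ (c + 1 + 1) = 4 * 2 ^ c := by ring
    rw [e2] at h0'
    rw [e1]
    have key : (c + 1) * (4 * 2 ^ c) + 2 * n ≤ 2 * T := by
      have hs : 1 ≤ n - r := by omega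
      obtain ⟨s, hs'⟩ : ∃ s, n - r = s + 1 := ⟨n - r - 1, by omega⟩
      rw [hs'] at h2
      simp only [Nat.add_sub_cancel] at h2
      have hns : n = s + 1 + r := by omega
      refine le_trans ?_ h2
      have h6 : 2 * n ≤ 2 * s + 2 + c := by omega
      generalize 2 ^ c = K at *
      have hK : K + 1 ≤ n := hn
      have h7 : (c + 1) * (4 * K) ≤ (c + 1) * (4 * (n - 1)) := by gcongr; omega
      obtain ⟨n', rfl⟩ : ∃ n', n = n' + 1 := ⟨n - 1, by omega⟩
      simp only [Nat.add_sub_cancel] at h7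
      nlinarith
    generalize 2 ^ c = K at *
    have h8 : m + 1 ≤ 4 * K := by omega
    calc ((c + 1) * (2 * K) + 2 * n) * (m + 1) ≤ ((c + 1) * (2 * K) + 2 * n) * (4 * K) := by gcongr
      _ = ((c + 1) * (4 * K) + 2 * n + 2 * n) * (2 * K) := by ring
      _ ≤ (2 * T + 2 * n) * (2 * K) := by gcongr
      _ ≤ 2 * (T + n + r) * (2 * K + 1) := by nlinarith

end Pool.Agent.H616R3
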