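import Mathlib
import Pool.Agent.H616R3.WojNum

set_option autoImplicit false

/-! Main combinatorial bound. -/

namespace Pool.Agent.H616R3

open Finset

variable {α : Type*} [DecidableEq α]

/-- if the traces on `S` are pairwise distinct and `S` is minimal with this property then the
trace family has weight at least `C(s,2)` below its top. -/
lemma chain_bound (S : Finset α) (G : Finset (Finset α)) (hG : UC G) (hGS : ∀ A ∈ G, A ⊆ S)
    (hedge : ∀ a ∈ S, ∃ A ∈ G, a ∉ A ∧ insert a A ∈ G) :
    S.card * (S.card - 1) ≤ 2 * ∑ A ∈ G.erase S, A.card ∧ S.card ≤ (G.erase S).card := by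
  classical
  -- M x = union of all members avoiding x
  let M : α → Finset α := fun x => (G.filter (fun A => x ∉ A)).sup id
  have hM1 : ∀ x, x ∉ M x := by
    intro x hx
    simp only [M, Finset.mem_sup, mem_filter, id] at hx
    obtain ⟨A, ⟨_, hA⟩, hxA⟩ := hx
    exact hA hxA
  have hM2 : ∀ x, ∀ A ∈ G, x ∉ A → A ⊆ M x := by
    intro x A hA hx
    exact Finset.le_sup (f := id) (mem_filter.2 ⟨hA, hx⟩)
  have hM3 : ∀ x ∈ S, M x ∈ G := by
    intro x hx
    obtain ⟨A, hA, hxA, _⟩ := hedge x hx
    have hne : (G.filter (fun A => x ∉ A)).Nonempty := ⟨A, mem_filter.2 ⟨hA, hxA⟩⟩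
    have := Finset.sup'_mem (s := (G : Set (Finset α))) (fun a ha b hb => hG a ha b hb) _ hne id
      (fun i hi => (mem_filter.1 hi).1)
    rw [Finset.sup'_eq_sup] at this
    exact this
  have hM4 : ∀ x ∈ S, M x ∈ G.erase S := by
    intro x hx
    rw [mem_erase]
    refine ⟨?_, hM3 x hx⟩
    intro h
    exact hM1 x (by rw [h]; exact hx)
  have hsep : ∀ x ∈ S, ∀ y ∈ S, x ≠ y → y ∈ M x ∨ x ∈ M y := by
    intro x hx y _ hxy
    by_contra hcon
    push Not at hcon
    obtain ⟨A, hA, hxA, hxA'⟩ := hedge x hx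
    have h1 : y ∉ A := fun h => hcon.1 (hM2 x A hA hxA h)
    have h2 : y ∉ insert x A := by
      rw [mem_insert]; push Not; exact ⟨hxy.symm, h1⟩
    exact hcon.2 (hM2 y _ hxA' h2 (mem_insert_self _ _))
  have hinj : Set.InjOn M (S : Set α) := by
    intro x hx y hy h
    by_contra hne
    rcases hsep x hx y hy hne with h1 | h1
    · rw [h] at h1; exact hM1 y h1
    · rw [← h] at h1; exact hM1 x h1
  have himg : S.image M ⊆ G.erase S := by
    intro B hB
    obtain ⟨x, hx, rfl⟩ := mem_image.1 hB
    exact hM4 x hx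
  refine ⟨?_, ?_⟩
  · have h1 : ∑ x ∈ S, (M x).card ≤ ∑ A ∈ G.erase S, A.card := by
      rw [← sum_image (f := fun A : Finset α => A.card) hinj]
      exact sum_le_sum_of_subset himg
    have h2 : S.offDiag.card ≤ 2 * ∑ x ∈ S, (M x).card := by
      have h3 : S.offDiag ⊆ (S ×ˢ S).filter (fun p => p.2 ∈ M p.1) ∪
          (S ×ˢ S).filter (fun p => p.1 ∈ M p.2) := by
        intro p hp
        rw [mem_offDiag] at hp
        rw [mem_union, mem_filter, mem_filter, mem_product]
        rcases hsep p.1 hp.1 p.2 hp.2.1 hp.2.2 with h | h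
        · left; exact ⟨⟨hp.1, hp.2.1⟩, h⟩
        · right; exact ⟨⟨hp.1, hp.2.1⟩, h⟩
      have hle : ∀ x ∈ S, (S.filter (fun y => y ∈ M x)).card ≤ (M x).card := by
        intro x _
        apply card_le_card
        intro y hy
        exact (mem_filter.1 hy).2
      have h4 : ((S ×ˢ S).filter (fun p : α × α => p.2 ∈ M p.1)).card ≤ ∑ x ∈ S, (M x).card := by
        have : ((S ×ˢ S).filter (fun p : α × α => p.2 ∈ M p.1)).card =
            ∑ x ∈ S, (S.filter (fun y => y ∈ M x)).card := by
          simp only [card_filter, sum_product]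
        rw [this]
        exact sum_le_sum hle
      have h5 : ((S ×ˢ S).filter (fun p : α × α => p.1 ∈ M p.2)).card ≤ ∑ x ∈ S, (M x).card := by
        have : ((S ×ˢ S).filter (fun p : α × α => p.1 ∈ M p.2)).card =
            ∑ x ∈ S, (S.filter (fun y => y ∈ M x)).card := by
          simp only [card_filter]
          rw [sum_product_right]
        rw [this]
        exact sum_le_sum hle
      calc S.offDiag.card ≤ _ := card_le_card h3
        _ ≤ _ := card_union_le _ _
        _ ≤ 2 * ∑ x ∈ S, (M x).card := by omega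
    rw [offDiag_card] at h2
    have h6 : S.card * (S.card - 1) = S.card * S.card - S.card := by
      rw [Nat.mul_sub, mul_one]
    omega
  · calc S.card = (S.image M).card := (card_image_of_injOn hinj).symm
      _ ≤ _ := card_le_card himg

/-- existence of a minimal separating set. -/
lemma exists_min_sep (V : Finset α) (F : Finset (Finset α)) (hFV : ∀ A ∈ F, A ⊆ V) :
    ∃ S ⊆ V, Set.InjOn (fun A => A ∩ S) (F : Set (Finset α)) ∧
      ∀ a ∈ S, ∃ A ∈ F, ∃ B ∈ F, a ∉ A ∧ a ∈ B ∧ B ∩ S = insert a (A ∩ S) := by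
  classical
  let P : Finset (Finset α) := V.powerset.filter
    (fun S => Set.InjOn (fun A => A ∩ S) (F : Set (Finset α)))
  have hP : P.Nonempty := by
    refine ⟨V, mem_filter.2 ⟨mem_powerset.2 Subset.rfl, ?_⟩⟩
    intro A hA B hB h
    simp only at h
    rwa [inter_eq_left.2 (hFV A hA), inter_eq_left.2 (hFV B hB)] at h
  obtain ⟨S, hS, hmin⟩ := exists_min_image P card hP
  rw [mem_filter, mem_powerset] at hS
  refine ⟨S, hS.1, hS.2, ?_⟩
  intro a ha
  have hnot : ¬ Set.InjOn (fun A => A ∩ S.erase a) (F : Set (Finset α)) := by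
    intro h
    have := hmin (S.erase a) (mem_filter.2 ⟨mem_powerset.2 ((erase_subset _ _).trans hS.1), h⟩)
    have := card_erase_lt_of_mem ha
    omega
  unfold Set.InjOn at hnot
  push Not at hnot
  obtain ⟨A, hA, B, hB, h1, hne⟩ := hnot
  have hne' : A ∩ S ≠ B ∩ S := fun h => hne (hS.2 hA hB h)
  have hiff : ∀ x, x ≠ a → (x ∈ A ∩ S ↔ x ∈ B ∩ S) := by
    intro x hx
    have := Finset.ext_iff.1 h1 x
    simp only [mem_inter, mem_erase] at this ⊢
    tauto
  have hmem : ¬ (a ∈ A ↔ a ∈ B) := by
    intro h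
    apply hne'
    ext x
    by_cases hx : x = a
    · subst hx
      simp only [mem_inter, ha, and_true]; exact h
    · exact hiff x hx
  by_cases haA : a ∈ A
  · have haB : a ∉ B := fun h => hmem ⟨fun _ => h, fun _ => haA⟩
    refine ⟨B, hB, A, hA, haB, haA, ?_⟩
    ext x
    by_cases hx : x = a
    · subst hx; simp [haA, ha]
    · rw [hiff x hx, mem_insert]; tauto
  · have haB : a ∈ B := by
      by_contra h; exact hmem ⟨fun h' => absurd h' haA, fun h' => absurd h' h⟩
    refine ⟨A, hA, B, hB, haA, haB, ?_⟩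
    ext x
    by_cases hx : x = a
    · subst hx; simp [haB, ha]
    · rw [← hiff x hx, mem_insert]; tauto

/-- the main bound -/
theorem main_bound (V : Finset α) (F : Finset (Finset α)) (hF : UC F) (hFV : ∀ A ∈ F, A ⊆ V)
    (hV : V ∈ F) :
    ∃ k', (k' * 2 ^ k' + 2 * V.card) * F.card ≤ 2 * (∑ A ∈ F, A.card) * (2 ^ k' + 1) := by
  classical
  have hFcard : F.card = (F.erase V).card + 1 := by
    rw [card_erase_of_mem hV]
    have : 0 < F.card := card_pos.2 ⟨V, hV⟩
    omega
  have hsumF : ∑ A ∈ F, A.card = ∑ A ∈ F.erase V, A.card + V.card := by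
    rw [sum_erase_add _ _ hV]
  rcases Nat.eq_zero_or_pos (F.erase V).card with hm | hm
  · refine ⟨0, ?_⟩
    rw [hFcard, hm, hsumF]
    nlinarith [Nat.zero_le (∑ A ∈ F.erase V, A.card)]
  set m := (F.erase V).card with hmdef
  set k := Nat.log 2 m with hk
  have h0 : 2 ^ k ≤ m := Nat.pow_log_le_self 2 (by omega)
  have h0' : m < 2 ^ (k + 1) := Nat.lt_pow_succ_log_self (by norm_num) m
  by_cases hUC : UC (F.erase V)
  · -- the family without the top is union-closed
    have h1 := weight_uc V (F.erase V) hUC (fun A hA => hFV A (mem_of_mem_erase hA)) k h0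
    have h2 := E_chord k m h0 h0'.le
    rw [← hmdef] at h1
    obtain ⟨k', hk'⟩ := case1 k m V.card (2 * ∑ A ∈ F.erase V, A.card) h0 h0' (by omega)
    refine ⟨k', ?_⟩
    rw [hFcard, hsumF]
    refine hk'.trans (le_of_eq (by ring))
  · unfold UC at hUC
    push Not at hUC
    obtain ⟨A, hA, B, hB, hAB⟩ := hUC
    have hAB' : A ∪ B = V := by
      by_contra hne
      exact hAB (mem_erase.2 ⟨hne, hF A (mem_of_mem_erase hA) B (mem_of_mem_erase hB)⟩)
    have hAne : A ≠ V := (mem_erase.1 hA).1
    have hBne : B ≠ V := (mem_erase.1 hB).1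
    have hABne : A ≠ B := by
      rintro rfl
      rw [union_self] at hAB'
      exact hAne hAB'
    obtain ⟨S, hSV, hinj, hedge⟩ := exists_min_sep V F hFV
    set G := F.image (fun A => A ∩ S) with hGdef
    have hGcard : G.card = F.card := card_image_of_injOn hinj
    have hGUC : UC G := by
      intro X hX Y hY
      obtain ⟨X', hX', rfl⟩ := mem_image.1 hX
      obtain ⟨Y', hY', rfl⟩ := mem_image.1 hY
      rw [hGdef, mem_image]
      exact ⟨X' ∪ Y', hF X' hX' Y' hY', union_inter_distrib_right _ _ _⟩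
    have hGS : ∀ X ∈ G, X ⊆ S := by
      intro X hX
      obtain ⟨X', hX', rfl⟩ := mem_image.1 hX
      exact inter_subset_right
    have hSG : S ∈ G := by
      rw [hGdef, mem_image]
      exact ⟨V, hV, inter_eq_right.2 hSV⟩
    have hGedge : ∀ a ∈ S, ∃ X ∈ G, a ∉ X ∧ insert a X ∈ G := by
      intro a ha
      obtain ⟨X, hX, Y, hY, haX, haY, h⟩ := hedge a ha
      refine ⟨X ∩ S, mem_image_of_mem _ hX, fun h' => haX (mem_inter.1 h').1, ?_⟩
      rw [← h]
      exact mem_image_of_mem _ hY
    obtain ⟨hch1, hch2⟩ := chain_bound S G hGUC hGS hGedge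
    have hGm : (G.erase S).card = m := by
      rw [card_erase_of_mem hSG, hGcard, hFcard]
      omega
    have hw := weight_top S G hGUC hGS hSG k (by rw [hGm]; exact h0)
    rw [hGm] at hw hch2
    have hsumG : ∑ X ∈ G, X.card = ∑ X ∈ G.erase S, X.card + S.card := by
      rw [sum_erase_add _ _ hSG]
    have hsumG' : ∑ X ∈ G, X.card = ∑ X ∈ F, (X ∩ S).card := by
      rw [hGdef, sum_image hinj]
    have hsplit : ∑ X ∈ F, X.card = ∑ X ∈ F, (X ∩ S).card + ∑ X ∈ F, (X \ S).card := by
      rw [← sum_add_distrib]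
      apply sum_congr rfl
      intro X _
      exact (card_inter_add_card_sdiff X S).symm
    have hthree : 2 * (V \ S).card ≤ ∑ X ∈ F, (X \ S).card := by
      have hsub : ({V, A, B} : Finset (Finset α)) ⊆ F := by
        intro X hX
        simp only [mem_insert, mem_singleton] at hX
        rcases hX with rfl | rfl | rfl
        · exact hV
        · exact mem_of_mem_erase hA
        · exact mem_of_mem_erase hB
      have h1 : ∑ X ∈ ({V, A, B} : Finset (Finset α)), (X \ S).card ≤ ∑ X ∈ F, (X \ S).card :=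
        sum_le_sum_of_subset hsub
      rw [sum_insert, sum_insert, sum_singleton] at h1
      · have h2 : (V \ S).card ≤ (A \ S).card + (B \ S).card := by
          calc (V \ S).card = (A \ S ∪ B \ S).card := by rw [← union_sdiff_distrib, hAB']
            _ ≤ _ := card_union_le _ _
        omega
      · simpa using hABne
      · simp only [mem_insert, mem_singleton]
        push Not
        exact ⟨hAne.symm, hBne.symm⟩
    have hVS : (V \ S).card = V.card - S.card := card_sdiff_of_subset hSV
    have hSV' : S.card ≤ V.card := card_le_card hSV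
    have h4 : m + 1 ≤ 2 ^ S.card := by
      rw [← card_powerset, ← hFcard, ← hGcard]
      exact card_le_card (fun X hX => mem_powerset.2 (hGS X hX))
    have hns : V.card - (V.card - S.card) = S.card := by omega
    obtain ⟨k', hk'⟩ := case2 k m V.card (V.card - S.card) (∑ X ∈ G.erase S, X.card) h0 h0'
      (by omega) hw (by rw [hns]; exact hch1) (by rw [hns]; exact hch2) (by rw [hns]; exact h4)
    refine ⟨k', ?_⟩
    rw [hFcard]
    refine hk'.trans ?_
    gcongr
    omega

end Pool.Agent.H616R3
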